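import Pool.Agent.Lib.MP_b1c768_lc.Defs

/-!
Row ALG of board SLB: the points of `Crt` lie on one hypersurface `Q(x_J, x_l) = 0`.
-/

set_option autoImplicit false

namespace MPB1C

open MvPolynomial

theorem totalDegree_pderiv_le' {σ : Type} (i : σ) (p : MvPolynomial σ ℝ) :
    (pderiv i p).totalDegree ≤ p.totalDegree := by
  classical
  conv_lhs => rw [p.as_sum, map_sum]
  refine totalDegree_finsetSum_le fun s hs => ?_
  rw [pderiv_monomial]
  refine (totalDegree_monomial_le _ _).trans ?_
  refine le_trans ?_ (le_totalDegree hs)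
  have hle : s - Finsupp.single i 1 ≤ s := tsub_le_self
  generalize s - Finsupp.single i 1 = t at hle
  unfold Finsupp.sum
  calc ∑ a ∈ t.support, id (t a)
      ≤ ∑ a ∈ t.support, s a := Finset.sum_le_sum fun a _ => hle a
    _ ≤ ∑ a ∈ s.support, s a := by
        apply Finset.sum_le_sum_of_subset
        intro a ha
        rw [Finsupp.mem_support_iff] at ha ⊢
        have := hle a
        omega

theorem totalDegree_GF_le {n m D : ℕ} (F : Finset (MvPolynomial (Fin n) ℝ)) (hF : F.card ≤ m)
    (hD : ∀ p ∈ F, p.totalDegree ≤ D) : (GF F).totalDegree ≤ 2 * m * (D + 1) := by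
  classical
  unfold GF
  refine (totalDegree_finsetProd _ _).trans ?_
  have h1 : ∀ p ∈ F, ((rename some p : MvPolynomial (Option (Fin n)) ℝ) ^ 2 -
      X none ^ 2).totalDegree ≤ 2 * (D + 1) := by
    intro p hp
    refine (totalDegree_sub _ _).trans (max_le ?_ ?_)
    · refine (totalDegree_pow _ _).trans ?_
      have h2 := (totalDegree_rename_le some p).trans (hD p hp)
      omega
    · rw [totalDegree_X_pow]
      omega
  refine (Finset.sum_le_card_nsmul F _ (2 * (D + 1)) h1).trans ?_
  rw [smul_eq_mul]
  calc F.card * (2 * (D + 1)) ≤ m * (2 * (D + 1)) := Nat.mul_le_mul_right _ hF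
    _ = 2 * m * (D + 1) := by ring

/-! ## Bound for the degree in one variable of all coefficients -/

/-- all coefficients have degree at most `k` in `l` -/
def DL {n : ℕ} (l : Fin n) (k : ℕ) (f : Polynomial (MvPolynomial (Fin n) ℝ)) : Prop :=
  ∀ i, (f.coeff i).degreeOf l ≤ k

theorem DL.mono {n : ℕ} {l : Fin n} {k k' : ℕ} {f : Polynomial (MvPolynomial (Fin n) ℝ)}
    (h : DL l k f) (hk : k ≤ k') : DL l k' f := fun i => (h i).trans hk

theorem DL.mul {n : ℕ} {l : Fin n} {k k' : ℕ} {f g : Polynomial (MvPolynomial (Fin n) ℝ)}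
    (h : DL l k f) (h' : DL l k' g) : DL l (k + k') (f * g) := by
  intro i
  rw [Polynomial.coeff_mul]
  refine (degreeOf_sum_le l _ _).trans (Finset.sup_le fun x _ => ?_)
  exact (degreeOf_mul_le l _ _).trans (Nat.add_le_add (h _) (h' _))

theorem DL.one {n : ℕ} (l : Fin n) : DL l 0 (1 : Polynomial (MvPolynomial (Fin n) ℝ)) := by
  intro i
  rw [Polynomial.coeff_one]
  split_ifs
  · exact (degreeOf_one l).le
  · exact (degreeOf_zero l).le

theorem DL.pow {n : ℕ} {l : Fin n} {k : ℕ} {f : Polynomial (MvPolynomial (Fin n) ℝ)}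
    (h : DL l k f) (r : ℕ) : DL l (r * k) (f ^ r) := by
  induction r with
  | zero =>
    rw [pow_zero, zero_mul]
    exact DL.one l
  | succ r ih =>
    rw [pow_succ]
    exact (ih.mul h).mono (by rw [add_mul, one_mul])

theorem DL.sum {n : ℕ} {l : Fin n} {k : ℕ} {ι : Type} (s : Finset ι)
    (f : ι → Polynomial (MvPolynomial (Fin n) ℝ)) (h : ∀ i ∈ s, DL l k (f i)) :
    DL l k (∑ i ∈ s, f i) := by
  intro j
  rw [Polynomial.finsetSum_coeff]
  exact (degreeOf_sum_le l _ _).trans (Finset.sup_le fun x hx => h x hx j)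

theorem DL.prod {n : ℕ} {l : Fin n} {ι : Type} (s : Finset ι) (k : ι → ℕ)
    (f : ι → Polynomial (MvPolynomial (Fin n) ℝ)) (h : ∀ i ∈ s, DL l (k i) (f i)) :
    DL l (∑ i ∈ s, k i) (∏ i ∈ s, f i) := by
  classical
  induction s using Finset.induction_on with
  | empty =>
    rw [Finset.sum_empty, Finset.prod_empty]
    exact DL.one l
  | insert a s ha ih =>
    rw [Finset.sum_insert ha, Finset.prod_insert ha]
    exact (h a (Finset.mem_insert_self a s)).mul
      (ih fun i hi => h i (Finset.mem_insert_of_mem hi))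

theorem DL.C {n : ℕ} {l : Fin n} {k : ℕ} (p : MvPolynomial (Fin n) ℝ) (h : p.degreeOf l ≤ k) :
    DL l k (Polynomial.C p) := by
  intro i
  rw [Polynomial.coeff_C]
  split_ifs
  · exact h
  · rw [degreeOf_zero]
    exact Nat.zero_le _

theorem DL.X_pow {n : ℕ} (l : Fin n) (r : ℕ) :
    DL l 0 (Polynomial.X ^ r : Polynomial (MvPolynomial (Fin n) ℝ)) := by
  intro i
  rw [Polynomial.coeff_X_pow]
  split_ifs
  · exact (degreeOf_one l).le
  · exact (degreeOf_zero l).le

/-! ## The substitution -/

/-- the substitution `x_l, ε, x_J, s ε ^ M w` -/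
noncomputable def th {n : ℕ} (M : ℕ) (J : Finset (Fin n)) (l : Fin n) (s : ℝ) (w : Fin n → ℝ) :
    Option (Option (Fin n)) → Polynomial (MvPolynomial (Fin n) ℝ)
  | none => Polynomial.C (X l)
  | some none => Polynomial.X
  | some (some j) => if j ∈ J then Polynomial.C (X j) else
      Polynomial.C (C (s * w j)) * Polynomial.X ^ M

/-- the values of the substitution at `(c, ε)` -/
noncomputable def vl {n : ℕ} (M : ℕ) (J : Finset (Fin n)) (l : Fin n) (s : ℝ) (w c : Fin n → ℝ)
    (ε : ℝ) : Option (Option (Fin n)) → ℝ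
  | none => c l
  | some none => ε
  | some (some j) => if j ∈ J then c j else (s * w j) * ε ^ M

/-- evaluation at `(c, ε)` -/
noncomputable def ea {n : ℕ} (c : Fin n → ℝ) (ε : ℝ) :
    Polynomial (MvPolynomial (Fin n) ℝ) →+* ℝ :=
  Polynomial.eval₂RingHom (eval c) ε

theorem ea_th {n : ℕ} (M : ℕ) (J : Finset (Fin n)) (l : Fin n) (s : ℝ) (w c : Fin n → ℝ) (ε : ℝ)
    (P : MvPolynomial (Option (Option (Fin n))) ℝ) :
    ea c ε (aeval (th M J l s w) P) = eval (vl M J l s w c ε) P := by
  rw [map_aeval]
  have h1 : (ea c ε).comp (algebraMap ℝ (Polynomial (MvPolynomial (Fin n) ℝ))) =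
      RingHom.id ℝ := by
    ext r
    simp [ea]
  have h2 : (fun i => ea c ε (th M J l s w i)) = vl M J l s w c ε := by
    funext i
    rcases i with _ | _ | j
    · simp [ea, th, vl]
    · simp [ea, th, vl]
    · by_cases hj : j ∈ J
      · simp [ea, th, vl, hj]
      · simp [ea, th, vl, hj]
  rw [h1, h2]
  rfl

theorem DL_th {n : ℕ} (M : ℕ) (J : Finset (Fin n)) (l : Fin n) (hl : l ∉ J) (s : ℝ)
    (w : Fin n → ℝ) (P : MvPolynomial (Option (Option (Fin n))) ℝ) (B : ℕ)
    (hP : P.degreeOf none ≤ B) : DL l B (aeval (th M J l s w) P) := by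
  classical
  rw [aeval_def, eval₂_eq']
  refine DL.sum _ _ fun d hd => ?_
  have h0 : DL l 0 ((algebraMap ℝ (Polynomial (MvPolynomial (Fin n) ℝ))) (coeff d P)) := by
    have e : (algebraMap ℝ (Polynomial (MvPolynomial (Fin n) ℝ))) (coeff d P) =
        Polynomial.C (C (coeff d P)) := rfl
    rw [e]
    exact DL.C _ (degreeOf_C _ l).le
  have h1 : ∀ i ∈ (Finset.univ : Finset (Option (Option (Fin n)))),
      DL l (if i = none then d i else 0) (th M J l s w i ^ d i) := by
    intro i _
    rcases i with _ | _ | j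
    · rw [if_pos rfl]
      refine ((DL.C (k := 1) (X l) ?_).pow (d none)).mono (by omega)
      rw [degreeOf_X, if_pos rfl]
    · rw [if_neg (by simp)]
      have h2 : DL l 0 (th M J l s w (some none)) := by
        have := DL.X_pow l 1
        rw [pow_one] at this
        exact this
      exact (h2.pow _).mono (by omega)
    · rw [if_neg (by simp)]
      have h2 : DL l 0 (th M J l s w (some (some j))) := by
        by_cases hj : j ∈ J
        · simp only [th, if_pos hj]
          refine DL.C _ ?_
          rw [degreeOf_X, if_neg]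
          intro h
          rw [h] at hl
          exact hl hj
        · simp only [th, if_neg hj]
          exact (DL.C (k := 0) _ (degreeOf_C _ l).le).mul (DL.X_pow l M)
      exact (h2.pow _).mono (by omega)
  refine (h0.mul (DL.prod _ _ _ h1)).mono ?_
  rw [Finset.sum_ite_eq' Finset.univ none (fun i => d i), if_pos (Finset.mem_univ _), zero_add]
  exact (monomial_le_degreeOf none hd).trans hP

theorem map_th {n : ℕ} (M : ℕ) (J : Finset (Fin n)) (l : Fin n) (s : ℝ) (w x y : Fin n → ℝ)
    (hl : x l = y l) (hJ : ∀ j ∈ J, x j = y j) (P : MvPolynomial (Option (Option (Fin n))) ℝ) :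
    (aeval (th M J l s w) P).map (eval x) = (aeval (th M J l s w) P).map (eval y) := by
  have key : ∀ z : Fin n → ℝ, (aeval (th M J l s w) P).map (eval z) =
      Polynomial.mapRingHom (eval z) (aeval (th M J l s w) P) := fun z => rfl
  rw [key, key, map_aeval, map_aeval]
  have h1 : ∀ z : Fin n → ℝ, (Polynomial.mapRingHom (eval z)).comp
      (algebraMap ℝ (Polynomial (MvPolynomial (Fin n) ℝ))) = Polynomial.C := by
    intro z
    ext r
    simp
  have h2 : (fun i => Polynomial.mapRingHom (eval x) (th M J l s w i)) =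
      fun i => Polynomial.mapRingHom (eval y) (th M J l s w i) := by
    funext i
    rcases i with _ | _ | j
    · simp [th, hl]
    · simp [th]
    · by_cases hj : j ∈ J
      · simp [th, hj, hJ j hj]
      · simp [th, hj]
  rw [h1, h1, h2]

/-! ## The sign change -/

/-- the sign of a variable -/
noncomputable def sv {n : ℕ} (J : Finset (Fin n)) : Option (Option (Fin n)) → ℝ
  | some (some j) => if j ∈ J then 1 else -1
  | _ => 1

theorem sv_sq {n : ℕ} (J : Finset (Fin n)) (i : Option (Option (Fin n))) :
    sv J i * sv J i = 1 := by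
  rcases i with _ | _ | j
  · simp [sv]
  · simp [sv]
  · by_cases hj : j ∈ J
    · simp [sv, hj]
    · simp [sv, hj]

theorem exists_point {n : ℕ} (J : Finset (Fin n)) (P : MvPolynomial (Option (Option (Fin n))) ℝ)
    (hP : P ≠ 0) : ∃ v : Option (Option (Fin n)) → ℝ, eval v P ≠ 0 ∧
      eval (fun i => sv J i * v i) P ≠ 0 ∧ v (some none) ≠ 0 := by
  classical
  set P' : MvPolynomial (Option (Option (Fin n))) ℝ :=
    bind₁ (fun i => C (sv J i) * X i) P with hP'
  have hev : ∀ v, eval v P' = eval (fun i => sv J i * v i) P := by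
    intro v
    rw [hP']
    have := eval₂Hom_bind₁ (RingHom.id ℝ) v (fun i => C (sv J i) * X i) P
    have h2 : (fun i => (eval₂Hom (RingHom.id ℝ) v) (C (sv J i) * X i)) =
        fun i => sv J i * v i := by
      funext i
      simp
    rw [h2] at this
    exact this
  have hP'0 : P' ≠ 0 := by
    intro h
    apply hP
    apply MvPolynomial.funext
    intro v
    have h2 := hev (fun i => sv J i * v i)
    rw [h, map_zero] at h2
    rw [map_zero, h2]
    congr 2
    funext i
    rw [← mul_assoc, sv_sq, one_mul]
  have hprod : P * P' * X (some none) ≠ 0 :=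
    mul_ne_zero (mul_ne_zero hP hP'0) (X_ne_zero _)
  by_contra hcon
  push Not at hcon
  apply hprod
  apply MvPolynomial.funext
  intro v
  rw [map_mul, map_mul, map_zero, eval_X, hev]
  by_cases h1 : eval v P = 0
  · rw [h1, zero_mul, zero_mul]
  · by_cases h2 : eval (fun i => sv J i * v i) P = 0
    · rw [h2, mul_zero, zero_mul]
    · rw [hcon v h1 h2, mul_zero]

/-- a nonzero polynomial is a power of the variable times one with nonzero constant term -/
theorem exists_X_pow_mul {R : Type} [CommRing R] (f : Polynomial R) (hf : f ≠ 0) :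
    ∃ (e : ℕ) (g : Polynomial R), f = Polynomial.X ^ e * g ∧ g.coeff 0 ≠ 0 ∧
      g.coeff 0 = f.coeff e := by
  have h1 : Polynomial.X ^ f.natTrailingDegree ∣ f := by
    rw [Polynomial.X_pow_dvd_iff]
    intro d hd
    exact Polynomial.coeff_eq_zero_of_lt_natTrailingDegree hd
  obtain ⟨g, hg⟩ := h1
  have h2 : f.coeff f.natTrailingDegree = g.coeff 0 := by
    have := Polynomial.coeff_X_pow_mul g f.natTrailingDegree 0
    rw [zero_add, ← hg] at this
    exact this
  refine ⟨f.natTrailingDegree, g, hg, ?_, h2.symm⟩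
  rw [← h2]
  intro h
  exact hf (Polynomial.trailingCoeff_eq_zero.mp h)

theorem continuous_ea {n : ℕ} (g : Polynomial (MvPolynomial (Fin n) ℝ)) :
    Continuous (fun q : (Fin n → ℝ) × ℝ => ea q.1 q.2 g) := by
  have h : ∀ q : (Fin n → ℝ) × ℝ, ea q.1 q.2 g =
      ∑ i ∈ g.support, eval q.1 (g.coeff i) * q.2 ^ i := by
    intro q
    change Polynomial.eval₂ (eval q.1) q.2 g = _
    rw [Polynomial.eval₂_eq_sum, Polynomial.sum_def]
  simp only [h]
  refine continuous_finsetSum _ fun i _ => ?_
  refine Continuous.mul ?_ (continuous_snd.pow i)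
  exact (MvPolynomial.continuous_eval (g.coeff i)).comp continuous_fst

theorem alg_proof (hdep : DepStatement) : AlgStatement := by
  classical
  intro n m D F J l hF hD hl
  set E : ℕ := 2 * m * (D + 1) + 1 with hE
  set M : ℕ := 2 * m + 1 with hM
  let g : Option (Option (Fin n)) → MvPolynomial (Option (Fin n)) ℝ := fun i =>
    match i with
    | none => X (some l)
    | some none => X none
    | some (some j) => if j ∈ J then X (some j) else pderiv (some j) (GF F)
  have hg : ∀ i, (g i).totalDegree ≤ E := by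
    intro i
    rcases i with _ | _ | j
    · change (X (some l) : MvPolynomial (Option (Fin n)) ℝ).totalDegree ≤ E
      rw [totalDegree_X]
      omega
    · change (X none : MvPolynomial (Option (Fin n)) ℝ).totalDegree ≤ E
      rw [totalDegree_X]
      omega
    · change (if j ∈ J then X (some j) else pderiv (some j) (GF F)).totalDegree ≤ E
      by_cases hj : j ∈ J
      · rw [if_pos hj, totalDegree_X]
        omega
      · rw [if_neg hj]
        have := (totalDegree_pderiv_le' (some j) (GF F)).trans (totalDegree_GF_le F hF hD)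
        omega
  obtain ⟨P, hP0, hPdeg, hPg⟩ := hdep (Option (Fin n)) (Option (Option (Fin n))) E g
    (by simp) (by omega) hg
  set B : ℕ := ((n + 2) * (2 * m * (D + 1) + 1)) ^ (n + 1) with hB
  have hPB : P.degreeOf none ≤ B := by
    have h := hPdeg none
    simp only [Fintype.card_option, Fintype.card_fin] at h
    rw [hB, hE] at *
    exact h
  obtain ⟨v, hv1, hv2, hv3⟩ := exists_point J P hP0
  -- the vector `w`
  let w : Fin n → ℝ := fun j => v (some (some j)) / v (some none) ^ M
  let c0 : Fin n → ℝ := fun i => if i = l then v none else v (some (some i))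
  have hc0l : c0 l = v none := by simp [c0]
  have hc0J : ∀ j ∈ J, c0 j = v (some (some j)) := by
    intro j hj
    have : j ≠ l := fun h => hl (h ▸ hj)
    simp [c0, this]
  have hw : ∀ j, w j * v (some none) ^ M = v (some (some j)) := by
    intro j
    exact div_mul_cancel₀ _ (pow_ne_zero _ hv3)
  have hvl1 : vl M J l 1 w c0 (v (some none)) = v := by
    funext i
    rcases i with _ | _ | j
    · exact hc0l
    · rfl
    · by_cases hj : j ∈ J
      · simp only [vl, if_pos hj]
        exact hc0J j hj
      · simp only [vl, if_neg hj, one_mul]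
        exact hw j
  have hvl2 : vl M J l (-1) w c0 (v (some none)) = fun i => sv J i * v i := by
    funext i
    rcases i with _ | _ | j
    · simp only [vl, sv, one_mul]
      exact hc0l
    · simp only [vl, sv, one_mul]
    · by_cases hj : j ∈ J
      · simp only [vl, sv, if_pos hj, one_mul]
        exact hc0J j hj
      · simp only [vl, sv, if_neg hj]
        rw [← hw j]
        ring
  set f1 := aeval (th M J l 1 w) P with hf1
  set f2 := aeval (th M J l (-1) w) P with hf2
  have hf0 : f1 * f2 ≠ 0 := by
    intro h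
    have h1 : ea c0 (v (some none)) (f1 * f2) = 0 := by rw [h, map_zero]
    rw [map_mul, hf1, hf2, ea_th, ea_th, hvl1, hvl2] at h1
    rcases mul_eq_zero.mp h1 with h2 | h2
    · exact hv1 h2
    · exact hv2 h2
  obtain ⟨e, G, hG1, hG2, hG3⟩ := exists_X_pow_mul (f1 * f2) hf0
  refine ⟨G.coeff 0, hG2, ?_, ?_, ?_⟩
  · rw [hG3]
    have h := ((DL_th M J l hl 1 w P B hPB).mul (DL_th M J l hl (-1) w P B hPB)) e
    rw [two_mul]
    exact h
  · intro x y hxl hxJ
    rw [hG3]
    have h1 : ∀ z : Fin n → ℝ, eval z ((f1 * f2).coeff e) =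
        (f1.map (eval z) * f2.map (eval z)).coeff e := by
      intro z
      rw [← Polynomial.map_mul, Polynomial.coeff_map]
    rw [h1, h1, hf1, hf2, map_th M J l 1 w x y hxl hxJ P, map_th M J l (-1) w x y hxl hxJ P]
  · intro a ha
    by_contra hne
    have hcont := continuous_ea G
    have h0 : ea a 0 G = eval a (G.coeff 0) := by
      change Polynomial.eval₂ (eval a) 0 G = _
      rw [Polynomial.eval₂_at_zero]
    have h1 : ∀ᶠ q in nhds ((a, 0) : (Fin n → ℝ) × ℝ), ea q.1 q.2 G ≠ 0 := by
      apply hcont.continuousAt.eventually_ne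
      change ea a 0 G ≠ 0
      rw [h0]
      exact hne
    obtain ⟨δ, hδ, h2⟩ := Metric.eventually_nhds_iff.mp h1
    obtain ⟨ε, c, s, hε0, hεδ, hca, -, hs, hder⟩ := ha w δ hδ
    have h3 := h2 (y := (c, ε)) (by
      rw [Prod.dist_eq]
      refine max_lt hca ?_
      change dist ε 0 < δ
      rw [Real.dist_eq, sub_zero, abs_of_pos hε0]
      exact hεδ)
    apply h3
    -- the values of `P` at the point
    have h4 : vl M J l s w c ε = fun i => eval (pt c ε) (g i) := by
      funext i
      rcases i with _ | _ | j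
      · change c l = eval (pt c ε) (X (some l))
        rw [eval_X]
        rfl
      · change ε = eval (pt c ε) (X none)
        rw [eval_X]
        rfl
      · by_cases hj : j ∈ J
        · simp only [vl, g, if_pos hj, eval_X]
          rfl
        · simp only [vl, g, if_neg hj]
          rw [hder j hj]
          ring
    have h5 : eval (vl M J l s w c ε) P = 0 := by
      rw [h4]
      have := eval₂Hom_bind₁ (RingHom.id ℝ) (pt c ε) g P
      rw [hPg, map_zero] at this
      exact this.symm
    have h6 : ea c ε (f1 * f2) = 0 := by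
      rw [map_mul]
      rcases hs with h | h
      · have h7 : ea c ε f1 = 0 := by
          rw [hf1, ea_th, ← h]
          exact h5
        rw [h7, zero_mul]
      · have h7 : ea c ε f2 = 0 := by
          rw [hf2, ea_th, ← h]
          exact h5
        rw [h7, mul_zero]
    rw [hG1, map_mul, map_pow] at h6
    rcases mul_eq_zero.mp h6 with h7 | h7
    · exfalso
      have h8 : ea c ε Polynomial.X = ε := by simp [ea]
      rw [h8] at h7
      exact (pow_ne_zero e hε0.ne') h7
    · exact h7

end MPB1C
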