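import Pool.Agent.Lib.MP_b1c768_lc.Defs

/-!
# MP_b1c768_lc, board SLB, row CIR: few polynomials determine the sign of a circuit (helper3)
-/

set_option autoImplicit false

namespace MPB1C

open MvPolynomial

namespace Circ

variable {n : ℕ}

/-- Nesting depth of the sign gates. -/
def nest : Circ n → ℕ
  | const _ => 0
  | inp _ => 0
  | add a b => max (nest a) (nest b)
  | sub a b => max (nest a) (nest b)
  | mul a b => max (nest a) (nest b)
  | sgn a => nest a + 1

/-- The polynomial of a circuit without sign gates. -/
noncomputable def poly : Circ n → MvPolynomial (Fin n) ℝ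
  | const r => C r
  | inp i => X i
  | add a b => poly a + poly b
  | sub a b => poly a - poly b
  | mul a b => poly a * poly b
  | sgn _ => 0

open Classical in
/-- The polynomials under the innermost sign gates. -/
noncomputable def inner : Circ n → Finset (MvPolynomial (Fin n) ℝ)
  | const _ => ∅
  | inp _ => ∅
  | add a b => inner a ∪ inner b
  | sub a b => inner a ∪ inner b
  | mul a b => inner a ∪ inner b
  | sgn a => if nest a = 0 then {poly a} else inner a

/-- Replace the innermost sign gates by their values at `z`. -/
noncomputable def red (z : Fin n → ℝ) : Circ n → Circ n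
  | const r => const r
  | inp i => inp i
  | add a b => add (red z a) (red z b)
  | sub a b => sub (red z a) (red z b)
  | mul a b => mul (red z a) (red z b)
  | sgn a => if nest a = 0 then const ((SignType.sign (Circ.eval z a) : SignType) : ℝ)
      else sgn (red z a)

theorem nest_le (c : Circ n) : c.nest ≤ c.depth := by
  induction c with
  | const r => exact Nat.le_refl _
  | inp i => exact Nat.le_refl _
  | add a b ha hb => simp only [nest, depth]; omega
  | sub a b ha hb => simp only [nest, depth]; omega
  | mul a b ha hb => simp only [nest, depth]; omega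
  | sgn a ha => simp only [nest, depth]; omega

theorem eval_poly (x : Fin n → ℝ) (c : Circ n) (h : c.nest = 0) :
    MvPolynomial.eval x c.poly = c.eval x := by
  induction c with
  | const r => simp [poly, Circ.eval]
  | inp i => simp [poly, Circ.eval]
  | add a b ha hb =>
    simp only [nest] at h
    simp only [poly, Circ.eval, map_add]
    rw [ha (by omega), hb (by omega)]
  | sub a b ha hb =>
    simp only [nest] at h
    simp only [poly, Circ.eval, map_sub]
    rw [ha (by omega), hb (by omega)]
  | mul a b ha hb =>
    simp only [nest] at h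
    simp only [poly, Circ.eval, map_mul]
    rw [ha (by omega), hb (by omega)]
  | sgn a ha => simp [nest] at h

theorem two_pow_add (u v : ℕ) : 2 ^ u + 2 ^ v ≤ 2 ^ (max u v + 1) := by
  have h1 : 2 ^ u ≤ 2 ^ max u v := Nat.pow_le_pow_right (by norm_num) (le_max_left _ _)
  have h2 : 2 ^ v ≤ 2 ^ max u v := Nat.pow_le_pow_right (by norm_num) (le_max_right _ _)
  rw [pow_succ]
  omega

theorem deg_poly (c : Circ n) : c.poly.totalDegree ≤ 2 ^ c.depth := by
  induction c with
  | const r => simp [poly]
  | inp i => simp [poly, depth]
  | add a b ha hb =>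
    have h1 := totalDegree_add a.poly b.poly
    have h2 := two_pow_add a.depth b.depth
    simp only [poly, depth]
    refine h1.trans ?_
    rcases max_cases a.poly.totalDegree b.poly.totalDegree with ⟨h, -⟩ | ⟨h, -⟩ <;> rw [h] <;> omega
  | sub a b ha hb =>
    have h1 := totalDegree_sub a.poly b.poly
    have h2 := two_pow_add a.depth b.depth
    simp only [poly, depth]
    refine h1.trans ?_
    rcases max_cases a.poly.totalDegree b.poly.totalDegree with ⟨h, -⟩ | ⟨h, -⟩ <;> rw [h] <;> omega
  | mul a b ha hb =>
    have h1 := totalDegree_mul a.poly b.poly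
    have h2 := two_pow_add a.depth b.depth
    simp only [poly, depth]
    omega
  | sgn a ha => simp [poly]

theorem card_inner (c : Circ n) : c.inner.card ≤ 2 ^ c.depth := by
  induction c with
  | const r => simp [inner]
  | inp i => simp [inner]
  | add a b ha hb =>
    have h1 := Finset.card_union_le a.inner b.inner
    have h2 := two_pow_add a.depth b.depth
    simp only [inner, depth]
    omega
  | sub a b ha hb =>
    have h1 := Finset.card_union_le a.inner b.inner
    have h2 := two_pow_add a.depth b.depth
    simp only [inner, depth]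
    omega
  | mul a b ha hb =>
    have h1 := Finset.card_union_le a.inner b.inner
    have h2 := two_pow_add a.depth b.depth
    simp only [inner, depth]
    omega
  | sgn a ha =>
    simp only [inner, depth]
    split_ifs with h
    · rw [Finset.card_singleton]
      exact Nat.one_le_two_pow
    · rw [pow_succ]
      omega

theorem deg_inner (c : Circ n) : ∀ p ∈ c.inner, p.totalDegree ≤ 2 ^ c.depth := by
  have key : ∀ u v w : ℕ, u ≤ 2 ^ v → v ≤ w → u ≤ 2 ^ w := fun u v w h1 h2 =>
    h1.trans (Nat.pow_le_pow_right (by norm_num) h2)
  induction c with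
  | const r => intro p hp; simp [inner] at hp
  | inp i => intro p hp; simp [inner] at hp
  | add a b ha hb =>
    intro p hp
    simp only [inner, Finset.mem_union] at hp
    simp only [depth]
    rcases hp with hp | hp
    · exact key _ _ _ (ha p hp) (by omega)
    · exact key _ _ _ (hb p hp) (by omega)
  | sub a b ha hb =>
    intro p hp
    simp only [inner, Finset.mem_union] at hp
    simp only [depth]
    rcases hp with hp | hp
    · exact key _ _ _ (ha p hp) (by omega)
    · exact key _ _ _ (hb p hp) (by omega)
  | mul a b ha hb =>
    intro p hp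
    simp only [inner, Finset.mem_union] at hp
    simp only [depth]
    rcases hp with hp | hp
    · exact key _ _ _ (ha p hp) (by omega)
    · exact key _ _ _ (hb p hp) (by omega)
  | sgn a ha =>
    intro p hp
    simp only [inner] at hp
    simp only [depth]
    split_ifs at hp with h
    · rw [Finset.mem_singleton] at hp
      rw [hp]
      exact key _ _ _ (deg_poly a) (by omega)
    · exact key _ _ _ (ha p hp) (by omega)

theorem depth_red (z : Fin n → ℝ) (c : Circ n) : (c.red z).depth ≤ c.depth := by
  induction c with
  | const r => simp [red]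
  | inp i => simp [red]
  | add a b ha hb => simp only [red, depth]; omega
  | sub a b ha hb => simp only [red, depth]; omega
  | mul a b ha hb => simp only [red, depth]; omega
  | sgn a ha =>
    simp only [red]
    split_ifs with h
    · simp [depth]
    · simp only [depth]
      omega

theorem nest_red (z : Fin n → ℝ) (c : Circ n) : (c.red z).nest ≤ c.nest - 1 := by
  induction c with
  | const r => simp [red, nest]
  | inp i => simp [red, nest]
  | add a b ha hb => simp only [red, nest]; omega
  | sub a b ha hb => simp only [red, nest]; omega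
  | mul a b ha hb => simp only [red, nest]; omega
  | sgn a ha =>
    simp only [red]
    split_ifs with h
    · simp [nest]
    · simp only [nest]
      omega

theorem eval_red {x z : Fin n → ℝ} (c : Circ n) (h : SameP c.inner x z) :
    (c.red z).eval x = c.eval x := by
  induction c with
  | const r => simp [red]
  | inp i => simp [red]
  | add a b ha hb =>
    simp only [red, Circ.eval]
    rw [ha fun p hp => h p (by simp [inner, hp]), hb fun p hp => h p (by simp [inner, hp])]
  | sub a b ha hb =>
    simp only [red, Circ.eval]
    rw [ha fun p hp => h p (by simp [inner, hp]), hb fun p hp => h p (by simp [inner, hp])]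
  | mul a b ha hb =>
    simp only [red, Circ.eval]
    rw [ha fun p hp => h p (by simp [inner, hp]), hb fun p hp => h p (by simp [inner, hp])]
  | sgn a ha =>
    simp only [red]
    split_ifs with h0
    · simp only [Circ.eval]
      have h1 := h a.poly (by simp [inner, h0])
      rw [eval_poly x a h0, eval_poly z a h0] at h1
      rw [h1]
    · simp only [Circ.eval]
      rw [ha fun p hp => h p (by simp [inner, h0, hp])]

end Circ

/-- Induction on the nesting depth. -/
theorem cir_aux (h : SgnStatement) (n d : ℕ) (k : ℕ) : ∀ c : Circ n, c.depth ≤ d → c.nest ≤ k →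
    ∃ F : Finset (MvPolynomial (Fin n) ℝ), F.card ≤ (2 ^ d + RR n (2 ^ d) (2 ^ d)) ^ k ∧
      (∀ p ∈ F, p.totalDegree ≤ 2 ^ d) ∧
      ∀ x y, SameP F x y → (0 < c.eval x ↔ 0 < c.eval y) := by
  classical
  induction k with
  | zero =>
    intro c hd hk
    have h0 : c.nest = 0 := by omega
    refine ⟨{c.poly}, by simp, ?_, ?_⟩
    · intro p hp
      rw [Finset.mem_singleton] at hp
      rw [hp]
      exact (c.deg_poly).trans (Nat.pow_le_pow_right (by norm_num) hd)
    · intro x y hxy
      have h1 := hxy c.poly (by simp)
      rw [Circ.eval_poly x c h0, Circ.eval_poly y c h0] at h1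
      rw [← sign_eq_one_iff, ← sign_eq_one_iff, h1]
  | succ k ih =>
    intro c hd hk
    have hpow : 2 ^ c.depth ≤ 2 ^ d := Nat.pow_le_pow_right (by norm_num) hd
    obtain ⟨Z, hZ, hZx⟩ := h n (2 ^ d) (2 ^ d) c.inner ((c.card_inner).trans hpow)
      (fun p hp => (c.deg_inner p hp).trans hpow)
    have h1 : ∀ z : Fin n → ℝ, ∃ F : Finset (MvPolynomial (Fin n) ℝ),
        F.card ≤ (2 ^ d + RR n (2 ^ d) (2 ^ d)) ^ k ∧ (∀ p ∈ F, p.totalDegree ≤ 2 ^ d) ∧
        ∀ x y, SameP F x y → (0 < (c.red z).eval x ↔ 0 < (c.red z).eval y) := by
      intro z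
      refine ih (c.red z) ((c.depth_red z).trans hd) ?_
      have := c.nest_red z
      omega
    choose Fz hF1 hF2 hF3 using h1
    refine ⟨c.inner ∪ Z.biUnion Fz, ?_, ?_, ?_⟩
    · have e1 := Finset.card_union_le c.inner (Z.biUnion Fz)
      have e2 : (Z.biUnion Fz).card ≤ Z.card * (2 ^ d + RR n (2 ^ d) (2 ^ d)) ^ k :=
        Finset.card_biUnion_le_card_mul Z Fz _ (fun z _ => hF1 z)
      have e3 := (c.card_inner).trans hpow
      have e4 : 1 ≤ (2 ^ d + RR n (2 ^ d) (2 ^ d)) ^ k :=
        Nat.one_le_pow _ _ (by have : 0 < 2 ^ d := by positivity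
                               omega)
      calc (c.inner ∪ Z.biUnion Fz).card ≤ 2 ^ d * 1 + RR n (2 ^ d) (2 ^ d) *
            (2 ^ d + RR n (2 ^ d) (2 ^ d)) ^ k := by
              refine e1.trans (Nat.add_le_add (by omega) (e2.trans ?_))
              exact Nat.mul_le_mul_right _ hZ
        _ ≤ 2 ^ d * (2 ^ d + RR n (2 ^ d) (2 ^ d)) ^ k + RR n (2 ^ d) (2 ^ d) *
            (2 ^ d + RR n (2 ^ d) (2 ^ d)) ^ k :=
              Nat.add_le_add_right (Nat.mul_le_mul_left _ e4) _
        _ = (2 ^ d + RR n (2 ^ d) (2 ^ d)) ^ (k + 1) := by ring
    · intro p hp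
      rw [Finset.mem_union, Finset.mem_biUnion] at hp
      rcases hp with hp | ⟨z, -, hp⟩
      · exact (c.deg_inner p hp).trans hpow
      · exact hF2 z p hp
    · intro x y hxy
      obtain ⟨z, hz, hxz⟩ := hZx x
      have hyz : SameP c.inner y z := fun p hp =>
        (hxy p (Finset.mem_union_left _ hp)).symm.trans (hxz p hp)
      rw [← Circ.eval_red c hxz, ← Circ.eval_red c hyz]
      exact hF3 z x y fun p hp =>
        hxy p (Finset.mem_union_right _ (Finset.mem_biUnion.2 ⟨z, hz, hp⟩))

/-- Row CIR. -/
theorem cir_proof (h : SgnStatement) : CirStatement := by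
  intro n d C hC
  exact cir_aux h n d d C hC (C.nest_le.trans hC)

end MPB1C
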