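import Pool.Agent.Lib.MP_b1c768_lc.Defs

/-!
# MP_b1c768_lc, board SLB: basic facts on `Comp` (helper16)
-/

set_option autoImplicit false

namespace MPB1C

variable {X α β : Type} {T : Set (X → ℝ)}

theorem Comp.mono_set {f : X → α} {k : ℕ} : ∀ {U V : Set X}, U ⊆ V → Comp T f k V → Comp T f k U := by
  induction k with
  | zero => exact fun h hV x hx y hy => hV x (h hx) y (h hy)
  | succ k ih =>
    rintro U V h (hV | ⟨t, ht, hV⟩)
    · exact Or.inl (ih h hV)
    · refine Or.inr ⟨t, ht, fun s => ih ?_ (hV s)⟩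
      exact fun x hx => ⟨h hx.1, hx.2⟩

theorem Comp.mono {f : X → α} {k k' : ℕ} (hk : k ≤ k') {U : Set X} (h : Comp T f k U) :
    Comp T f k' U := by
  induction k', hk using Nat.le_induction with
  | base => exact h
  | succ k' _ ih => exact Or.inl ih

/-- First find out the value of `g`, then that of `f`. -/
theorem Comp.bind {f : X → α} {g : X → β} {k k' : ℕ} : ∀ {U : Set X}, Comp T g k U →
    (∀ x ∈ U, Comp T f k' {y | y ∈ U ∧ g y = g x}) → Comp T f (k + k') U := by
  induction k with
  | zero =>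
    intro U hg h
    rcases U.eq_empty_or_nonempty with rfl | ⟨x, hx⟩
    · refine Comp.mono (Nat.zero_le _) ?_
      exact fun x hx => absurd hx (Set.notMem_empty x)
    · rw [Nat.zero_add]
      refine Comp.mono_set ?_ (h x hx)
      exact fun y hy => ⟨hy, hg y hy x hx⟩
  | succ k ih =>
    rintro U (hg | ⟨t, ht, hg⟩) h
    · rw [Nat.add_right_comm]
      exact Or.inl (ih hg h)
    · rw [Nat.add_right_comm]
      refine Or.inr ⟨t, ht, fun s => ih (hg s) (fun x hx => ?_)⟩
      refine Comp.mono_set ?_ (h x hx.1)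
      exact fun y hy => ⟨hy.1.1, hy.2⟩

/-- `f'` is determined by `f`. -/
theorem Comp.of_eq {f : X → α} {f' : X → β} {k : ℕ} : ∀ {U : Set X},
    (∀ x ∈ U, ∀ y ∈ U, f x = f y → f' x = f' y) → Comp T f k U → Comp T f' k U := by
  induction k with
  | zero => exact fun h hf x hx y hy => h x hx y hy (hf x hx y hy)
  | succ k ih =>
    rintro U h (hf | ⟨t, ht, hf⟩)
    · exact Or.inl (ih h hf)
    · exact Or.inr ⟨t, ht, fun s => ih (fun x hx y hy => h x hx.1 y hy.1) (hf s)⟩

/-- One test. -/
theorem Comp.test {t : X → ℝ} (ht : t ∈ T) (U : Set X) :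
    Comp T (fun x => SignType.sign (t x)) 1 U :=
  Or.inr ⟨t, ht, fun _ _ hx _ hy => hx.2.trans hy.2.symm⟩

/-- The signs of finitely many tests. -/
theorem Comp.signs {ι : Type} (G : Finset ι) (t : ι → X → ℝ) (ht : ∀ i ∈ G, t i ∈ T)
    (U : Set X) :
    Comp T (fun x => fun i : {i // i ∈ G} => SignType.sign (t i.1 x)) G.card U := by
  classical
  induction G using Finset.induction_on generalizing U with
  | empty =>
    intro x _ y _
    funext i
    exact absurd i.2 (Finset.notMem_empty _)
  | insert a G ha ih =>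
    rw [Finset.card_insert_of_notMem ha, Nat.add_comm]
    have h1 := Comp.test (T := T) (ht a (Finset.mem_insert_self a G)) U
    refine h1.bind (fun x hx => ?_)
    have h2 := ih (fun i hi => ht i (Finset.mem_insert_of_mem hi))
      {y | y ∈ U ∧ SignType.sign (t a y) = SignType.sign (t a x)}
    refine h2.of_eq (fun y hy z hz hyz => ?_)
    funext i
    rcases Finset.mem_insert.1 i.2 with hi | hi
    · rw [hi]
      exact hy.2.trans hz.2.symm
    · exact congrFun hyz ⟨i.1, hi⟩

/-- Pull back along a map that turns the tests in `T` into tests in `T'`. -/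
theorem Comp.comap {Y : Type} {T' : Set (Y → ℝ)} (φ : Y → X) (hφ : ∀ t ∈ T, t ∘ φ ∈ T')
    {f : X → α} {k : ℕ} : ∀ {U : Set X}, Comp T f k U → Comp T' (f ∘ φ) k (φ ⁻¹' U) := by
  induction k with
  | zero => exact fun h x hx y hy => h _ hx _ hy
  | succ k ih =>
    rintro U (hf | ⟨t, ht, hf⟩)
    · exact Or.inl (ih hf)
    · exact Or.inr ⟨t ∘ φ, hφ t ht, fun s => ih (hf s)⟩

end MPB1C
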