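import Pool.Agent.Lib.MP_b1c768_lc.Defs

/-!
# MP_b1c768_lc, board SLB: row COV (helper30)
-/

set_option autoImplicit false

namespace MPB1C

open MvPolynomial Filter Topology

/-- `a` is an affine function without `x_l` whose graph lies locally in the zero set of `Q`. -/
def CovGood {n : ℕ} (Q : MvPolynomial (Fin n) ℝ) (l : Fin n) (a : Aff n) : Prop :=
  a.1 l = 0 ∧ ∃ (q : Fin n → ℝ) (r : ℝ), 0 < r ∧ q l = aev a q ∧
    ∀ x ∈ Metric.ball q r, x l = aev a x → eval x Q = 0

/-- All these affine functions form a finite set. -/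
theorem cov_fin (h6 : RtsStatement) {n : ℕ} (Q : MvPolynomial (Fin n) ℝ) (l : Fin n)
    (hQ : Q ≠ 0) (N : ℕ) (hN : Q.degreeOf l ≤ N) :
    ∃ Λ : Finset (Aff n), Λ.card ≤ N ∧ (∀ a ∈ Λ, a.1 l = 0) ∧ ∀ a, CovGood Q l a → a ∈ Λ := by
  classical
  have hb : ∀ Λ : Finset (Aff n), (↑Λ : Set (Aff n)) ⊆ {a | CovGood Q l a} → Λ.card ≤ N := by
    intro Λ hΛ
    refine (h6 n Q l Λ hQ (fun a ha => (hΛ ha).1) (fun a ha => ?_)).trans hN
    exact (hΛ ha).2
  have hfin : {a | CovGood Q l a}.Finite := by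
    by_contra hinf
    obtain ⟨t, ht, htc⟩ := Set.Infinite.exists_subset_card_eq hinf (N + 1)
    have := hb t ht
    omega
  refine ⟨hfin.toFinset, hb _ (by rw [Set.Finite.coe_toFinset]), fun a ha => ?_, fun a ha => ?_⟩
  · exact ((Set.Finite.mem_toFinset hfin).1 ha).1
  · exact (Set.Finite.mem_toFinset hfin).2 ha

theorem continuous_aev {n : ℕ} (a : Aff n) : Continuous (fun x => aev a x) := by
  unfold aev
  fun_prop

/-- An affine function that involves only the coordinates in `J`. -/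
theorem aev_congr {n : ℕ} (J : Finset (Fin n)) (b : Aff n) (hb : ∀ j, j ∉ J → b.1 j = 0)
    (x y : Fin n → ℝ) (hxy : ∀ j ∈ J, x j = y j) : aev b x = aev b y := by
  unfold aev
  congr 1
  refine Finset.sum_congr rfl (fun i _ => ?_)
  by_cases hi : i ∈ J
  · rw [hxy i hi]
  · rw [hb i hi, zero_mul, zero_mul]

/-- At a frontier point one of the nonzero polynomials vanishes. -/
theorem cov_front {n : ℕ} (F : Finset (MvPolynomial (Fin n) ℝ)) (S : Set (Fin n → ℝ))
    (hS : Dets F S) (x : Fin n → ℝ) (hx : x ∈ frontier S) : ∃ p ∈ F, p ≠ 0 ∧ eval x p = 0 := by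
  classical
  by_contra hne
  push Not at hne
  have hev : ∀ᶠ y in 𝓝 x, ∀ p ∈ F, SignType.sign (eval y p) = SignType.sign (eval x p) := by
    rw [Filter.eventually_all_finset]
    intro p hp
    by_cases h0 : p = 0
    · subst h0
      exact Filter.Eventually.of_forall (fun y => by simp)
    · have h1 := hne p hp h0
      have hc : Continuous (fun y : Fin n → ℝ => eval y p) := MvPolynomial.continuous_eval p
      rcases lt_or_gt_of_ne h1 with h2 | h2
      · filter_upwards [hc.continuousAt.eventually_lt continuousAt_const h2] with y hy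
        rw [sign_neg hy, sign_neg h2]
      · filter_upwards [continuousAt_const.eventually_lt hc.continuousAt h2] with y hy
        rw [sign_pos hy, sign_pos h2]
  have hev2 : ∀ᶠ y in 𝓝 x, (y ∈ S ↔ x ∈ S) := by
    filter_upwards [hev] with y hy
    exact hS y x hy
  rw [frontier_eq_closure_inter_closure] at hx
  have h3 := mem_closure_iff_frequently.1 hx.1
  have h4 := mem_closure_iff_frequently.1 hx.2
  obtain ⟨y, hy1, hy2⟩ := (h3.and_eventually hev2).exists
  obtain ⟨z, hz1, hz2⟩ := (h4.and_eventually hev2).exists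
  exact hz1 (hz2.2 (hy2.1 hy1))

/-- For one set `J` of coordinates: a coordinate `l` and a polynomial. -/
theorem cov_J (h5 : AlgStatement) {n m D : ℕ} (F : Finset (MvPolynomial (Fin n) ℝ))
    (S : Set (Fin n → ℝ)) (hF1 : F.card ≤ m) (hF2 : ∀ p ∈ F, p.totalDegree ≤ D)
    (hF3 : Dets F S) (J : Finset (Fin n)) (hJ : J ≠ Finset.univ) :
    ∃ (l : Fin n) (Q : MvPolynomial (Fin n) ℝ), l ∉ J ∧ Q ≠ 0 ∧ Q.degreeOf l ≤ BB n m D ∧
      (J.card + 2 ≤ n → (∀ x y, x l = y l → (∀ j ∈ J, x j = y j) → eval x Q = eval y Q) ∧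
        ∀ a, Crt m F J a → eval a Q = 0) ∧
      (¬ J.card + 2 ≤ n → ∀ x ∈ frontier S, eval x Q = 0) := by
  classical
  obtain ⟨l, hl⟩ : ∃ l, l ∉ J := by
    by_contra hne
    push Not at hne
    exact hJ (Finset.eq_univ_of_forall hne)
  by_cases hc : J.card + 2 ≤ n
  · obtain ⟨Q, hQ1, hQ2, hQ3, hQ4⟩ := h5 n m D F J l hF1 hF2 hl
    refine ⟨l, Q, hl, hQ1, ?_, fun _ => ⟨hQ3, hQ4⟩, fun h => absurd hc h⟩
    exact hQ2.trans (Nat.le_add_right _ _)
  · refine ⟨l, ∏ p ∈ F.filter (fun p => p ≠ 0), p, hl, ?_, ?_, fun h => absurd h hc, fun _ x hx => ?_⟩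
    · exact Finset.prod_ne_zero_iff.2 (fun p hp => (Finset.mem_filter.1 hp).2)
    · refine (degreeOf_prod_le _ _ _).trans ?_
      refine (Finset.sum_le_card_nsmul _ _ D (fun p hp => ?_)).trans ?_
      · exact (degreeOf_le_totalDegree p l).trans (hF2 p (Finset.mem_filter.1 hp).1)
      · rw [smul_eq_mul, BB]
        refine le_trans ?_ (Nat.le_add_left _ _)
        exact Nat.mul_le_mul_right _ ((Finset.card_filter_le _ _).trans hF1)
    · obtain ⟨p, hp1, hp2, hp3⟩ := cov_front F S hF3 x hx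
      rw [map_prod]
      exact Finset.prod_eq_zero (Finset.mem_filter.2 ⟨hp1, hp2⟩) hp3

theorem cov_proof (h1 : TgtStatement) (h2 : CrdStatement) (h3 : IsoStatement)
    (h4 : CrtStatement) (h5 : AlgStatement) (h6 : RtsStatement) : CovStatement := by
  classical
  intro n m D F S hF1 hF2 hF3 hS
  obtain ⟨A, hA⟩ := hS
  -- the data for every set `J`
  have hJdata : ∀ J : Finset (Fin n), ∃ (K : Finset (Fin n × Aff n)), K.card ≤ BB n m D ∧
      (∀ k ∈ K, k.2.1 k.1 = 0) ∧ (J ≠ Finset.univ → ∃ (l : Fin n)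
        (Q : MvPolynomial (Fin n) ℝ), l ∉ J ∧ (∀ a, CovGood Q l a → (l, a) ∈ K) ∧
      (J.card + 2 ≤ n → (∀ x y, x l = y l → (∀ j ∈ J, x j = y j) → eval x Q = eval y Q) ∧
        ∀ a, Crt m F J a → eval a Q = 0) ∧
      (¬ J.card + 2 ≤ n → ∀ x ∈ frontier S, eval x Q = 0)) := by
    intro J
    by_cases hJ : J = Finset.univ
    · exact ⟨∅, by simp, by simp, fun h => absurd hJ h⟩
    · obtain ⟨l, Q, hl, hQ1, hQ2, hQ3, hQ4⟩ := cov_J h5 F S hF1 hF2 hF3 J hJ
      obtain ⟨Λ, hΛ1, hΛ2, hΛ3⟩ := cov_fin h6 Q l hQ1 _ hQ2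
      refine ⟨Λ.image (fun a => (l, a)), Finset.card_image_le.trans hΛ1, ?_,
        fun _ => ⟨l, Q, hl, fun a ha => Finset.mem_image_of_mem _ (hΛ3 a ha), hQ3, hQ4⟩⟩
      intro k hk
      obtain ⟨a, ha, rfl⟩ := Finset.mem_image.1 hk
      exact hΛ2 a ha
  choose K hK1 hK2 hK3 using hJdata
  refine ⟨Finset.univ.biUnion K, ?_, ?_, ?_⟩
  · refine (Finset.card_biUnion_le_card_mul _ _ (BB n m D) (fun J _ => hK1 J)).trans_eq ?_
    rw [Finset.card_univ, Fintype.card_finset, Fintype.card_fin]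
  · intro k hk
    obtain ⟨J, _, hk'⟩ := Finset.mem_biUnion.1 hk
    exact hK2 J k hk'
  · intro z hz
    obtain ⟨I, q, r, hr, hq, hIz, hIq, hfr, hdet⟩ := h1 n A S hA z hz
    obtain ⟨J, lam, hlam, hL⟩ := h2 n I q hIq
    obtain ⟨hJ, r', hr', hi1, hi2⟩ := h3 n S I q r J lam hr hq hIq hfr hdet hlam hL
    obtain ⟨l, Q, hl, hgood, hQ1, hQ2⟩ := hK3 J hJ
    refine ⟨(l, lam l), Finset.mem_biUnion.2 ⟨J, Finset.mem_univ _, hgood _ ?_⟩,
      (hL z).1 hIz l hl⟩
    -- projection to the flat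
    have hqL := (hL q).1 hIq
    let P : (Fin n → ℝ) → (Fin n → ℝ) := fun x i => if i ∈ J then x i else aev (lam i) x
    have hPJ : ∀ x, ∀ j ∈ J, P x j = x j := fun x j hj => if_pos hj
    have hPJ' : ∀ x, ∀ i, i ∉ J → P x i = aev (lam i) x := fun x i hi => if_neg hi
    have hPL : ∀ x, ∀ i, i ∉ J → P x i = aev (lam i) (P x) := by
      intro x i hi
      rw [hPJ' x i hi]
      exact aev_congr J (lam i) (hlam i) x (P x) (fun j hj => (hPJ x j hj).symm)
    have hPq : P q = q := by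
      funext i
      by_cases hi : i ∈ J
      · exact hPJ q i hi
      · rw [hPJ' q i hi, ← hqL i hi]
    have hPc : Continuous P := by
      refine continuous_pi (fun i => ?_)
      by_cases hi : i ∈ J
      · have : (fun x : Fin n → ℝ => P x i) = fun x => x i := funext (fun x => hPJ x i hi)
        rw [this]
        exact continuous_apply i
      · have : (fun x : Fin n → ℝ => P x i) = fun x => aev (lam i) x :=
          funext (fun x => hPJ' x i hi)
        rw [this]
        exact continuous_aev (lam i)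
    have hev : ∀ᶠ x in 𝓝 q, P x ∈ Metric.ball q r' := by
      have h7 : Metric.ball q r' ∈ 𝓝 (P q) := by
        rw [hPq]
        exact Metric.ball_mem_nhds q hr'
      exact hPc.continuousAt.eventually h7
    obtain ⟨r'', hr'', hball⟩ := Metric.eventually_nhds_iff_ball.1 hev
    refine ⟨hlam l l hl, q, r'', hr'', hqL l hl, fun x hx hxl => ?_⟩
    have hPx := hball x hx
    by_cases hc : J.card + 2 ≤ n
    · obtain ⟨hQ3, hQ4⟩ := hQ1 hc
      rw [hQ3 x (P x) (by rw [hxl, hPJ' x l hl]) (fun j hj => (hPJ x j hj).symm)]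
      refine hQ4 _ ?_
      -- a small ball around `P x`
      obtain ⟨ρ, hρ, hρb⟩ := Metric.isOpen_iff.1 (Metric.isOpen_ball (x := q) (ε := r')) (P x) hPx
      refine h4 n m F J (P x) ρ hF1 hρ (fun y hy hyJ hne => ?_)
      have h8 := hi2 hc (P x) hPx y (hρb hy) (hPL x) hyJ hne
      by_contra hcon
      push Not at hcon
      exact h8 (hF3 y (P x) hcon)
    · refine hQ2 hc x ?_
      -- here `J` contains all coordinates except `l`
      have hJc : Jᶜ = {l} := by
        have h9 : l ∈ Jᶜ := Finset.mem_compl.2 hl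
        have h10 : Jᶜ.card ≤ 1 := by
          rw [Finset.card_compl, Fintype.card_fin]
          omega
        exact (Finset.eq_singleton_iff_unique_mem.2 ⟨h9, fun y hy =>
          Finset.card_le_one.1 h10 y hy l h9⟩)
      have hPxx : P x = x := by
        funext i
        by_cases hi : i ∈ J
        · exact hPJ x i hi
        · have h11 : i ∈ Jᶜ := Finset.mem_compl.2 hi
          rw [hJc, Finset.mem_singleton] at h11
          rw [hPJ' x i hi, h11, ← hxl]
      have h12 := hi1 (P x) hPx (hPL x)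
      rwa [hPxx] at h12

end MPB1C
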