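import Pool.Agent.Lib.MP_b1c768_lc.Defs

/-!
# Row CRD: coordinates on a flat
-/

set_option autoImplicit false

namespace MPB1C

theorem crd_proof : CrdStatement := by
  intro n I q hq
  classical
  let V : Submodule ℝ (Fin n → ℝ) :=
    { carrier := {v | ∀ a ∈ I, ∑ i, a.1 i * v i = 0}
      add_mem' := by
        intro v w hv hw a ha
        have h : ∑ i, a.1 i * (v + w) i = ∑ i, a.1 i * v i + ∑ i, a.1 i * w i := by
          rw [← Finset.sum_add_distrib]
          exact Finset.sum_congr rfl fun i _ => by rw [Pi.add_apply, mul_add]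
        rw [h, hv a ha, hw a ha, add_zero]
      zero_mem' := by
        intro a _
        simp
      smul_mem' := by
        intro c v hv a ha
        have h : ∑ i, a.1 i * (c • v) i = c * ∑ i, a.1 i * v i := by
          rw [Finset.mul_sum]
          exact Finset.sum_congr rfl fun i _ => by rw [Pi.smul_apply, smul_eq_mul]; ring
        rw [h, hv a ha, mul_zero] }
  have hV : ∀ v, v ∈ V ↔ ∀ a ∈ I, ∑ i, a.1 i * v i = 0 := fun v => Iff.rfl
  have hx : ∀ x, (∀ a ∈ I, aev a x = 0) ↔ x - q ∈ V := by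
    intro x
    rw [hV]
    refine forall₂_congr fun a ha => ?_
    have h : ∑ i, a.1 i * (x - q) i = aev a x - aev a q := by
      unfold aev
      have : ∑ i, a.1 i * (x - q) i = ∑ i, a.1 i * x i - ∑ i, a.1 i * q i := by
        rw [← Finset.sum_sub_distrib]
        exact Finset.sum_congr rfl fun i _ => by rw [Pi.sub_apply, mul_sub]
      rw [this]
      ring
    rw [h, hq a ha, sub_zero]
  obtain ⟨J, hJ, hmin⟩ := (wellFounded_lt (α := Finset (Fin n))).has_min
    {J | ∀ v ∈ V, (∀ j ∈ J, v j = 0) → v = 0}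
    ⟨Finset.univ, fun v _ h => funext fun j => h j (Finset.mem_univ j)⟩
  have hJ' : ∀ v ∈ V, (∀ j ∈ J, v j = 0) → v = 0 := hJ
  -- dual basis
  have he : ∀ j : Fin n, ∃ e : Fin n → ℝ, e ∈ V ∧ (j ∈ J → e j = 1 ∧ ∀ k ∈ J, k ≠ j → e k = 0) := by
    intro j
    by_cases hj : j ∈ J
    · have h1 : J.erase j ∉ {J | ∀ v ∈ V, (∀ j ∈ J, v j = 0) → v = 0} := fun h =>
        hmin _ h (Finset.erase_ssubset hj)
      simp only [Set.mem_ofPred_eq] at h1
      push Not at h1
      obtain ⟨v, hv, hv0, hne⟩ := h1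
      have hvj : v j ≠ 0 := by
        intro h0
        apply hne
        refine hJ' v hv fun k hk => ?_
        by_cases hkj : k = j
        · rw [hkj, h0]
        · exact hv0 k (Finset.mem_erase.2 ⟨hkj, hk⟩)
      refine ⟨(v j)⁻¹ • v, V.smul_mem _ hv, fun _ => ⟨?_, fun k hk hkj => ?_⟩⟩
      · rw [Pi.smul_apply, smul_eq_mul, inv_mul_cancel₀ hvj]
      · rw [Pi.smul_apply, hv0 k (Finset.mem_erase.2 ⟨hkj, hk⟩), smul_zero]
    · exact ⟨0, V.zero_mem, fun h => absurd h hj⟩
  choose e heV he1 using he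
  have hsum : ∀ (c : Fin n → ℝ), ∀ k ∈ J, (∑ j ∈ J, c j • e j) k = c k := by
    intro c k hk
    rw [Finset.sum_apply, Finset.sum_eq_single k]
    · rw [Pi.smul_apply, (he1 k hk).1, smul_eq_mul, mul_one]
    · intro j hj hjk
      rw [Pi.smul_apply, (he1 j hj).2 k hk hjk.symm, smul_zero]
    · intro h
      exact absurd hk h
  have hmem : ∀ v, v ∈ V ↔ ∀ i, i ∉ J → v i = (∑ j ∈ J, v j • e j) i := by
    intro v
    constructor
    · intro hv i _
      have h0 : v - ∑ j ∈ J, v j • e j = 0 := by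
        refine hJ' _ (V.sub_mem hv (V.sum_mem fun j _ => V.smul_mem _ (heV j))) fun k hk => ?_
        rw [Pi.sub_apply, hsum v k hk, sub_self]
      rw [← sub_eq_zero.1 h0]
    · intro h
      have h0 : v = ∑ j ∈ J, v j • e j := by
        funext i
        by_cases hi : i ∈ J
        · exact (hsum v i hi).symm
        · exact h i hi
      rw [h0]
      exact V.sum_mem fun j _ => V.smul_mem _ (heV j)
  refine ⟨J, fun i => (fun j => if j ∈ J then e j i else 0, q i - ∑ j ∈ J, e j i * q j),
    fun i j hj => by simp [hj], fun x => ?_⟩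
  rw [hx, hmem]
  refine forall₂_congr fun i hi => ?_
  have h1 : aev ((fun j => if j ∈ J then e j i else 0, q i - ∑ j ∈ J, e j i * q j) : Aff n) x =
      ∑ j ∈ J, e j i * x j + (q i - ∑ j ∈ J, e j i * q j) := by
    unfold aev
    congr 1
    rw [← Finset.sum_filter_add_sum_filter_not Finset.univ (fun j => j ∈ J)]
    have h2 : ∑ j ∈ Finset.univ.filter (fun j => ¬ j ∈ J), (if j ∈ J then e j i else 0) * x j = 0 :=
      Finset.sum_eq_zero fun j hj => by
        rw [if_neg (Finset.mem_filter.1 hj).2, zero_mul]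
    have h3 : Finset.univ.filter (fun j => j ∈ J) = J := by
      ext j
      simp
    simp only at h2 ⊢
    rw [h2, add_zero, h3]
    exact Finset.sum_congr rfl fun j hj => by rw [if_pos hj]
  have h4 : (∑ j ∈ J, (x - q) j • e j) i = ∑ j ∈ J, e j i * x j - ∑ j ∈ J, e j i * q j := by
    rw [Finset.sum_apply, ← Finset.sum_sub_distrib]
    exact Finset.sum_congr rfl fun j _ => by
      rw [Pi.smul_apply, Pi.sub_apply, smul_eq_mul]; ring
  rw [h1, h4, Pi.sub_apply]
  constructor
  · intro h
    linarith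
  · intro h
    linarith

end MPB1C
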