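import Pool.Agent.Lib.MP_b1c768_lc.Defs

/-!
# MP_b1c768_lc, board SLB: row CRT (existence of critical points, helper16)
-/

set_option autoImplicit false

namespace MPB1C

open MvPolynomial Filter Topology

/-- Partial derivatives of polynomials. -/
theorem crt_deriv {σ : Type} [DecidableEq σ] (y : σ → ℝ) (k : σ) (p : MvPolynomial σ ℝ) :
    HasDerivAt (fun t : ℝ => eval (Function.update y k (y k + t)) p) (eval y (pderiv k p)) 0 := by
  induction p using MvPolynomial.induction_on with
  | C a =>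
    simp only [eval_C, pderiv_C, map_zero]
    exact hasDerivAt_const _ _
  | add p q hp hq =>
    simp only [map_add]
    exact hp.add hq
  | mul_X p i hp =>
    have h0 : Function.update y k (y k + 0) = y := by
      rw [add_zero, Function.update_eq_self]
    have hX : HasDerivAt (fun t : ℝ => eval (Function.update y k (y k + t)) (X i))
        (eval y (pderiv k (X i))) 0 := by
      simp only [eval_X]
      by_cases hik : i = k
      · subst hik
        simp only [Function.update_self, pderiv_X_self, map_one]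
        exact (hasDerivAt_id 0).const_add (y i)
      · simp only [Function.update_of_ne hik]
        rw [pderiv_X_of_ne hik, map_zero]
        exact hasDerivAt_const _ _
    have h1 := hp.mul hX
    have h2 : eval y (pderiv k (p * X i)) = eval y (pderiv k p) * eval (Function.update y k (y k + 0)) (X i) +
        eval (Function.update y k (y k + 0)) p * eval y (pderiv k (X i)) := by
      rw [h0, Derivation.leibniz]
      simp only [smul_eq_mul, map_add, map_mul]
      ring
    have e : (fun t : ℝ => eval (Function.update y k (y k + t)) (p * X i)) =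
        fun t : ℝ => eval (Function.update y k (y k + t)) p *
          eval (Function.update y k (y k + t)) (X i) := by
      funext t
      rw [map_mul]
    rw [h2, e]
    exact h1

theorem crt_pt_update {n : ℕ} (c : Fin n → ℝ) (ε : ℝ) (j : Fin n) (t : ℝ) :
    pt (Function.update c j t) ε = Function.update (pt c ε) (some j) t := by
  funext o
  cases o with
  | none => simp [pt]
  | some i =>
    by_cases h : i = j
    · subst h
      simp [pt]
    · simp [pt, h]

theorem crt_GF {n : ℕ} (F : Finset (MvPolynomial (Fin n) ℝ)) (x : Fin n → ℝ) (ε : ℝ) :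
    eval (pt x ε) (GF F) = ∏ p ∈ F, ((eval x p) ^ 2 - ε ^ 2) := by
  unfold GF
  rw [map_prod]
  refine Finset.prod_congr rfl (fun p _ => ?_)
  have h1 : eval (pt x ε) (rename some p) = eval x p := by
    rw [eval_rename]
    rfl
  rw [map_sub, map_pow, map_pow, h1, eval_X]
  rfl

theorem crt_cont {n : ℕ} (p : MvPolynomial (Fin n) ℝ) : Continuous (fun x => eval x p) :=
  MvPolynomial.continuous_eval p

theorem crt_proof : CrtStatement := by
  classical
  intro n m F J a r hm hr hiso w δ hδ
  set I := F.filter (fun p => eval a p = 0) with hI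
  set N := F.filter (fun p => eval a p ≠ 0) with hN
  -- Step 1
  have h1 : ∀ᶠ x in 𝓝 a, ∀ p ∈ N, SignType.sign (eval x p) = SignType.sign (eval a p) := by
    rw [Finset.eventually_all]
    intro p hp
    have hpa : eval a p ≠ 0 := (Finset.mem_filter.1 hp).2
    rcases lt_or_gt_of_ne hpa with h | h
    · filter_upwards [(crt_cont p).continuousAt.eventually_lt_const h] with x hx
      rw [sign_neg hx, sign_neg h]
    · filter_upwards [(crt_cont p).continuousAt.eventually_const_lt h] with x hx
      rw [sign_pos hx, sign_pos h]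
  obtain ⟨r0, hr0, hr0'⟩ := Metric.eventually_nhds_iff_ball.1 h1
  obtain ⟨r1, hr1, hr1'⟩ : ∃ r1 : ℝ, 0 < r1 ∧ r1 < min r (min δ r0) :=
    exists_between (lt_min hr (lt_min hδ hr0))
  have hr1r : r1 < r := hr1'.trans_le (min_le_left _ _)
  have hr1δ : r1 < δ := hr1'.trans_le ((min_le_right _ _).trans (min_le_left _ _))
  have hr10 : r1 < r0 := hr1'.trans_le ((min_le_right _ _).trans (min_le_right _ _))
  -- Step 2
  have hfib : IsClosed {x : Fin n → ℝ | ∀ j ∈ J, x j = a j} := by
    have : {x : Fin n → ℝ | ∀ j ∈ J, x j = a j} = ⋂ j ∈ J, {x : Fin n → ℝ | x j = a j} := by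
      ext x
      simp
    rw [this]
    exact isClosed_biInter (fun j _ => isClosed_eq (continuous_apply j) continuous_const)
  have hsph : IsCompact (Metric.sphere a r1 ∩ {x : Fin n → ℝ | ∀ j ∈ J, x j = a j}) :=
    (isCompact_sphere a r1).inter_right hfib
  have hcontI : Continuous (fun x : Fin n → ℝ => ∑ p ∈ I, (eval x p) ^ 2) :=
    continuous_finsetSum _ (fun p _ => (crt_cont p).pow 2)
  have hposI : ∀ x ∈ Metric.sphere a r1 ∩ {x : Fin n → ℝ | ∀ j ∈ J, x j = a j},
      0 < ∑ p ∈ I, (eval x p) ^ 2 := by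
    rintro x ⟨hx1, hx2⟩
    have hd : dist x a = r1 := hx1
    have hxa : x ≠ a := by
      rintro rfl
      rw [dist_self] at hd
      exact hr1.ne hd
    obtain ⟨p, hp, hps⟩ := hiso x (by rw [Metric.mem_ball, hd]; exact hr1r) hx2 hxa
    have hpI : p ∈ I := by
      by_contra hpI
      have hpN : p ∈ N := by
        rw [hN, Finset.mem_filter]
        refine ⟨hp, fun h => hpI ?_⟩
        rw [hI, Finset.mem_filter]
        exact ⟨hp, h⟩
      exact hps (hr0' x (by rw [Metric.mem_ball, hd]; exact hr10) p hpN)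
    have hpa : eval a p = 0 := (Finset.mem_filter.1 hpI).2
    have hpx : eval x p ≠ 0 := by
      intro h
      rw [h, hpa] at hps
      exact hps rfl
    refine Finset.sum_pos' (fun q _ => sq_nonneg _) ⟨p, hpI, ?_⟩
    positivity
  obtain ⟨μ, hμ, hμ'⟩ : ∃ μ : ℝ, 0 < μ ∧
      ∀ x ∈ Metric.sphere a r1 ∩ {x : Fin n → ℝ | ∀ j ∈ J, x j = a j},
        μ ≤ ∑ p ∈ I, (eval x p) ^ 2 := by
    rcases (Metric.sphere a r1 ∩ {x : Fin n → ℝ | ∀ j ∈ J, x j = a j}).eq_empty_or_nonempty with
      h | h
    · exact ⟨1, one_pos, fun x hx => by rw [h] at hx; exact absurd hx (Set.notMem_empty x)⟩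
    · obtain ⟨x0, hx0, hmin⟩ := hsph.exists_isMinOn h hcontI.continuousOn
      exact ⟨_, hposI x0 hx0, fun x hx => hmin hx⟩
  -- Step 3
  set κ : ℝ → ℝ := fun ε => ∏ p ∈ N, |(eval a p) ^ 2 - ε ^ 2| with hκ
  have hκc : Continuous κ :=
    continuous_finsetProd _ (fun p _ => (continuous_const.sub (continuous_id.pow 2)).abs)
  have hκ0 : 0 < κ 0 := by
    refine Finset.prod_pos (fun p hp => ?_)
    have hpa : eval a p ≠ 0 := (Finset.mem_filter.1 hp).2
    have : (eval a p) ^ 2 - 0 ^ 2 ≠ 0 := by
      simpa using hpa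
    exact abs_pos.2 this
  set W : ℝ := ∑ j, |w j| with hW
  have hev : ∀ᶠ ε in 𝓝[>] (0 : ℝ), ε < δ ∧ ε < 1 ∧ (m : ℝ) * ε ^ 2 < μ ∧ κ 0 / 2 < κ ε ∧
      ε * (W * r1) < κ 0 / 2 := by
    have e1 : ∀ᶠ ε in 𝓝[>] (0 : ℝ), ε < δ := nhdsWithin_le_nhds (Iio_mem_nhds hδ)
    have e2 : ∀ᶠ ε in 𝓝[>] (0 : ℝ), ε < 1 := nhdsWithin_le_nhds (Iio_mem_nhds one_pos)
    have e3 : ∀ᶠ ε in 𝓝 (0 : ℝ), (m : ℝ) * ε ^ 2 < μ := by
      have hc : Continuous (fun ε : ℝ => (m : ℝ) * ε ^ 2) := by fun_prop
      refine hc.continuousAt.eventually_lt_const ?_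
      simpa using hμ
    have e4 : ∀ᶠ ε in 𝓝 (0 : ℝ), κ 0 / 2 < κ ε :=
      hκc.continuousAt.eventually_const_lt (half_lt_self hκ0)
    have e5 : ∀ᶠ ε in 𝓝 (0 : ℝ), ε * (W * r1) < κ 0 / 2 := by
      have hc : Continuous (fun ε : ℝ => ε * (W * r1)) := by fun_prop
      refine hc.continuousAt.eventually_lt_const ?_
      simpa using hκ0
    filter_upwards [e1, e2, nhdsWithin_le_nhds e3, nhdsWithin_le_nhds e4, nhdsWithin_le_nhds e5]
      with ε a1 a2 a3 a4 a5
    exact ⟨a1, a2, a3, a4, a5⟩
  obtain ⟨ε, ⟨hεδ, hε1, hεμ, hεκ, hεW⟩, hε0⟩ := (hev.and self_mem_nhdsWithin).exists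
  have hε0 : 0 < ε := hε0
  -- Step 4
  set G : (Fin n → ℝ) → ℝ := fun x => ∏ p ∈ F, ((eval x p) ^ 2 - ε ^ 2) with hG
  have hGc : Continuous G :=
    continuous_finsetProd _ (fun p _ => ((crt_cont p).pow 2).sub continuous_const)
  have hGa : κ 0 / 2 * ε ^ (2 * m) < |G a| := by
    have h2 : |G a| = (∏ p ∈ I, |(eval a p) ^ 2 - ε ^ 2|) * κ ε := by
      rw [hG, hκ]
      simp only [Finset.abs_prod]
      exact (Finset.prod_filter_mul_prod_filter_not F (fun p => eval a p = 0) _).symm
    have h3 : (∏ p ∈ I, |(eval a p) ^ 2 - ε ^ 2|) = (ε ^ 2) ^ I.card := by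
      rw [← Finset.prod_const]
      refine Finset.prod_congr rfl (fun p hp => ?_)
      rw [(Finset.mem_filter.1 hp).2]
      rw [zero_pow two_ne_zero, zero_sub, abs_neg, abs_of_nonneg (sq_nonneg ε)]
    have h4 : ε ^ (2 * m) ≤ (ε ^ 2) ^ I.card := by
      rw [← pow_mul]
      refine pow_le_pow_of_le_one hε0.le hε1.le ?_
      exact Nat.mul_le_mul_left 2 ((Finset.card_filter_le _ _).trans hm)
    rw [h2, h3]
    calc κ 0 / 2 * ε ^ (2 * m) ≤ κ 0 / 2 * (ε ^ 2) ^ I.card :=
          mul_le_mul_of_nonneg_left h4 (by positivity)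
      _ < κ ε * (ε ^ 2) ^ I.card := mul_lt_mul_of_pos_right hεκ (by positivity)
      _ = (ε ^ 2) ^ I.card * κ ε := mul_comm _ _
  obtain ⟨s, hs, hsG⟩ : ∃ s : ℝ, (s = 1 ∨ s = -1) ∧ s * G a = |G a| := by
    rcases le_total 0 (G a) with h | h
    · exact ⟨1, Or.inl rfl, by rw [one_mul, abs_of_nonneg h]⟩
    · exact ⟨-1, Or.inr rfl, by rw [abs_of_nonpos h, neg_one_mul]⟩
  set Φ : (Fin n → ℝ) → ℝ := fun x => s * G x - ε ^ (2 * m + 1) * ∑ j, w j * (x j - a j) with hΦ
  have hlin : Continuous (fun x : Fin n → ℝ => ∑ j, w j * (x j - a j)) :=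
    continuous_finsetSum _ (fun j _ =>
      continuous_const.mul ((continuous_apply j).sub continuous_const))
  have hΦc : Continuous Φ := (continuous_const.mul hGc).sub (continuous_const.mul hlin)
  set K : Set (Fin n → ℝ) := (Metric.closedBall a r1 ∩ {x | ∀ j ∈ J, x j = a j}) ∩
    {x | ∀ p ∈ I, (eval x p) ^ 2 ≤ ε ^ 2} with hK
  have hKc : IsCompact K := by
    refine ((isCompact_closedBall a r1).inter_right hfib).inter_right ?_
    have : {x : Fin n → ℝ | ∀ p ∈ I, (eval x p) ^ 2 ≤ ε ^ 2} =
        ⋂ p ∈ I, {x : Fin n → ℝ | (eval x p) ^ 2 ≤ ε ^ 2} := by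
      ext x
      simp
    rw [this]
    exact isClosed_biInter (fun p _ => isClosed_le ((crt_cont p).pow 2) continuous_const)
  have haK : a ∈ K := by
    refine ⟨⟨Metric.mem_closedBall_self hr1.le, fun j _ => rfl⟩, fun p hp => ?_⟩
    rw [(Finset.mem_filter.1 hp).2]
    rw [zero_pow two_ne_zero]
    exact sq_nonneg ε
  obtain ⟨c, hcK, hcmax⟩ := hKc.exists_isMaxOn ⟨a, haK⟩ hΦc.continuousOn
  have hΦa : Φ a = |G a| := by
    rw [hΦ]
    simp only [sub_self, mul_zero, Finset.sum_const_zero, sub_zero]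
    exact hsG
  have hca : |G a| ≤ Φ c := by
    rw [← hΦa]
    exact hcmax haK
  obtain ⟨⟨hc1, hc2⟩, hc3⟩ := hcK
  have hcd : dist c a ≤ r1 := hc1
  -- the linear term is small
  have hsmall : -(ε ^ (2 * m + 1) * ∑ j, w j * (c j - a j)) < |G a| := by
    have h2 : |∑ j, w j * (c j - a j)| ≤ W * r1 := by
      refine (Finset.abs_sum_le_sum_abs _ _).trans ?_
      rw [hW, Finset.sum_mul]
      refine Finset.sum_le_sum (fun j _ => ?_)
      rw [abs_mul]
      refine mul_le_mul_of_nonneg_left ?_ (abs_nonneg _)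
      have h3 := (dist_le_pi_dist c a j).trans hcd
      rwa [Real.dist_eq] at h3
    have h4 : -(ε ^ (2 * m + 1) * ∑ j, w j * (c j - a j)) ≤ ε ^ (2 * m + 1) * (W * r1) := by
      rw [← mul_neg]
      exact mul_le_mul_of_nonneg_left ((neg_le_abs _).trans h2) (by positivity)
    refine h4.trans_lt (lt_trans ?_ hGa)
    calc ε ^ (2 * m + 1) * (W * r1) = ε ^ (2 * m) * (ε * (W * r1)) := by ring
      _ < ε ^ (2 * m) * (κ 0 / 2) := mul_lt_mul_of_pos_left hεW (by positivity)
      _ = κ 0 / 2 * ε ^ (2 * m) := mul_comm _ _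
  have hcI : ∀ p ∈ I, (eval c p) ^ 2 < ε ^ 2 := by
    intro p hp
    refine lt_of_le_of_ne (hc3 p hp) (fun heq => ?_)
    have hG0 : G c = 0 := by
      rw [hG]
      refine Finset.prod_eq_zero (Finset.mem_filter.1 hp).1 ?_
      rw [heq, sub_self]
    have h2 : Φ c = -(ε ^ (2 * m + 1) * ∑ j, w j * (c j - a j)) := by
      rw [hΦ]
      simp only [hG0, mul_zero, zero_sub]
    rw [h2] at hca
    exact absurd hsmall (not_lt.2 hca)
  have hcr : dist c a < r1 := by
    refine lt_of_le_of_ne hcd (fun heq => ?_)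
    have h2 := hμ' c ⟨heq, hc2⟩
    have h3 : ∑ p ∈ I, (eval c p) ^ 2 ≤ (m : ℝ) * ε ^ 2 := by
      calc ∑ p ∈ I, (eval c p) ^ 2 ≤ ∑ _p ∈ I, ε ^ 2 := Finset.sum_le_sum hc3
        _ = (I.card : ℝ) * ε ^ 2 := by rw [Finset.sum_const, nsmul_eq_mul]
        _ ≤ (m : ℝ) * ε ^ 2 := by
          refine mul_le_mul_of_nonneg_right ?_ (sq_nonneg _)
          exact_mod_cast (Finset.card_filter_le _ _).trans hm
    exact absurd (h2.trans h3) (not_le.2 hεμ)
  -- Step 5
  refine ⟨ε, c, s, hε0, hεδ, hcr.trans hr1δ, hc2, hs, fun j hj => ?_⟩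
  have hupd : Continuous (fun t : ℝ => Function.update c j (c j + t)) :=
    (continuous_const.update j (continuous_const.add continuous_id))
  have hupd0 : Function.update c j (c j + 0) = c := by
    rw [add_zero, Function.update_eq_self]
  have hloc : ∀ᶠ t in 𝓝 (0 : ℝ), Φ (Function.update c j (c j + t)) ≤ Φ c := by
    have k1 : ∀ᶠ t in 𝓝 (0 : ℝ), dist (Function.update c j (c j + t)) a < r1 := by
      have hc : Continuous (fun t : ℝ => dist (Function.update c j (c j + t)) a) :=
        hupd.dist continuous_const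
      refine hc.continuousAt.eventually_lt_const ?_
      change dist (Function.update c j (c j + 0)) a < r1
      rw [hupd0]
      exact hcr
    have k2 : ∀ᶠ t in 𝓝 (0 : ℝ), ∀ p ∈ I, (eval (Function.update c j (c j + t)) p) ^ 2 < ε ^ 2 := by
      rw [Finset.eventually_all]
      intro p hp
      have hc : Continuous (fun t : ℝ => (eval (Function.update c j (c j + t)) p) ^ 2) :=
        ((crt_cont p).comp hupd).pow 2
      refine hc.continuousAt.eventually_lt_const ?_
      change (eval (Function.update c j (c j + 0)) p) ^ 2 < ε ^ 2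
      rw [hupd0]
      exact hcI p hp
    filter_upwards [k1, k2] with t ht1 ht2
    refine hcmax ⟨⟨ht1.le, fun i hi => ?_⟩, fun p hp => (ht2 p hp).le⟩
    have hij : i ≠ j := fun h => hj (h ▸ hi)
    rw [Function.update_of_ne hij]
    exact hc2 i hi
  have hder : HasDerivAt (fun t : ℝ => Φ (Function.update c j (c j + t)))
      (s * eval (pt c ε) (pderiv (some j) (GF F)) - ε ^ (2 * m + 1) * w j) 0 := by
    have d1 : HasDerivAt (fun t : ℝ => G (Function.update c j (c j + t)))
        (eval (pt c ε) (pderiv (some j) (GF F))) 0 := by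
      have := crt_deriv (pt c ε) (some j) (GF F)
      have e : (fun t : ℝ => eval (Function.update (pt c ε) (some j) (pt c ε (some j) + t)) (GF F)) =
          fun t : ℝ => G (Function.update c j (c j + t)) := by
        funext t
        rw [← crt_pt_update]
        exact crt_GF F _ ε
      rwa [e] at this
    have d2 : HasDerivAt (fun t : ℝ => ∑ i, w i * (Function.update c j (c j + t) i - a i))
        (w j) 0 := by
      have e : (fun t : ℝ => ∑ i, w i * (Function.update c j (c j + t) i - a i)) =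
          fun t : ℝ => w j * t + ∑ i, w i * (c i - a i) := by
        funext t
        rw [← Finset.add_sum_erase _ _ (Finset.mem_univ j),
          ← Finset.add_sum_erase Finset.univ (fun i => w i * (c i - a i)) (Finset.mem_univ j)]
        rw [Function.update_self]
        have : ∑ i ∈ Finset.univ.erase j, w i * (Function.update c j (c j + t) i - a i) =
            ∑ i ∈ Finset.univ.erase j, w i * (c i - a i) := by
          refine Finset.sum_congr rfl (fun i hi => ?_)
          rw [Function.update_of_ne (Finset.ne_of_mem_erase hi)]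
        rw [this]
        ring
      rw [e]
      have := ((hasDerivAt_id (0 : ℝ)).const_mul (w j)).add_const (∑ i, w i * (c i - a i))
      simpa using this
    exact (d1.const_mul s).sub (d2.const_mul _)
  have hmax : IsLocalMax (fun t : ℝ => Φ (Function.update c j (c j + t))) 0 := by
    refine hloc.mono (fun t ht => ?_)
    simp only [hupd0]
    exact ht
  have hz := hmax.hasDerivAt_eq_zero hder
  have hss : s * s = 1 := by
    rcases hs with h | h <;> rw [h] <;> norm_num
  have h9 : s * eval (pt c ε) (pderiv (some j) (GF F)) = ε ^ (2 * m + 1) * w j := by linarith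
  calc eval (pt c ε) (pderiv (some j) (GF F))
      = (s * s) * eval (pt c ε) (pderiv (some j) (GF F)) := by rw [hss, one_mul]
    _ = s * (s * eval (pt c ε) (pderiv (some j) (GF F))) := by ring
    _ = s * (ε ^ (2 * m + 1) * w j) := by rw [h9]

end MPB1C
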