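import Mathlib

/-!
# MP_b1c768_lc: semilinear problems in parallel polynomial time have shallow computation trees

Definitions and statements of the rows (board SLB, chair helper16).  Paper: finding of helper16.
-/

set_option autoImplicit false

namespace MPB1C

open MvPolynomial

/-! ## The models -/

/-- Arithmetic expressions with real constants, inputs, `+`, `-`, `*` and sign gates.  An algebraic
circuit of depth `d` (of any size) unfolds to such an expression of depth `d`. -/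
inductive Circ (n : ℕ) : Type
  | const : ℝ → Circ n
  | inp : Fin n → Circ n
  | add : Circ n → Circ n → Circ n
  | sub : Circ n → Circ n → Circ n
  | mul : Circ n → Circ n → Circ n
  | sgn : Circ n → Circ n

namespace Circ

/-- The value of a circuit; a sign gate returns `-1`, `0` or `1`. -/
noncomputable def eval {n : ℕ} (x : Fin n → ℝ) : Circ n → ℝ
  | const r => r
  | inp i => x i
  | add a b => eval x a + eval x b
  | sub a b => eval x a - eval x b
  | mul a b => eval x a * eval x b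
  | sgn a => ((SignType.sign (eval x a) : SignType) : ℝ)

/-- The depth of a circuit. -/
def depth {n : ℕ} : Circ n → ℕ
  | const _ => 0
  | inp _ => 0
  | add a b => max (depth a) (depth b) + 1
  | sub a b => max (depth a) (depth b) + 1
  | mul a b => max (depth a) (depth b) + 1
  | sgn a => depth a + 1

end Circ

/-- Computation trees.  The list holds the values computed so far on the path, the latest first;
`u`, `v` are positions in it.  `test` has one subtree for each sign of the tested value. -/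
inductive Tree (n : ℕ) : Type
  | leaf : Bool → Tree n
  | const : ℝ → Tree n → Tree n
  | inp : Fin n → Tree n → Tree n
  | add : ℕ → ℕ → Tree n → Tree n
  | sub : ℕ → ℕ → Tree n → Tree n
  | mul : ℕ → ℕ → Tree n → Tree n
  | test : ℕ → Tree n → Tree n → Tree n → Tree n

namespace Tree

/-- The answer of a tree on the input `x`; `l` is the list of the values computed so far. -/
noncomputable def run {n : ℕ} (x : Fin n → ℝ) : Tree n → List ℝ → Bool
  | leaf b, _ => b
  | const r t, l => run x t (r :: l)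
  | inp i t, l => run x t (x i :: l)
  | add u v t, l => run x t ((l.getD u 0 + l.getD v 0) :: l)
  | sub u v t, l => run x t ((l.getD u 0 - l.getD v 0) :: l)
  | mul u v t, l => run x t ((l.getD u 0 * l.getD v 0) :: l)
  | test u a b c, l => match SignType.sign (l.getD u 0) with
    | SignType.neg => run x a l
    | SignType.zero => run x b l
    | SignType.pos => run x c l

/-- The maximal number of nodes on a path. -/
def depth {n : ℕ} : Tree n → ℕ
  | leaf _ => 1
  | const _ t => depth t + 1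
  | inp _ t => depth t + 1
  | add _ _ t => depth t + 1
  | sub _ _ t => depth t + 1
  | mul _ _ t => depth t + 1
  | test _ a b c => max (depth a) (max (depth b) (depth c)) + 1

end Tree

/-! ## Families of polynomials and of affine functions -/

/-- `x` and `y` have the same sign vector for `F`. -/
def SameP {n : ℕ} (F : Finset (MvPolynomial (Fin n) ℝ)) (x y : Fin n → ℝ) : Prop :=
  ∀ p ∈ F, SignType.sign (eval x p) = SignType.sign (eval y p)

/-- `S` is a union of sign classes of `F`. -/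
def Dets {n : ℕ} (F : Finset (MvPolynomial (Fin n) ℝ)) (S : Set (Fin n → ℝ)) : Prop :=
  ∀ x y, SameP F x y → (x ∈ S ↔ y ∈ S)

/-- Affine functions: coefficients and constant term. -/
abbrev Aff (n : ℕ) : Type := (Fin n → ℝ) × ℝ

/-- The value of an affine function. -/
def aev {n : ℕ} (a : Aff n) (x : Fin n → ℝ) : ℝ := ∑ i, a.1 i * x i + a.2

/-- `x` and `y` have the same sign vector for `A`. -/
def SameA {n : ℕ} (A : Finset (Aff n)) (x y : Fin n → ℝ) : Prop :=
  ∀ a ∈ A, SignType.sign (aev a x) = SignType.sign (aev a y)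

/-- `S` is a union of faces of the arrangement `A`. -/
def DetsA {n : ℕ} (A : Finset (Aff n)) (S : Set (Fin n → ℝ)) : Prop :=
  ∀ x y, SameA A x y → (x ∈ S ↔ y ∈ S)

/-! ## Bounds -/

/-- Bound for the number of sign vectors of `m` polynomials of degree at most `D`. -/
def RR (n m D : ℕ) : ℕ := (2 * ((n + 1) * (2 * m * D + 2)) ^ n) ^ n

/-- Bound for the number of polynomials that determine the sign of a circuit of depth `d`. -/
def MM (n d : ℕ) : ℕ := (2 ^ d + RR n (2 ^ d) (2 ^ d)) ^ d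

/-- Bound for the number of hyperplanes `x_l = a(x)` for one set `J` of coordinates. -/
def BB (n m D : ℕ) : ℕ := 2 * ((n + 2) * (2 * m * (D + 1) + 1)) ^ (n + 1) + m * D

/-- Bound for the size of the affine arrangement. -/
def NN (m D : ℕ) : ℕ → ℕ
  | 0 => 0
  | n + 1 => 2 ^ (n + 1) * BB (n + 1) m D * (1 + NN m D n)

/-- Size of the sample in the point location. -/
def GG (d N : ℕ) : ℕ := d + (Nat.log 2 (RR d N 1 ^ d) + 1)

/-- Number of tests of the point location. -/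
def LL (d N : ℕ) : ℕ := (Nat.log 2 N + 1) * (d * (GG d N + GG d N ^ 2))

/-! ## Rows: algebra -/

/-- Row DEP: algebraic dependence with a bound for the degree (linear algebra: monomials with
exponents at most `s`, values on the grid `{0, .., card τ * s * E} ^ σ`,
`MvPolynomial.eq_zero_of_eval_zero_at_prod_finset`). -/
def DepStatement : Prop :=
  ∀ (σ τ : Type) [Fintype σ] [Fintype τ] (E : ℕ) (g : τ → MvPolynomial σ ℝ),
    Fintype.card τ = Fintype.card σ + 1 → 1 ≤ E → (∀ i, (g i).totalDegree ≤ E) →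
    ∃ P : MvPolynomial τ ℝ, P ≠ 0 ∧
      (∀ i, P.degreeOf i ≤ (Fintype.card τ * E) ^ Fintype.card σ) ∧ bind₁ g P = 0

/-- Row SGN: representatives for all sign vectors. -/
def SgnStatement : Prop :=
  ∀ (n m D : ℕ) (F : Finset (MvPolynomial (Fin n) ℝ)), F.card ≤ m →
    (∀ p ∈ F, p.totalDegree ≤ D) →
    ∃ Z : Finset (Fin n → ℝ), Z.card ≤ RR n m D ∧ ∀ x, ∃ z ∈ Z, SameP F x z

/-- Row CIR: the sign of a circuit is determined by few polynomials. -/
def CirStatement : Prop :=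
  ∀ (n d : ℕ) (C : Circ n), C.depth ≤ d →
    ∃ F : Finset (MvPolynomial (Fin n) ℝ), F.card ≤ MM n d ∧ (∀ p ∈ F, p.totalDegree ≤ 2 ^ d) ∧
      ∀ x y, SameP F x y → (0 < C.eval x ↔ 0 < C.eval y)

/-! ## Rows: few flats -/

/-- Row TGT. -/
def TgtStatement : Prop :=
  ∀ (n : ℕ) (A : Finset (Aff n)) (S : Set (Fin n → ℝ)), DetsA A S → ∀ z ∈ frontier S,
    ∃ (I : Finset (Aff n)) (q : Fin n → ℝ) (r : ℝ), 0 < r ∧ q ∈ frontier S ∧
      (∀ a ∈ I, aev a z = 0) ∧ (∀ a ∈ I, aev a q = 0) ∧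
      (∀ x ∈ Metric.ball q r, x ∈ frontier S → ∀ a ∈ I, aev a x = 0) ∧
      ∀ x ∈ Metric.ball q r, ∀ y ∈ Metric.ball q r, SameA I x y → (x ∈ S ↔ y ∈ S)

/-- Row CRD: coordinates on a flat.  `lam i` involves only the coordinates in `J`. -/
def CrdStatement : Prop :=
  ∀ (n : ℕ) (I : Finset (Aff n)) (q : Fin n → ℝ), (∀ a ∈ I, aev a q = 0) →
    ∃ (J : Finset (Fin n)) (lam : Fin n → Aff n), (∀ i, ∀ j, j ∉ J → (lam i).1 j = 0) ∧
      ∀ x, (∀ a ∈ I, aev a x = 0) ↔ ∀ i, i ∉ J → x i = aev (lam i) x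

/-- Row ISO. -/
def IsoStatement : Prop :=
  ∀ (n : ℕ) (S : Set (Fin n → ℝ)) (I : Finset (Aff n)) (q : Fin n → ℝ) (r : ℝ)
    (J : Finset (Fin n)) (lam : Fin n → Aff n), 0 < r → q ∈ frontier S →
    (∀ a ∈ I, aev a q = 0) → (∀ x ∈ Metric.ball q r, x ∈ frontier S → ∀ a ∈ I, aev a x = 0) →
    (∀ x ∈ Metric.ball q r, ∀ y ∈ Metric.ball q r, SameA I x y → (x ∈ S ↔ y ∈ S)) →
    (∀ i, ∀ j, j ∉ J → (lam i).1 j = 0) →
    (∀ x, (∀ a ∈ I, aev a x = 0) ↔ ∀ i, i ∉ J → x i = aev (lam i) x) →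
    J ≠ Finset.univ ∧ ∃ r' : ℝ, 0 < r' ∧
      (∀ a ∈ Metric.ball q r', (∀ i, i ∉ J → a i = aev (lam i) a) → a ∈ frontier S) ∧
      (J.card + 2 ≤ n → ∀ a ∈ Metric.ball q r', ∀ x ∈ Metric.ball q r',
        (∀ i, i ∉ J → a i = aev (lam i) a) → (∀ i ∈ J, x i = a i) → x ≠ a → ¬(x ∈ S ↔ a ∈ S))

/-- The point `(c, ε)`. -/
def pt {n : ℕ} (c : Fin n → ℝ) (ε : ℝ) : Option (Fin n) → ℝ := fun o => o.elim ε c

/-- `G(x, ε) = ∏ (p(x)² - ε²)`. -/
noncomputable def GF {n : ℕ} (F : Finset (MvPolynomial (Fin n) ℝ)) :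
    MvPolynomial (Option (Fin n)) ℝ :=
  ∏ p ∈ F, ((rename some p) ^ 2 - X none ^ 2)

/-- Near `a`, in the fibre of the coordinates `J`, there are points where the derivatives of `G`
in the other directions are `± ε ^ (2 m + 1) w`. -/
def Crt {n : ℕ} (m : ℕ) (F : Finset (MvPolynomial (Fin n) ℝ)) (J : Finset (Fin n))
    (a : Fin n → ℝ) : Prop :=
  ∀ (w : Fin n → ℝ) (δ : ℝ), 0 < δ → ∃ (ε : ℝ) (c : Fin n → ℝ) (s : ℝ), 0 < ε ∧ ε < δ ∧
    dist c a < δ ∧ (∀ j ∈ J, c j = a j) ∧ (s = 1 ∨ s = -1) ∧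
    ∀ j, j ∉ J → eval (pt c ε) (pderiv (some j) (GF F)) = s * (ε ^ (2 * m + 1) * w j)

/-- Row CRT: existence of critical points. -/
def CrtStatement : Prop :=
  ∀ (n m : ℕ) (F : Finset (MvPolynomial (Fin n) ℝ)) (J : Finset (Fin n)) (a : Fin n → ℝ) (r : ℝ),
    F.card ≤ m → 0 < r →
    (∀ x ∈ Metric.ball a r, (∀ j ∈ J, x j = a j) → x ≠ a →
      ∃ p ∈ F, SignType.sign (eval x p) ≠ SignType.sign (eval a p)) → Crt m F J a

/-- Row ALG: all these points `a` lie on one hypersurface `Q(x_J, x_l) = 0`. -/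
def AlgStatement : Prop :=
  ∀ (n m D : ℕ) (F : Finset (MvPolynomial (Fin n) ℝ)) (J : Finset (Fin n)) (l : Fin n),
    F.card ≤ m → (∀ p ∈ F, p.totalDegree ≤ D) → l ∉ J →
    ∃ Q : MvPolynomial (Fin n) ℝ, Q ≠ 0 ∧
      Q.degreeOf l ≤ 2 * ((n + 2) * (2 * m * (D + 1) + 1)) ^ (n + 1) ∧
      (∀ x y, x l = y l → (∀ j ∈ J, x j = y j) → eval x Q = eval y Q) ∧
      ∀ a, Crt m F J a → eval a Q = 0

/-- Row RTS: the hyperplanes `x_l = a(x)` on which `Q` vanishes locally. -/
def RtsStatement : Prop :=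
  ∀ (n : ℕ) (Q : MvPolynomial (Fin n) ℝ) (l : Fin n) (Λ : Finset (Aff n)), Q ≠ 0 →
    (∀ a ∈ Λ, a.1 l = 0) →
    (∀ a ∈ Λ, ∃ (q : Fin n → ℝ) (r : ℝ), 0 < r ∧ q l = aev a q ∧
      ∀ x ∈ Metric.ball q r, x l = aev a x → eval x Q = 0) →
    Λ.card ≤ Q.degreeOf l

/-- Row COV: the frontier is covered by few hyperplanes. -/
def CovStatement : Prop :=
  ∀ (n m D : ℕ) (F : Finset (MvPolynomial (Fin n) ℝ)) (S : Set (Fin n → ℝ)), F.card ≤ m →
    (∀ p ∈ F, p.totalDegree ≤ D) → Dets F S → (∃ A : Finset (Aff n), DetsA A S) →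
    ∃ K : Finset (Fin n × Aff n), K.card ≤ 2 ^ n * BB n m D ∧ (∀ k ∈ K, k.2.1 k.1 = 0) ∧
      ∀ z ∈ frontier S, ∃ k ∈ K, z k.1 = aev k.2 z

/-- Row IND: few hyperplanes are enough. -/
def IndStatement : Prop :=
  ∀ (n m D : ℕ) (F : Finset (MvPolynomial (Fin n) ℝ)) (S : Set (Fin n → ℝ)), F.card ≤ m →
    (∀ p ∈ F, p.totalDegree ≤ D) → Dets F S → (∃ A : Finset (Aff n), DetsA A S) →
    ∃ A : Finset (Aff n), A.card ≤ NN m D n ∧ DetsA A S

/-! ## Rows: point location -/

/-- On `U`, the value of `f` is known after `k` tests of signs of functions in `T`. -/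
def Comp {X α : Type} (T : Set (X → ℝ)) (f : X → α) : ℕ → Set X → Prop
  | 0, U => ∀ x ∈ U, ∀ y ∈ U, f x = f y
  | k + 1, U => Comp T f k U ∨
      ∃ t ∈ T, ∀ s : SignType, Comp T f k {x | x ∈ U ∧ SignType.sign (t x) = s}

/-- Linear tests. -/
def LinT (d : ℕ) : Set ((Fin d → ℝ) → ℝ) := {t | ∃ g : Fin d → ℝ, t = fun x => ∑ i, g i * x i}

/-- Affine tests. -/
def AffT (n : ℕ) : Set ((Fin n → ℝ) → ℝ) := {t | ∃ a : Aff n, t = aev a}

/-- `x` is a combination of the members of the list with positive coefficients. -/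
def Pos {d : ℕ} : List (Fin d → ℝ) → (Fin d → ℝ) → Prop
  | [], x => x = 0
  | u :: l, x => ∃ t : ℝ, 0 < t ∧ Pos l (x - t • u)

/-- Row HIT: a small set that meets all large members of a family of sets. -/
def HitStatement : Prop :=
  ∀ (α : Type) (H : Finset α) (R : Finset (Finset α)),
    (∀ C ∈ R, C ⊆ H ∧ H.card < 2 * C.card) →
    ∃ T ⊆ H, T.card ≤ Nat.log 2 R.card + 1 ∧ ∀ C ∈ R, ∃ h ∈ T, h ∈ C

/-- Row RAY: ray shooting. -/
def RayStatement : Prop :=
  ∀ (d : ℕ) (G : Finset (Fin d → ℝ)),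
    (∀ x : Fin d → ℝ, (∀ g ∈ G, ∑ i, g i * x i = 0) → x = 0) →
    ∃ f : (Fin d → ℝ) → List (Fin d → ℝ),
      Comp (LinT d) f (d * (G.card + G.card ^ 2)) Set.univ ∧
      ∀ x, (f x).length ≤ d ∧ Pos (f x) x ∧
        ∀ g ∈ G, (∀ u ∈ f x, 0 ≤ ∑ i, g i * u i) ∨ ∀ u ∈ f x, ∑ i, g i * u i ≤ 0

/-- Row LOC: point location. -/
def LocStatement : Prop :=
  ∀ (d N : ℕ) (H : Finset (Fin d → ℝ)), H.card ≤ N →
    Comp (LinT d) (fun x => fun h : {h // h ∈ H} => SignType.sign (∑ i, h.1 i * x i)) (LL d N)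
      Set.univ

/-- Row TRE: from affine tests to computation trees. -/
def TreStatement : Prop :=
  ∀ (n k : ℕ) (f : (Fin n → ℝ) → Bool), Comp (AffT n) f k Set.univ →
    ∃ T : Tree n, T.depth ≤ k * (4 * n + 2) + 1 ∧ ∀ x, T.run x [] = f x

/-- Row NUM: the bounds are polynomial. -/
def NumStatement : Prop :=
  ∃ c : ℕ, ∀ n d : ℕ, LL (n + 1) (NN (MM n d) (2 ^ d) n) * (4 * n + 2) + 1 ≤ (n + d + 2) ^ c

/-- Row MAIN. -/
def MainStatement : Prop :=
  ∀ S : (n : ℕ) → Set (Fin n → ℝ),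
    (∃ p : Polynomial ℕ, ∀ n, ∃ C : Circ n, C.depth ≤ p.eval n ∧ ∀ x, x ∈ S n ↔ 0 < C.eval x) →
    (∀ n, ∃ A : Finset (Aff n), DetsA A (S n)) →
    ∃ q : Polynomial ℕ, ∀ n, ∃ T : Tree n, T.depth ≤ q.eval n ∧
      ∀ x, T.run x [] = true ↔ x ∈ S n

end MPB1C
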