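import Pool.Agent.Lib.MP_b1c768_lc.Defs

/-!
# MP_b1c768_lc, board SLB, row DEP

Algebraic dependence of `n + 1` polynomials in `n` variables with a bound for the degrees.
-/

set_option autoImplicit false

namespace MPB1C

open MvPolynomial

section

variable {σ τ : Type} [Fintype σ] [Fintype τ] [DecidableEq σ] [DecidableEq τ]

/-- The exponent vector of `e`. -/
noncomputable def dexp {s : ℕ} (e : τ → Fin (s + 1)) : τ →₀ ℕ :=
  Finsupp.equivFunOnFinite.symm (fun i => (e i : ℕ))

theorem dexp_apply {s : ℕ} (e : τ → Fin (s + 1)) (i : τ) : dexp e i = (e i : ℕ) := rfl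

theorem dexp_inj {s : ℕ} {e e' : τ → Fin (s + 1)} (h : dexp e = dexp e') : e = e' := by
  funext i
  have := DFunLike.congr_fun h i
  rw [dexp_apply, dexp_apply] at this
  exact Fin.ext this

/-- The linear map from coefficients to values on the grid. -/
noncomputable def dmap (g : τ → MvPolynomial σ ℝ) (s N : ℕ) :
    ((τ → Fin (s + 1)) → ℝ) →ₗ[ℝ] ((σ → Fin (N + 1)) → ℝ) where
  toFun c := fun x => ∑ e, c e * ∏ i, (eval (fun j => ((x j : ℕ) : ℝ)) (g i)) ^ (e i : ℕ)
  map_add' c c' := by
    funext x
    rw [Pi.add_apply, ← Finset.sum_add_distrib]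
    exact Finset.sum_congr rfl fun e _ => by rw [Pi.add_apply, add_mul]
  map_smul' t c := by
    funext x
    rw [Pi.smul_apply, smul_eq_mul, Finset.mul_sum]
    exact Finset.sum_congr rfl fun e _ => by
      rw [Pi.smul_apply, smul_eq_mul, RingHom.id_apply, mul_assoc]

/-- Row DEP. -/
theorem dep_aux (E : ℕ) (g : τ → MvPolynomial σ ℝ)
    (hc : Fintype.card τ = Fintype.card σ + 1) (hE : 1 ≤ E) (hg : ∀ i, (g i).totalDegree ≤ E) :
    ∃ P : MvPolynomial τ ℝ, P ≠ 0 ∧
      (∀ i, P.degreeOf i ≤ (Fintype.card τ * E) ^ Fintype.card σ) ∧ bind₁ g P = 0 := by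
  set n := Fintype.card σ with hn
  set s := (Fintype.card τ * E) ^ n with hs
  set N := Fintype.card τ * s * E with hN
  have hdim : Module.finrank ℝ ((σ → Fin (N + 1)) → ℝ) <
      Module.finrank ℝ ((τ → Fin (s + 1)) → ℝ) := by
    rw [Module.finrank_pi, Module.finrank_pi, Fintype.card_fun, Fintype.card_fun, Fintype.card_fin,
      Fintype.card_fin, ← hn, hc]
    have h0 : 1 ≤ Fintype.card τ * E := by
      have : 1 ≤ Fintype.card τ := by omega
      exact Nat.one_le_iff_ne_zero.2 (Nat.mul_ne_zero (by omega) (by omega))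
    have h1 : N + 1 ≤ (Fintype.card τ * E) * (s + 1) := by
      have : N = (Fintype.card τ * E) * s := by rw [hN]; ring
      rw [this]
      nlinarith
    calc (N + 1) ^ n ≤ ((Fintype.card τ * E) * (s + 1)) ^ n := Nat.pow_le_pow_left h1 n
      _ = s * (s + 1) ^ n := by rw [mul_pow]
      _ < (s + 1) * (s + 1) ^ n := by
        have : 0 < (s + 1) ^ n := Nat.pow_pos (Nat.succ_pos s)
        exact Nat.mul_lt_mul_of_pos_right (Nat.lt_succ_self s) this
      _ = (s + 1) ^ (n + 1) := by rw [pow_succ]; ring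
  obtain ⟨c, hcker, hc0⟩ := Submodule.exists_mem_ne_zero_of_ne_bot
    (LinearMap.ker_ne_bot_of_finrank_lt (f := dmap g s N) hdim)
  have hval : ∀ x : σ → Fin (N + 1),
      ∑ e, c e * ∏ i, (eval (fun j => ((x j : ℕ) : ℝ)) (g i)) ^ (e i : ℕ) = 0 := fun x =>
    congrFun (LinearMap.mem_ker.1 hcker) x
  let P : MvPolynomial τ ℝ := ∑ e : τ → Fin (s + 1), monomial (dexp e) (c e)
  have hcoeff : ∀ e : τ → Fin (s + 1), P.coeff (dexp e) = c e := by
    intro e
    simp only [P, coeff_sum, coeff_monomial]
    rw [Finset.sum_eq_single e]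
    · simp
    · intro e' _ hne
      rw [if_neg]
      exact fun h => hne (dexp_inj h)
    · simp
  have hbind : bind₁ g P = ∑ e : τ → Fin (s + 1), C (c e) * ∏ i, g i ^ (e i : ℕ) := by
    simp only [P, map_sum]
    refine Finset.sum_congr rfl fun e _ => ?_
    rw [bind₁_monomial]
    congr 1
    refine Finset.prod_subset (Finset.subset_univ _) fun i _ hi => ?_
    rw [Finsupp.notMem_support_iff.1 hi, pow_zero]
  refine ⟨P, ?_, ?_, ?_⟩
  · obtain ⟨e, he⟩ := Function.ne_iff.1 hc0
    intro h0
    apply he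
    rw [← hcoeff e, h0]
    simp
  · intro i
    rw [degreeOf_le_iff]
    intro m hm
    obtain ⟨e, _, he⟩ : ∃ e ∈ (Finset.univ : Finset (τ → Fin (s + 1))),
        m ∈ (monomial (dexp e) (c e)).support := by
      have := MvPolynomial.support_sum hm
      rwa [Finset.mem_biUnion] at this
    have h1 := support_monomial_subset he
    rw [Finset.mem_singleton] at h1
    rw [h1, dexp_apply]
    exact Nat.lt_succ_iff.1 (e i).2
  · refine eq_zero_of_eval_zero_at_prod_finset _
      (fun _ => Finset.univ.image (fun k : Fin (N + 1) => ((k : ℕ) : ℝ))) ?_ ?_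
    · intro j
      rw [Finset.card_image_of_injective _ (fun a b h => Fin.ext (by exact_mod_cast h)),
        Finset.card_univ, Fintype.card_fin]
      refine Nat.lt_succ_iff.2 ((degreeOf_le_totalDegree _ j).trans ?_)
      rw [hbind]
      refine (totalDegree_finsetSum _ _).trans (Finset.sup_le fun e _ => ?_)
      refine (totalDegree_mul _ _).trans ?_
      rw [totalDegree_C, zero_add]
      refine (totalDegree_finsetProd _ _).trans ?_
      calc ∑ i, (g i ^ (e i : ℕ)).totalDegree ≤ ∑ _i : τ, s * E := by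
            refine Finset.sum_le_sum fun i _ => (totalDegree_pow _ _).trans ?_
            exact Nat.mul_le_mul (Nat.lt_succ_iff.1 (e i).2) (hg i)
        _ = N := by rw [Finset.sum_const, Finset.card_univ, smul_eq_mul, hN]; ring
    · intro x hx
      have hx' : ∀ j, ∃ k : Fin (N + 1), ((k : ℕ) : ℝ) = x j := by
        intro j
        simpa using hx j
      choose y hy using hx'
      have hxy : x = fun j => ((y j : ℕ) : ℝ) := funext fun j => (hy j).symm
      rw [hbind, map_sum, hxy, ← hval y]
      refine Finset.sum_congr rfl fun e _ => ?_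
      rw [map_mul, eval_C, map_prod]
      simp only [map_pow]

end

/-- Row DEP. -/
theorem dep_proof : DepStatement := by
  intro σ τ _ _ E g hc hE hg
  classical exact dep_aux E g hc hE hg

end MPB1C
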