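import Pool.Agent.Lib.MP_b1c768_lc.Defs

/-!
# MP_b1c768_lc, board SLB: row HIT
-/

set_option autoImplicit false

namespace MPB1C

open Finset

/-- Some element lies in more than half of the sets. -/
theorem hit_step {α : Type} [DecidableEq α] (H : Finset α) (R : Finset (Finset α))
    (hR : R.Nonempty) (h : ∀ C ∈ R, C ⊆ H ∧ H.card < 2 * C.card) :
    ∃ x ∈ H, 2 * (R.filter (fun C => x ∉ C)).card < R.card := by
  by_contra hcon
  push Not at hcon
  have h1 : ∑ x ∈ H, (R.filter (fun C => x ∈ C)).card = ∑ C ∈ R, C.card := by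
    have e1 : ∀ x ∈ H, (R.filter (fun C => x ∈ C)).card = ∑ C ∈ R, if x ∈ C then 1 else 0 := by
      intro x _
      rw [card_filter]
    rw [sum_congr rfl e1, sum_comm]
    refine sum_congr rfl (fun C hC => ?_)
    rw [← card_filter]
    congr 1
    ext y
    rw [mem_filter]
    exact ⟨fun hy => hy.2, fun hy => ⟨(h C hC).1 hy, hy⟩⟩
  have h2 : ∀ x ∈ H, 2 * (R.filter (fun C => x ∈ C)).card ≤ R.card := by
    intro x hx
    have h3 := hcon x hx
    have h4 := card_filter_add_card_filter_not (s := R) (fun C => x ∈ C)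
    omega
  have h3 : 2 * ∑ x ∈ H, (R.filter (fun C => x ∈ C)).card ≤ H.card * R.card := by
    rw [mul_sum]
    calc ∑ x ∈ H, 2 * (R.filter (fun C => x ∈ C)).card ≤ ∑ _x ∈ H, R.card := sum_le_sum h2
      _ = H.card * R.card := by rw [sum_const, smul_eq_mul]
  have h4 : H.card * R.card < 2 * ∑ C ∈ R, C.card := by
    rw [mul_sum]
    calc H.card * R.card = ∑ _C ∈ R, H.card := by rw [sum_const, smul_eq_mul, mul_comm]
      _ < ∑ C ∈ R, 2 * C.card := sum_lt_sum_of_nonempty hR (fun C hC => (h C hC).2)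
  rw [h1] at h3
  omega

theorem hit_aux {α : Type} [DecidableEq α] (H : Finset α) : ∀ (k : ℕ) (R : Finset (Finset α)),
    R.card ≤ k → (∀ C ∈ R, C ⊆ H ∧ H.card < 2 * C.card) →
    ∃ T ⊆ H, T.card ≤ Nat.log 2 R.card + 1 ∧ ∀ C ∈ R, ∃ h ∈ T, h ∈ C := by
  intro k
  induction k with
  | zero =>
    intro R hk _
    have : R = ∅ := card_eq_zero.1 (Nat.le_zero.1 hk)
    subst this
    exact ⟨∅, empty_subset _, by simp, fun C hC => absurd hC (notMem_empty C)⟩
  | succ k ih =>
    intro R hk h
    rcases R.eq_empty_or_nonempty with rfl | hR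
    · exact ⟨∅, empty_subset _, by simp, fun C hC => absurd hC (notMem_empty C)⟩
    · obtain ⟨x, hxH, hx⟩ := hit_step H R hR h
      obtain ⟨T, hTH, hT, hT2⟩ := ih (R.filter (fun C => x ∉ C)) (by omega)
        (fun C hC => h C (mem_filter.1 hC).1)
      rcases (R.filter (fun C => x ∉ C)).eq_empty_or_nonempty with hE | hE
      · refine ⟨{x}, singleton_subset_iff.2 hxH, by simp, fun C hC => ⟨x, mem_singleton_self x, ?_⟩⟩
        by_contra hxC
        have : C ∈ R.filter (fun C => x ∉ C) := mem_filter.2 ⟨hC, hxC⟩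
        rw [hE] at this
        exact absurd this (notMem_empty C)
      · refine ⟨insert x T, insert_subset hxH hTH, ?_, fun C hC => ?_⟩
        · have h1 := card_insert_le x T
          have h2 : 1 ≤ (R.filter (fun C => x ∉ C)).card := card_pos.2 hE
          have h3 : Nat.log 2 ((R.filter (fun C => x ∉ C)).card * 2) =
              Nat.log 2 (R.filter (fun C => x ∉ C)).card + 1 :=
            Nat.log_mul_base (by norm_num) (by omega)
          have h4 : Nat.log 2 ((R.filter (fun C => x ∉ C)).card * 2) ≤ Nat.log 2 R.card :=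
            Nat.log_mono_right (by omega)
          omega
        · by_cases hxC : x ∈ C
          · exact ⟨x, mem_insert_self _ _, hxC⟩
          · obtain ⟨y, hy, hyC⟩ := hT2 C (mem_filter.2 ⟨hC, hxC⟩)
            exact ⟨y, mem_insert_of_mem hy, hyC⟩

theorem hit_proof : HitStatement := by
  classical
  intro α H R h
  exact hit_aux H R.card R le_rfl h

end MPB1C
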