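import Pool.Agent.Lib.MP_b1c768_lc.Defs

/-!
# MP_b1c768_lc, board SLB: row IND (helper30)
-/

set_option autoImplicit false

namespace MPB1C

open MvPolynomial

/-- Substituting polynomials of degree at most `1` does not increase the total degree. -/
theorem ind_totalDegree_bind {σ τ : Type} (g : σ → MvPolynomial τ ℝ)
    (hg : ∀ i, (g i).totalDegree ≤ 1) (p : MvPolynomial σ ℝ) :
    (bind₁ g p).totalDegree ≤ p.totalDegree := by
  classical
  have h1 : bind₁ g p = ∑ e ∈ p.support, C (p.coeff e) * ∏ i ∈ e.support, g i ^ e i := by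
    conv_lhs => rw [p.as_sum]
    rw [map_sum]
    refine Finset.sum_congr rfl (fun e _ => ?_)
    rw [bind₁_monomial]
  rw [h1]
  refine totalDegree_finsetSum_le (fun e he => ?_)
  refine (totalDegree_mul _ _).trans ?_
  rw [totalDegree_C, Nat.zero_add]
  refine (totalDegree_finsetProd _ _).trans ?_
  refine le_trans (Finset.sum_le_sum (fun i _ => ?_)) (le_totalDegree he)
  refine (totalDegree_pow _ _).trans ?_
  calc e i * (g i).totalDegree ≤ e i * 1 := Nat.mul_le_mul_left _ (hg i)
    _ = e i := Nat.mul_one _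

/-- The hyperplane `x_l = a(x)` as the image of `ℝ ^ n`. -/
def iphi {n : ℕ} (l : Fin (n + 1)) (a : Aff (n + 1)) (y : Fin n → ℝ) : Fin (n + 1) → ℝ :=
  l.insertNth (∑ j, a.1 (l.succAbove j) * y j + a.2) y

theorem iphi_self {n : ℕ} (l : Fin (n + 1)) (a : Aff (n + 1)) (y : Fin n → ℝ) :
    iphi l a y l = ∑ j, a.1 (l.succAbove j) * y j + a.2 := Fin.insertNth_apply_same _ _ _

theorem iphi_succ {n : ℕ} (l : Fin (n + 1)) (a : Aff (n + 1)) (y : Fin n → ℝ) (j : Fin n) :
    iphi l a y (l.succAbove j) = y j := Fin.insertNth_apply_succAbove _ _ _ _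

/-- A point of the hyperplane is the image of its projection. -/
theorem iphi_proj {n : ℕ} (l : Fin (n + 1)) (a : Aff (n + 1)) (ha : a.1 l = 0)
    (x : Fin (n + 1) → ℝ) (hx : x l = aev a x) :
    iphi l a (fun j => x (l.succAbove j)) = x := by
  funext i
  rcases Fin.eq_self_or_eq_succAbove l i with h | ⟨j, h⟩
  · rw [h, iphi_self, hx, aev, Fin.sum_univ_succAbove _ l, ha]
    ring
  · rw [h, iphi_succ]

/-- The polynomials that define `iphi`. -/
noncomputable def ipol {n : ℕ} (l : Fin (n + 1)) (a : Aff (n + 1)) :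
    Fin (n + 1) → MvPolynomial (Fin n) ℝ :=
  l.insertNth (∑ j, C (a.1 (l.succAbove j)) * X j + C a.2) X

theorem ipol_self {n : ℕ} (l : Fin (n + 1)) (a : Aff (n + 1)) :
    ipol l a l = ∑ j, C (a.1 (l.succAbove j)) * X j + C a.2 := Fin.insertNth_apply_same _ _ _

theorem ipol_succ {n : ℕ} (l : Fin (n + 1)) (a : Aff (n + 1)) (j : Fin n) :
    ipol l a (l.succAbove j) = X j := Fin.insertNth_apply_succAbove _ _ _ _

theorem ipol_deg {n : ℕ} (l : Fin (n + 1)) (a : Aff (n + 1)) (i : Fin (n + 1)) :
    (ipol l a i).totalDegree ≤ 1 := by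
  rcases Fin.eq_self_or_eq_succAbove l i with h | ⟨j, h⟩
  · rw [h, ipol_self]
    refine (totalDegree_add _ _).trans (max_le ?_ ?_)
    · refine totalDegree_finsetSum_le (fun j _ => ?_)
      refine (totalDegree_mul _ _).trans ?_
      rw [totalDegree_C, totalDegree_X]
    · rw [totalDegree_C]
      exact Nat.zero_le _
  · rw [h, ipol_succ, totalDegree_X]

theorem ipol_eval {n : ℕ} (l : Fin (n + 1)) (a : Aff (n + 1)) (y : Fin n → ℝ)
    (i : Fin (n + 1)) : eval y (ipol l a i) = iphi l a y i := by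
  rcases Fin.eq_self_or_eq_succAbove l i with h | ⟨j, h⟩
  · rw [h, ipol_self, iphi_self]
    simp
  · rw [h, ipol_succ, iphi_succ, eval_X]

theorem ipol_bind {n : ℕ} (l : Fin (n + 1)) (a : Aff (n + 1)) (y : Fin n → ℝ)
    (p : MvPolynomial (Fin (n + 1)) ℝ) : eval y (bind₁ (ipol l a) p) = eval (iphi l a y) p := by
  have h : (fun i => eval y (ipol l a i)) = iphi l a y := funext (ipol_eval l a y)
  rw [← h]
  have h2 := eval₂Hom_bind₁ (RingHom.id ℝ) y (ipol l a) p
  exact h2

/-- Restriction of an affine function to the hyperplane. -/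
def ires {n : ℕ} (l : Fin (n + 1)) (a b : Aff (n + 1)) : Aff n :=
  (fun j => b.1 (l.succAbove j) + b.1 l * a.1 (l.succAbove j), b.2 + b.1 l * a.2)

theorem ires_eval {n : ℕ} (l : Fin (n + 1)) (a b : Aff (n + 1)) (y : Fin n → ℝ) :
    aev (ires l a b) y = aev b (iphi l a y) := by
  rw [aev, aev, Fin.sum_univ_succAbove _ l, iphi_self]
  simp only [iphi_succ, ires]
  rw [show (∑ i, (b.1 (l.succAbove i) + b.1 l * a.1 (l.succAbove i)) * y i) =
    ∑ i, b.1 (l.succAbove i) * y i + b.1 l * ∑ i, a.1 (l.succAbove i) * y i by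
      rw [Finset.mul_sum, ← Finset.sum_add_distrib]
      exact Finset.sum_congr rfl (fun i _ => by ring)]
  ring

/-- Lift of an affine function from the hyperplane. -/
def ilift {n : ℕ} (l : Fin (n + 1)) (b : Aff n) : Aff (n + 1) := (l.insertNth 0 b.1, b.2)

theorem ilift_eval {n : ℕ} (l : Fin (n + 1)) (b : Aff n) (x : Fin (n + 1) → ℝ) :
    aev (ilift l b) x = aev b (fun j => x (l.succAbove j)) := by
  rw [aev, aev, Fin.sum_univ_succAbove _ l]
  simp only [ilift, Fin.insertNth_apply_same, Fin.insertNth_apply_succAbove]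
  ring

/-- The affine function `x_l - a(x)`. -/
def ihyp {n : ℕ} (l : Fin n) (a : Aff n) : Aff n :=
  (fun i => (if i = l then 1 else 0) - a.1 i, - a.2)

theorem ihyp_eval {n : ℕ} (l : Fin n) (a : Aff n) (x : Fin n → ℝ) :
    aev (ihyp l a) x = x l - aev a x := by
  simp only [aev, ihyp, sub_mul, Finset.sum_sub_distrib, ite_mul, one_mul, zero_mul,
    Finset.sum_ite_eq', Finset.mem_univ, if_true]
  ring

theorem aev_segment {n : ℕ} (a : Aff n) (x y : Fin n → ℝ) (s t : ℝ) (hst : s + t = 1) :
    aev a (s • x + t • y) = s * aev a x + t * aev a y := by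
  simp only [aev, Pi.add_apply, Pi.smul_apply, smul_eq_mul]
  rw [show (∑ i, a.1 i * (s * x i + t * y i)) = s * ∑ i, a.1 i * x i + t * ∑ i, a.1 i * y i by
    rw [Finset.mul_sum, Finset.mul_sum, ← Finset.sum_add_distrib]
    exact Finset.sum_congr rfl (fun i _ => by ring)]
  linear_combination (-a.2) * hst

theorem ind_seg {n : ℕ} (S : Set (Fin n → ℝ)) (x y : Fin n → ℝ)
    (h : ∀ z ∈ segment ℝ x y, z ∉ frontier S) : x ∈ S ↔ y ∈ S := by
  have h1 : segment ℝ x y ⊆ interior S ∪ interior Sᶜ := by
    intro z hz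
    rw [← compl_frontier_eq_union_interior]
    exact h z hz
  have h2 : Disjoint (interior S) (interior Sᶜ) :=
    Set.disjoint_of_subset interior_subset interior_subset disjoint_compl_right
  have h3 : IsPreconnected (segment ℝ x y) := (convex_segment x y).isPreconnected
  rcases h3.subset_or_subset isOpen_interior isOpen_interior h2 h1 with h4 | h4
  · exact iff_of_true (interior_subset (h4 (left_mem_segment ℝ x y)))
      (interior_subset (h4 (right_mem_segment ℝ x y)))
  · exact iff_of_false (interior_subset (h4 (left_mem_segment ℝ x y)))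
      (interior_subset (h4 (right_mem_segment ℝ x y)))

theorem sign_seg {a b s t : ℝ} (h : SignType.sign a = SignType.sign b) (ha : a ≠ 0)
    (hs : 0 ≤ s) (ht : 0 ≤ t) (hst : s + t = 1) : s * a + t * b ≠ 0 := by
  rcases lt_or_gt_of_ne ha with h1 | h1
  · have h2 : b < 0 := by
      rw [sign_neg h1] at h
      exact sign_eq_neg_one_iff.1 h.symm
    rcases hs.lt_or_eq with h3 | h3
    · nlinarith
    · have : t = 1 := by linarith
      subst this
      rw [← h3]
      linarith
  · have h2 : 0 < b := by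
      rw [sign_pos h1] at h
      exact sign_eq_one_iff.1 h.symm
    rcases hs.lt_or_eq with h3 | h3
    · nlinarith [mul_pos h3 h1, mul_nonneg ht h2.le]
    · have : t = 1 := by linarith
      subst this
      rw [← h3]
      linarith

theorem ind_proof (h : CovStatement) : IndStatement := by
  classical
  intro n
  induction n with
  | zero =>
    intro m D F S _ _ _ _
    refine ⟨∅, by simp [NN], fun x y _ => ?_⟩
    rw [Subsingleton.elim x y]
  | succ n ih =>
    intro m D F S hF1 hF2 hF3 hS
    obtain ⟨A₀, hA₀⟩ := hS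
    obtain ⟨K, hK1, hK2, hK3⟩ := h (n + 1) m D F S hF1 hF2 hF3 ⟨A₀, hA₀⟩
    -- the restrictions
    have hres : ∀ k : Fin (n + 1) × Aff (n + 1), ∃ A : Finset (Aff n), A.card ≤ NN m D n ∧
        DetsA A (iphi k.1 k.2 ⁻¹' S) := by
      intro k
      refine ih m D (F.image (bind₁ (ipol k.1 k.2))) (iphi k.1 k.2 ⁻¹' S)
        (Finset.card_image_le.trans hF1) ?_ ?_ ⟨A₀.image (ires k.1 k.2), ?_⟩
      · intro p hp
        obtain ⟨p', hp', rfl⟩ := Finset.mem_image.1 hp
        exact (ind_totalDegree_bind _ (ipol_deg k.1 k.2) p').trans (hF2 p' hp')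
      · intro x y hxy
        refine hF3 _ _ (fun p hp => ?_)
        have h1 := hxy _ (Finset.mem_image_of_mem _ hp)
        rwa [ipol_bind, ipol_bind] at h1
      · intro x y hxy
        refine hA₀ _ _ (fun b hb => ?_)
        have h1 := hxy _ (Finset.mem_image_of_mem _ hb)
        rwa [ires_eval, ires_eval] at h1
    choose B hB1 hB2 using hres
    refine ⟨K.biUnion (fun k => insert (ihyp k.1 k.2) ((B k).image (ilift k.1))), ?_, ?_⟩
    · refine (Finset.card_biUnion_le_card_mul _ _ (1 + NN m D n) (fun k _ => ?_)).trans ?_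
      · refine (Finset.card_insert_le _ _).trans ?_
        rw [Nat.add_comm]
        exact Nat.add_le_add_left (Finset.card_image_le.trans (hB1 k)) 1
      · rw [NN]
        exact Nat.mul_le_mul_right _ hK1
    · intro x y hxy
      have hxy' : ∀ k ∈ K, ∀ b, b = ihyp k.1 k.2 ∨ b ∈ (B k).image (ilift k.1) →
          SignType.sign (aev b x) = SignType.sign (aev b y) := by
        intro k hk b hb
        exact hxy b (Finset.mem_biUnion.2 ⟨k, hk, Finset.mem_insert.2 hb⟩)
      by_cases hc : ∃ k ∈ K, aev (ihyp k.1 k.2) x = 0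
      · obtain ⟨k, hk, h0⟩ := hc
        have h1 := hxy' k hk _ (Or.inl rfl)
        have h2 : aev (ihyp k.1 k.2) y = 0 := by
          rw [h0, sign_zero] at h1
          exact sign_eq_zero_iff.1 h1.symm
        rw [ihyp_eval] at h0 h2
        have h3 := iphi_proj k.1 k.2 (hK2 k hk) x (by linarith)
        have h4 := iphi_proj k.1 k.2 (hK2 k hk) y (by linarith)
        have h5 := hB2 k (fun j => x (k.1.succAbove j)) (fun j => y (k.1.succAbove j)) ?_
        · rw [Set.mem_preimage, Set.mem_preimage, h3, h4] at h5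
          exact h5
        · intro b hb
          have h6 := hxy' k hk _ (Or.inr (Finset.mem_image_of_mem _ hb))
          rwa [ilift_eval, ilift_eval] at h6
      · refine ind_seg S x y (fun z hz hzf => ?_)
        obtain ⟨k, hk, hkz⟩ := hK3 z hzf
        obtain ⟨s, t, hs, ht, hst, rfl⟩ := hz
        have h1 : aev (ihyp k.1 k.2) (s • x + t • y) = 0 := by
          rw [ihyp_eval, hkz, sub_self]
        rw [aev_segment _ _ _ _ _ hst] at h1
        exact sign_seg (hxy' k hk _ (Or.inl rfl)) (fun h0 => hc ⟨k, hk, h0⟩) hs ht hst h1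

end MPB1C
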