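import Pool.Agent.Lib.MP_b1c768_lc.Defs

/-!
# MP_b1c768_lc, board SLB: row ISO (helper16)
-/

set_option autoImplicit false

namespace MPB1C

open Filter Topology

theorem iso_frontier {X : Type} [TopologicalSpace X] {S t : Set X} (ht : IsPreconnected t)
    (h : ∀ z ∈ t, z ∉ frontier S) {x y : X} (hx : x ∈ t) (hy : y ∈ t) (hxS : x ∈ S) : y ∈ S := by
  by_contra hyS
  have hcov : t ⊆ interior S ∪ (closure S)ᶜ := by
    intro z hz
    by_cases h1 : z ∈ closure S
    · left
      by_contra h2
      exact h z hz ⟨h1, h2⟩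
    · exact Or.inr h1
  have hx' : (t ∩ interior S).Nonempty := by
    refine ⟨x, hx, ?_⟩
    by_contra h2
    exact h x hx ⟨subset_closure hxS, h2⟩
  have hy' : (t ∩ (closure S)ᶜ).Nonempty := by
    refine ⟨y, hy, fun h1 => h y hy ⟨h1, fun h2 => hyS (interior_subset h2)⟩⟩
  obtain ⟨z, _, hz1, hz2⟩ := ht _ _ isOpen_interior isClosed_closure.isOpen_compl hcov hx' hy'
  exact hz2 (subset_closure (interior_subset hz1))

theorem iso_fr {n : ℕ} {S : Set (Fin n → ℝ)} {q : Fin n → ℝ} :
    q ∈ frontier S ↔ ∀ ρ : ℝ, 0 < ρ →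
      (∃ v : Fin n → ℝ, ‖v‖ < ρ ∧ q + v ∈ S) ∧ ∃ v : Fin n → ℝ, ‖v‖ < ρ ∧ q + v ∉ S := by
  rw [frontier_eq_closure_inter_closure, Set.mem_inter_iff, Metric.mem_closure_iff,
    Metric.mem_closure_iff]
  constructor
  · rintro ⟨h1, h2⟩ ρ hρ
    obtain ⟨x, hx, hx'⟩ := h1 ρ hρ
    obtain ⟨y, hy, hy'⟩ := h2 ρ hρ
    refine ⟨⟨x - q, ?_, by rwa [add_sub_cancel]⟩, ⟨y - q, ?_, by rw [add_sub_cancel]; exact hy⟩⟩
    · rwa [← dist_eq_norm, dist_comm]
    · rwa [← dist_eq_norm, dist_comm]
  · intro h
    refine ⟨fun ρ hρ => ?_, fun ρ hρ => ?_⟩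
    · obtain ⟨v, hv, hvS⟩ := (h ρ hρ).1
      exact ⟨q + v, hvS, by rwa [dist_self_add_right]⟩
    · obtain ⟨v, hv, hvS⟩ := (h ρ hρ).2
      exact ⟨q + v, hvS, by rwa [dist_self_add_right]⟩

theorem iso_add {n : ℕ} (a : Aff n) (x v : Fin n → ℝ) :
    aev a (x + v) = aev a x + ∑ i, a.1 i * v i := by
  unfold aev
  simp only [Pi.add_apply, mul_add, Finset.sum_add_distrib]
  ring

theorem iso_proof : IsoStatement := by
  classical
  intro n S I q r J lam hr hq hIq hfr hsame hlam hL
  -- translations along the flat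
  have htr : ∀ a b v : Fin n → ℝ, (∀ c ∈ I, aev c a = 0) → (∀ c ∈ I, aev c b = 0) →
      dist (a + v) q < r → dist (b + v) q < r → (a + v ∈ S ↔ b + v ∈ S) := by
    intro a b v ha hb h1 h2
    refine hsame _ h1 _ h2 (fun c hc => ?_)
    rw [iso_add, iso_add, ha c hc, hb c hc]
  have hqv : ∀ v : Fin n → ℝ, ‖v‖ < r → dist (q + v) q < r := by
    intro v hv
    rwa [dist_self_add_left]
  refine ⟨?_, r / 2, half_pos hr, ?_, ?_⟩
  · rintro rfl
    obtain ⟨⟨v, hv, hvS⟩, ⟨w, hw, hwS⟩⟩ := iso_fr.1 hq r hr
    have h1 : ∀ x, ∀ a ∈ I, aev a x = 0 := fun x =>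
      (hL x).2 (fun i hi => absurd (Finset.mem_univ i) hi)
    refine hwS ((hsame _ (hqv v hv) _ (hqv w hw) (fun c hc => ?_)).1 hvS)
    rw [h1 _ c hc, h1 _ c hc]
  · intro a ha haL
    have haI := (hL a).2 haL
    have haq : dist a q < r / 2 := ha
    refine iso_fr.2 (fun ρ hρ => ?_)
    obtain ⟨⟨v, hv, hvS⟩, ⟨w, hw, hwS⟩⟩ := iso_fr.1 hq (min ρ (r / 2)) (lt_min hρ (half_pos hr))
    have hav : ∀ v : Fin n → ℝ, ‖v‖ < min ρ (r / 2) → dist (a + v) q < r ∧ dist (q + v) q < r := by
      intro v hv
      have h1 : ‖v‖ < r / 2 := hv.trans_le (min_le_right _ _)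
      refine ⟨?_, hqv v (by linarith)⟩
      calc dist (a + v) q ≤ dist (a + v) a + dist a q := dist_triangle _ _ _
        _ = ‖v‖ + dist a q := by rw [dist_self_add_left]
        _ < r := by linarith
    refine ⟨⟨v, hv.trans_le (min_le_left _ _), ?_⟩, ⟨w, hw.trans_le (min_le_left _ _), ?_⟩⟩
    · exact (htr a q v haI hIq (hav v hv).1 (hav v hv).2).2 hvS
    · exact fun h => hwS ((htr a q w haI hIq (hav w hw).1 (hav w hw).2).1 h)
  · intro hJ
    -- an affine function supported on `J` does not see `v`
    have hsup : ∀ i (v : Fin n → ℝ), (∀ j ∈ J, v j = 0) → ∑ j, (lam i).1 j * v j = 0 := by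
      intro i v hv
      refine Finset.sum_eq_zero (fun j _ => ?_)
      by_cases hj : j ∈ J
      · rw [hv j hj, mul_zero]
      · rw [hlam i j hj, zero_mul]
    have hoff : ∀ v : Fin n → ℝ, (∀ j ∈ J, v j = 0) → v ≠ 0 → ‖v‖ < r → q + v ∉ frontier S := by
      intro v hv hv0 hvr hmem
      have h1 := (hL (q + v)).1 (hfr _ (hqv v hvr) hmem)
      have h2 := (hL q).1 hIq
      apply hv0
      funext i
      by_cases hi : i ∈ J
      · exact hv i hi
      · have h3 := h1 i hi
        rw [iso_add, hsup i v hv, add_zero, ← h2 i hi] at h3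
        simpa using h3
    have hstep : ∀ v w : Fin n → ℝ, (∀ j ∈ J, v j = 0) → (∀ j ∈ J, w j = 0) → ‖v‖ < r → ‖w‖ < r →
        (∀ s t : ℝ, s • v + t • w = 0 → s = 0 ∧ t = 0) → q + v ∈ S → q + w ∈ S := by
      intro v w hv hw hvr hwr hind hvS
      refine iso_frontier (convex_segment (q + v) (q + w)).isPreconnected (fun z hz => ?_)
        (left_mem_segment ℝ _ _) (right_mem_segment ℝ _ _) hvS
      obtain ⟨s, t, hs, ht, hst, rfl⟩ := hz
      have e : s • (q + v) + t • (q + w) = q + (s • v + t • w) := by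
        rw [smul_add, smul_add]
        have : q = s • q + t • q := by rw [← add_smul, hst, one_smul]
        nth_rewrite 3 [this]
        abel
      rw [e]
      refine hoff _ (fun j hj => ?_) (fun h0 => ?_) ?_
      · simp [hv j hj, hw j hj]
      · obtain ⟨h1, h2⟩ := hind s t h0
        rw [h1, h2] at hst
        norm_num at hst
      · have h1 : v ∈ Metric.ball (0 : Fin n → ℝ) r := by simpa using hvr
        have h2 : w ∈ Metric.ball (0 : Fin n → ℝ) r := by simpa using hwr
        have h3 := convex_ball (0 : Fin n → ℝ) r h1 h2 hs ht hst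
        simpa using h3
    -- two coordinates outside `J`
    obtain ⟨i1, hi1, i2, hi2, hi12⟩ : ∃ i1, i1 ∉ J ∧ ∃ i2, i2 ∉ J ∧ i1 ≠ i2 := by
      have h1 : 1 < (Finset.univ \ J).card := by
        rw [Finset.card_sdiff_of_subset (Finset.subset_univ J), Finset.card_univ, Fintype.card_fin]
        omega
      obtain ⟨i1, h2, i2, h3, h4⟩ := Finset.one_lt_card.1 h1
      exact ⟨i1, (Finset.mem_sdiff.1 h2).2, i2, (Finset.mem_sdiff.1 h3).2, h4⟩
    have hsingle : ∀ i, i ∉ J → (∀ j ∈ J, (Pi.single i (r / 2) : Fin n → ℝ) j = 0) ∧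
        ‖(Pi.single i (r / 2) : Fin n → ℝ)‖ < r := by
      intro i hi
      refine ⟨fun j hj => ?_, ?_⟩
      · rw [Pi.single_eq_of_ne]
        rintro rfl
        exact hi hj
      · rw [Pi.norm_single, Real.norm_eq_abs, abs_of_pos (half_pos hr)]
        exact half_lt_self hr
    have hexw : ∀ v : Fin n → ℝ, v ≠ 0 → ∃ w : Fin n → ℝ, (∀ j ∈ J, w j = 0) ∧ ‖w‖ < r ∧
        ∀ s t : ℝ, s • v + t • w = 0 → s = 0 ∧ t = 0 := by
      intro v hv
      by_cases hk : ∃ k, k ≠ i1 ∧ v k ≠ 0
      · obtain ⟨k, hk1, hk2⟩ := hk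
        refine ⟨Pi.single i1 (r / 2), (hsingle i1 hi1).1, (hsingle i1 hi1).2, fun s t hst => ?_⟩
        have h1 := congrFun hst k
        simp only [Pi.add_apply, Pi.smul_apply, smul_eq_mul, Pi.zero_apply,
          Pi.single_eq_of_ne hk1, mul_zero, add_zero] at h1
        have hs : s = 0 := (mul_eq_zero.1 h1).resolve_right hk2
        have h2 := congrFun hst i1
        simp only [Pi.add_apply, Pi.smul_apply, smul_eq_mul, Pi.zero_apply, hs, zero_mul,
          Pi.single_eq_same, zero_add] at h2
        exact ⟨hs, (mul_eq_zero.1 h2).resolve_right (half_pos hr).ne'⟩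
      · have hv1 : ∀ k, k ≠ i1 → v k = 0 := by
          intro k hk1
          by_contra h
          exact hk ⟨k, hk1, h⟩
        have hvi : v i1 ≠ 0 := by
          intro h
          apply hv
          funext k
          by_cases hk1 : k = i1
          · rw [hk1, h]
            rfl
          · exact hv1 k hk1
        refine ⟨Pi.single i2 (r / 2), (hsingle i2 hi2).1, (hsingle i2 hi2).2, fun s t hst => ?_⟩
        have h1 := congrFun hst i1
        simp only [Pi.add_apply, Pi.smul_apply, smul_eq_mul, Pi.zero_apply,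
          Pi.single_eq_of_ne hi12, mul_zero, add_zero] at h1
        have hs : s = 0 := (mul_eq_zero.1 h1).resolve_right hvi
        have h2 := congrFun hst i2
        simp only [Pi.add_apply, Pi.smul_apply, smul_eq_mul, Pi.zero_apply, hs, zero_mul,
          Pi.single_eq_same, zero_add] at h2
        exact ⟨hs, (mul_eq_zero.1 h2).resolve_right (half_pos hr).ne'⟩
    have hind_symm : ∀ v w : Fin n → ℝ, (∀ s t : ℝ, s • v + t • w = 0 → s = 0 ∧ t = 0) →
        ∀ s t : ℝ, s • w + t • v = 0 → s = 0 ∧ t = 0 := by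
      intro v w h s t hst
      rw [add_comm] at hst
      exact (h t s hst).symm
    have hone : ∀ v w : Fin n → ℝ, (∀ j ∈ J, v j = 0) → (∀ j ∈ J, w j = 0) → v ≠ 0 → w ≠ 0 →
        ‖v‖ < r → ‖w‖ < r → q + v ∈ S → q + w ∈ S := by
      intro v w hv hw hv0 hw0 hvr hwr hvS
      by_cases hind : ∀ s t : ℝ, s • v + t • w = 0 → s = 0 ∧ t = 0
      · exact hstep v w hv hw hvr hwr hind hvS
      · push_neg at hind
        obtain ⟨s, t, hst, hst'⟩ := hind
        have hs : s ≠ 0 := by
          intro hs
          rw [hs, zero_smul, zero_add] at hst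
          rcases smul_eq_zero.1 hst with h | h
          · exact hst' hs h
          · exact hw0 h
        have ht : t ≠ 0 := by
          intro ht
          rw [ht, zero_smul, add_zero] at hst
          rcases smul_eq_zero.1 hst with h | h
          · exact hs h
          · exact hv0 h
        obtain ⟨u, hu1, hu2, hu3⟩ := hexw v hv0
        refine hstep u w hu1 hw hu2 hwr ?_ (hstep v u hv hu1 hvr hu2 hu3 hvS)
        refine hind_symm w u (fun a b hab => ?_)
        have hw' : w = (-(s / t)) • v := by
          have h1 : t • w = (-s) • v := by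
            rw [neg_smul]
            exact eq_neg_of_add_eq_zero_right hst
          calc w = t⁻¹ • (t • w) := by rw [smul_smul, inv_mul_cancel₀ ht, one_smul]
            _ = (-(s / t)) • v := by
              rw [h1, smul_smul]
              congr 1
              field_simp
        rw [hw', smul_smul] at hab
        obtain ⟨h1, h2⟩ := hu3 _ _ hab
        refine ⟨?_, h2⟩
        rcases mul_eq_zero.1 h1 with h | h
        · exact h
        · exact absurd h (neg_ne_zero.2 (div_ne_zero hs ht))
    -- the fibre over `q`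
    have hfib : ∀ v : Fin n → ℝ, (∀ j ∈ J, v j = 0) → v ≠ 0 → ‖v‖ < r → ¬(q + v ∈ S ↔ q ∈ S) := by
      intro v0 hv0 hv0' hv0r hiff
      have hall : ∀ v : Fin n → ℝ, (∀ j ∈ J, v j = 0) → ‖v‖ < r → (q + v ∈ S ↔ q ∈ S) := by
        intro v hv hvr
        by_cases h0 : v = 0
        · rw [h0, add_zero]
        · rw [← hiff]
          exact ⟨hone v v0 hv hv0 h0 hv0' hvr hv0r, hone v0 v hv0 hv hv0' h0 hv0r hvr⟩
      -- the point of the flat over `y`
      let π : (Fin n → ℝ) → (Fin n → ℝ) := fun y i => if i ∈ J then y i else aev (lam i) y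
      have hπc : Continuous π := by
        refine continuous_pi (fun i => ?_)
        by_cases hi : i ∈ J
        · simp only [π, hi, if_true]
          exact continuous_apply i
        · simp only [π, hi, if_false]
          unfold aev
          exact (continuous_finsetSum _ (fun j _ =>
            continuous_const.mul (continuous_apply j))).add continuous_const
      have hπq : π q = q := by
        funext i
        by_cases hi : i ∈ J
        · simp only [π, hi, if_true]
        · simp only [π, hi, if_false]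
          exact ((hL q).1 hIq i hi).symm
      have hπL : ∀ y, ∀ a ∈ I, aev a (π y) = 0 := by
        intro y
        rw [hL (π y)]
        intro i hi
        have h1 : aev (lam i) (π y) = aev (lam i) y := by
          unfold aev
          congr 1
          refine Finset.sum_congr rfl (fun j _ => ?_)
          by_cases hj : j ∈ J
          · simp only [π, hj, if_true]
          · rw [hlam i j hj, zero_mul, zero_mul]
        rw [h1]
        simp only [π, hi, if_false]
      have hev : ∀ᶠ y in 𝓝 q, dist (π y) q < r / 2 := by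
        have hc : Continuous (fun y => dist (π y) q) := hπc.dist continuous_const
        refine hc.continuousAt.eventually_lt_const ?_
        change dist (π q) q < r / 2
        rw [hπq, dist_self]
        exact half_pos hr
      obtain ⟨ρ, hρ, hρ'⟩ := Metric.eventually_nhds_iff_ball.1 hev
      have hcon : ∀ v : Fin n → ℝ, ‖v‖ < min ρ (r / 2) → (q + v ∈ S ↔ q ∈ S) := by
        intro v hv
        have h1 : ‖v‖ < r / 2 := hv.trans_le (min_le_right _ _)
        have h2 : dist (π (q + v)) q < r / 2 := by
          refine hρ' _ ?_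
          rw [Metric.mem_ball, dist_self_add_left]
          exact hv.trans_le (min_le_left _ _)
        set w := q + v - π (q + v) with hw
        have hw1 : ∀ j ∈ J, w j = 0 := by
          intro j hj
          simp only [hw, Pi.sub_apply, π, hj, if_true, sub_self]
        have hw2 : ‖w‖ < r := by
          calc ‖w‖ = dist (q + v) (π (q + v)) := by rw [hw, dist_eq_norm]
            _ ≤ dist (q + v) q + dist q (π (q + v)) := dist_triangle _ _ _
            _ = ‖v‖ + dist (π (q + v)) q := by rw [dist_self_add_left, dist_comm q]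
            _ < r := by linarith
        have h3 : π (q + v) + w = q + v := by rw [hw]; abel
        have h4 : dist (π (q + v) + w) q < r := by
          rw [h3, dist_self_add_left]
          linarith
        have h5 := htr (π (q + v)) q w (hπL _) hIq h4 (hqv w hw2)
        rw [h3] at h5
        rw [h5]
        exact hall w hw1 hw2
      obtain ⟨⟨v, hv, hvS⟩, ⟨w, hw, hwS⟩⟩ :=
        iso_fr.1 hq (min ρ (r / 2)) (lt_min hρ (half_pos hr))
      exact hwS ((hcon w hw).2 ((hcon v hv).1 hvS))
    intro a ha x hx haL hxa hne hiff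
    have haq : dist a q < r / 2 := ha
    have hxq : dist x q < r / 2 := hx
    have haI := (hL a).2 haL
    have hv : ∀ j ∈ J, (x - a) j = 0 := by
      intro j hj
      rw [Pi.sub_apply, hxa j hj, sub_self]
    have hvr : ‖x - a‖ < r := by
      calc ‖x - a‖ = dist x a := (dist_eq_norm _ _).symm
        _ ≤ dist x q + dist q a := dist_triangle _ _ _
        _ = dist x q + dist a q := by rw [dist_comm q a]
        _ < r := by linarith
    refine hfib (x - a) hv (sub_ne_zero.2 hne) hvr ?_
    have h1 : a + (x - a) = x := by abel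
    have h2 := htr a q (x - a) haI hIq (by rw [h1]; linarith) (hqv _ hvr)
    rw [h1] at h2
    have h3 := htr a q 0 haI hIq (by rw [add_zero]; linarith) (hqv 0 (by rwa [norm_zero]))
    rw [add_zero, add_zero] at h3
    rw [← h2, ← h3]
    exact hiff

end MPB1C
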