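import Pool.Agent.Lib.MP_b1c768_lc.Comp

/-!
# MP_b1c768_lc, board SLB: row LOC (point location)
-/

set_option autoImplicit false

namespace MPB1C

open Finset

namespace LocRow

/-- The pairing. -/
noncomputable def ldt {d : ℕ} (g x : Fin d → ℝ) : ℝ := ∑ i, g i * x i

theorem ldt_zero {d : ℕ} (g : Fin d → ℝ) : ldt g 0 = 0 := by simp [ldt]

theorem ldt_sub_smul {d : ℕ} (g x u : Fin d → ℝ) (t : ℝ) :
    ldt g x = ldt g (x - t • u) + t * ldt g u := by
  simp only [ldt, Pi.sub_apply, Pi.smul_apply, smul_eq_mul, mul_sub, sum_sub_distrib, mul_sum]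
  have : ∀ i, g i * (t * u i) = t * (g i * u i) := fun i => by ring
  simp only [this]
  ring

theorem ldt_neg {d : ℕ} (g x : Fin d → ℝ) : ldt (-g) x = - ldt g x := by
  simp [ldt]

/-- A positive combination of vectors on which `h` is nonnegative. -/
theorem pos_nonneg {d : ℕ} (h : Fin d → ℝ) : ∀ (l : List (Fin d → ℝ)) (x : Fin d → ℝ), Pos l x →
    (∀ u ∈ l, 0 ≤ ldt h u) → 0 ≤ ldt h x ∧ (0 < ldt h x ↔ ∃ u ∈ l, 0 < ldt h u) := by
  intro l
  induction l with
  | nil =>
    intro x hx _
    have hx0 : x = 0 := hx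
    rw [hx0, ldt_zero]
    simp
  | cons u l ih =>
    intro x hx hu
    obtain ⟨t, ht, hx'⟩ := hx
    obtain ⟨h1, h2⟩ := ih _ hx' (fun v hv => hu v (List.mem_cons_of_mem _ hv))
    have h3 : 0 ≤ ldt h u := hu u List.mem_cons_self
    rw [ldt_sub_smul h x u t]
    refine ⟨by positivity, ?_⟩
    constructor
    · intro hlt
      rcases h3.lt_or_eq with h4 | h4
      · exact ⟨u, List.mem_cons_self, h4⟩
      · rw [← h4, mul_zero, add_zero] at hlt
        obtain ⟨v, hv, hv'⟩ := h2.1 hlt
        exact ⟨v, List.mem_cons_of_mem _ hv, hv'⟩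
    · rintro ⟨v, hv, hv'⟩
      rcases List.mem_cons.1 hv with rfl | hv
      · have := mul_pos ht hv'
        linarith
      · have h5 := h2.2 ⟨v, hv, hv'⟩
        have := mul_nonneg ht.le h3
        linarith

/-- The sign of `h` at a positive combination is known unless `h` is crossing. -/
theorem sign_pos_comb {d : ℕ} (h : Fin d → ℝ) (l : List (Fin d → ℝ)) (x y : Fin d → ℝ)
    (hx : Pos l x) (hy : Pos l y) (hc : (∀ u ∈ l, 0 ≤ ldt h u) ∨ ∀ u ∈ l, ldt h u ≤ 0) :
    SignType.sign (ldt h x) = SignType.sign (ldt h y) := by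
  rcases hc with hc | hc
  · obtain ⟨h1, h2⟩ := pos_nonneg h l x hx hc
    obtain ⟨h3, h4⟩ := pos_nonneg h l y hy hc
    rcases h1.lt_or_eq with h5 | h5
    · have h6 := h4.2 (h2.1 h5)
      rw [sign_pos h5, sign_pos h6]
    · rcases h3.lt_or_eq with h7 | h7
      · have := h2.2 (h4.1 h7)
        rw [← h5] at this
        exact absurd this (lt_irrefl _)
      · rw [← h5, ← h7]
  · have hc' : ∀ u ∈ l, 0 ≤ ldt (-h) u := by
      intro u hu
      rw [ldt_neg]
      have := hc u hu
      linarith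
    obtain ⟨h1, h2⟩ := pos_nonneg (-h) l x hx hc'
    obtain ⟨h3, h4⟩ := pos_nonneg (-h) l y hy hc'
    rcases h1.lt_or_eq with h5 | h5
    · have h6 := h4.2 (h2.1 h5)
      rw [ldt_neg] at h5 h6
      have h5' : ldt h x < 0 := by linarith
      have h6' : ldt h y < 0 := by linarith
      rw [sign_neg h5', sign_neg h6']
    · rcases h3.lt_or_eq with h7 | h7
      · have := h2.2 (h4.1 h7)
        rw [← h5] at this
        exact absurd this (lt_irrefl _)
      · rw [ldt_neg] at h5 h7
        have h5' : ldt h x = 0 := by linarith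
        have h7' : ldt h y = 0 := by linarith
        rw [h5', h7']

/-- The linear form of a vector. -/
noncomputable def lfm {d : ℕ} (h : Fin d → ℝ) : MvPolynomial (Fin d) ℝ :=
  ∑ i, MvPolynomial.C (h i) * MvPolynomial.X i

theorem eval_lfm {d : ℕ} (h x : Fin d → ℝ) : MvPolynomial.eval x (lfm h) = ldt h x := by
  simp [lfm, ldt]

theorem deg_lfm {d : ℕ} (h : Fin d → ℝ) : (lfm h).totalDegree ≤ 1 := by
  refine (MvPolynomial.totalDegree_finsetSum _ _).trans (Finset.sup_le (fun i _ => ?_))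
  refine (MvPolynomial.totalDegree_mul _ _).trans ?_
  rw [MvPolynomial.totalDegree_C, MvPolynomial.totalDegree_X]

/-- Crossing vectors of a list. -/
noncomputable def crs {d : ℕ} (H : Finset (Fin d → ℝ)) (l : List (Fin d → ℝ)) :
    Finset (Fin d → ℝ) := by
  classical exact H.filter (fun h => (∃ u ∈ l, 0 < ldt h u) ∧ ∃ u ∈ l, ldt h u < 0)

theorem mem_crs {d : ℕ} {H : Finset (Fin d → ℝ)} {l : List (Fin d → ℝ)} {h : Fin d → ℝ} :
    h ∈ crs H l ↔ h ∈ H ∧ (∃ u ∈ l, 0 < ldt h u) ∧ ∃ u ∈ l, ldt h u < 0 := by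
  classical
  rw [crs, mem_filter]

/-- Crossing vectors of a tuple. -/
noncomputable def crt {d : ℕ} (H : Finset (Fin d → ℝ)) (t : Fin d → (Fin d → ℝ)) :
    Finset (Fin d → ℝ) := by
  classical exact H.filter (fun h => (∃ i, 0 < ldt h (t i)) ∧ ∃ i, ldt h (t i) < 0)

theorem mem_crt {d : ℕ} {H : Finset (Fin d → ℝ)} {t : Fin d → (Fin d → ℝ)} {h : Fin d → ℝ} :
    h ∈ crt H t ↔ h ∈ H ∧ (∃ i, 0 < ldt h (t i)) ∧ ∃ i, ldt h (t i) < 0 := by
  classical
  rw [crt, mem_filter]

/-- A family of representatives represents all crossing sets. -/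
theorem crs_eq_crt {d : ℕ} (H : Finset (Fin d → ℝ)) (Z : Finset (Fin d → ℝ))
    (hZ : ∀ x, ∃ z ∈ Z, ∀ h ∈ H, SignType.sign (ldt h x) = SignType.sign (ldt h z))
    (l : List (Fin d → ℝ)) (hl : l.length ≤ d) :
    ∃ t ∈ Fintype.piFinset (fun _ : Fin d => Z), crs H l = crt H t := by
  choose r hrZ hr using hZ
  refine ⟨fun i => r (l.getD i.val 0), ?_, ?_⟩
  · rw [Fintype.mem_piFinset]
    intro i
    exact hrZ _
  · ext h
    rw [mem_crs, mem_crt]
    have hpos : ∀ hh : h ∈ H, ((∃ u ∈ l, 0 < ldt h u) ↔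
        ∃ i : Fin d, 0 < ldt h (r (l.getD i.val 0))) := by
      intro hh
      constructor
      · rintro ⟨u, hu, hlt⟩
        obtain ⟨i, hi, rfl⟩ := List.getElem_of_mem hu
        refine ⟨⟨i, lt_of_lt_of_le hi hl⟩, ?_⟩
        have h1 := hr (l.getD i 0) h hh
        rw [List.getD_eq_getElem _ _ hi] at h1
        rw [List.getD_eq_getElem _ _ hi]
        rw [sign_pos hlt] at h1
        exact sign_eq_one_iff.1 h1.symm
      · rintro ⟨i, hlt⟩
        have h1 := hr (l.getD i.val 0) h hh
        rw [sign_pos hlt] at h1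
        have h2 := sign_eq_one_iff.1 h1
        by_cases hi : i.val < l.length
        · rw [List.getD_eq_getElem _ _ hi] at h2
          exact ⟨_, List.getElem_mem hi, h2⟩
        · rw [List.getD_eq_default _ _ (not_lt.1 hi), ldt_zero] at h2
          exact absurd h2 (lt_irrefl _)
    have hneg : ∀ hh : h ∈ H, ((∃ u ∈ l, ldt h u < 0) ↔
        ∃ i : Fin d, ldt h (r (l.getD i.val 0)) < 0) := by
      intro hh
      constructor
      · rintro ⟨u, hu, hlt⟩
        obtain ⟨i, hi, rfl⟩ := List.getElem_of_mem hu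
        refine ⟨⟨i, lt_of_lt_of_le hi hl⟩, ?_⟩
        have h1 := hr (l.getD i 0) h hh
        rw [List.getD_eq_getElem _ _ hi] at h1
        rw [List.getD_eq_getElem _ _ hi]
        rw [sign_neg hlt] at h1
        exact sign_eq_neg_one_iff.1 h1.symm
      · rintro ⟨i, hlt⟩
        have h1 := hr (l.getD i.val 0) h hh
        rw [sign_neg hlt] at h1
        have h2 := sign_eq_neg_one_iff.1 h1
        by_cases hi : i.val < l.length
        · rw [List.getD_eq_getElem _ _ hi] at h2
          exact ⟨_, List.getElem_mem hi, h2⟩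
        · rw [List.getD_eq_default _ _ (not_lt.1 hi), ldt_zero] at h2
          exact absurd h2 (lt_irrefl _)
    constructor
    · rintro ⟨hh, h1, h2⟩
      exact ⟨hh, (hpos hh).1 h1, (hneg hh).1 h2⟩
    · rintro ⟨hh, h1, h2⟩
      exact ⟨hh, (hpos hh).2 h1, (hneg hh).2 h2⟩

/-- The cost of one level. -/
def cst (d N : ℕ) : ℕ := d * (GG d N + GG d N ^ 2)

/-- The recursion. -/
theorem main (h1 : HitStatement) (h2 : RayStatement) (h3 : SgnStatement) (d N : ℕ) :
    ∀ (k : ℕ) (H : Finset (Fin d → ℝ)), H.card < 2 ^ k → H.card ≤ N →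
      Comp (LinT d) (fun x => fun h : {h // h ∈ H} => SignType.sign (ldt h.1 x)) (k * cst d N)
        Set.univ := by
  classical
  intro k
  induction k with
  | zero =>
    intro H hH _
    have hH0 : H = ∅ := by
      rw [← card_eq_zero]
      simpa using hH
    rw [Nat.zero_mul]
    intro x _ y _
    funext h
    have hh := h.2
    simp only [hH0, notMem_empty] at hh
  | succ k ih =>
    intro H hH hHN
    -- representatives
    obtain ⟨Z, hZc, hZ⟩ := h3 d N 1 (H.image lfm) (card_image_le.trans hHN) (by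
      intro p hp
      obtain ⟨h, _, rfl⟩ := mem_image.1 hp
      exact deg_lfm h)
    have hZ' : ∀ x, ∃ z ∈ Z, ∀ h ∈ H, SignType.sign (ldt h x) = SignType.sign (ldt h z) := by
      intro x
      obtain ⟨z, hz, hz'⟩ := hZ x
      refine ⟨z, hz, fun h hh => ?_⟩
      have := hz' (lfm h) (mem_image_of_mem _ hh)
      rwa [eval_lfm, eval_lfm] at this
    -- the family of large crossing sets
    set R : Finset (Finset (Fin d → ℝ)) :=
      ((Fintype.piFinset (fun _ : Fin d => Z)).image (crt H)).filter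
        (fun C => H.card < 2 * C.card) with hR
    have hRc : R.card ≤ RR d N 1 ^ d := by
      calc R.card ≤ ((Fintype.piFinset (fun _ : Fin d => Z)).image (crt H)).card :=
            card_filter_le _ _
        _ ≤ (Fintype.piFinset (fun _ : Fin d => Z)).card := card_image_le
        _ = Z.card ^ d := by simp
        _ ≤ RR d N 1 ^ d := Nat.pow_le_pow_left hZc d
    obtain ⟨T, hTH, hTc, hT⟩ := h1 (Fin d → ℝ) H R (by
      intro C hC
      rw [hR, mem_filter, mem_image] at hC
      obtain ⟨⟨t, _, rfl⟩, hC2⟩ := hC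
      refine ⟨fun h hh => (mem_crt.1 hh).1, hC2⟩)
    set G : Finset (Fin d → ℝ) := univ.image (fun i : Fin d => (Pi.single i 1 : Fin d → ℝ)) ∪ T
      with hG
    have hGc : G.card ≤ GG d N := by
      have ha : (univ.image (fun i : Fin d => (Pi.single i 1 : Fin d → ℝ))).card ≤ d := by
        refine card_image_le.trans ?_
        simp
      have hb : T.card ≤ Nat.log 2 (RR d N 1 ^ d) + 1 :=
        hTc.trans (Nat.add_le_add_right (Nat.log_mono_right hRc) 1)
      exact (card_union_le _ _).trans (Nat.add_le_add ha hb)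
    obtain ⟨f, hf, hf'⟩ := h2 d G (by
      intro x hx
      funext i
      have := hx (Pi.single i 1) (mem_union_left _ (mem_image_of_mem _ (mem_univ i)))
      simpa [Pi.single_apply] using this)
    have hcost : d * (G.card + G.card ^ 2) ≤ cst d N :=
      Nat.mul_le_mul_left d (Nat.add_le_add hGc (Nat.pow_le_pow_left hGc 2))
    have hf2 := Comp.mono hcost hf
    have hk : (k + 1) * cst d N = cst d N + k * cst d N := by ring
    rw [hk]
    refine hf2.bind (fun x _ => ?_)
    obtain ⟨hlen, hpx, hgx⟩ := hf' x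
    -- the crossing set of the list of `x` is small
    have hsmall : 2 * (crs H (f x)).card ≤ H.card := by
      by_contra hcon
      push Not at hcon
      obtain ⟨t, ht, hte⟩ := crs_eq_crt H Z hZ' (f x) hlen
      have hmem : crs H (f x) ∈ R := by
        rw [hR, mem_filter]
        exact ⟨mem_image.2 ⟨t, ht, hte.symm⟩, hcon⟩
      obtain ⟨h, hhT, hhC⟩ := hT _ hmem
      obtain ⟨_, ⟨u, hu, hu'⟩, ⟨v, hv, hv'⟩⟩ := mem_crs.1 hhC
      rcases hgx h (mem_union_right _ hhT) with h5 | h5
      · have : 0 ≤ ldt h v := h5 v hv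
        linarith
      · have : ldt h u ≤ 0 := h5 u hu
        linarith
    have hlt : (crs H (f x)).card < 2 ^ k := by
      rw [pow_succ] at hH
      omega
    have hrec := ih (crs H (f x)) hlt (by omega)
    refine Comp.of_eq ?_ (hrec.mono_set (Set.subset_univ _))
    intro y hy z hz hyz
    funext h
    obtain ⟨_, hpy, _⟩ := hf' y
    obtain ⟨_, hpz, _⟩ := hf' z
    rw [hy.2] at hpy
    rw [hz.2] at hpz
    by_cases hc : h.1 ∈ crs H (f x)
    · exact congrFun hyz ⟨h.1, hc⟩
    · refine sign_pos_comb h.1 (f x) y z hpy hpz ?_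
      by_contra hcon
      push Not at hcon
      apply hc
      obtain ⟨⟨u, hu, hu'⟩, ⟨v, hv, hv'⟩⟩ := hcon
      exact mem_crs.2 ⟨h.2, ⟨v, hv, hv'⟩, ⟨u, hu, hu'⟩⟩

end LocRow

open LocRow in
theorem loc_proof (h1 : HitStatement) (h2 : RayStatement) (h3 : SgnStatement) :
    LocStatement := by
  intro d N H hH
  exact main h1 h2 h3 d N (Nat.log 2 N + 1) H
    (lt_of_le_of_lt hH (Nat.lt_pow_succ_log_self (by norm_num) N)) hH

end MPB1C
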