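import Pool.Agent.Lib.MP_b1c768_lc.Comp

/-!
# MP_b1c768_lc, board SLB: row MAIN (helper16)
-/

set_option autoImplicit false

namespace MPB1C

open MvPolynomial

/-- Homogenization of an affine function. -/
def hom {n : ℕ} (a : Aff n) : Fin (n + 1) → ℝ := Fin.cons a.2 a.1

theorem hom_eval {n : ℕ} (a : Aff n) (x : Fin n → ℝ) :
    ∑ i, hom a i * (Fin.cons 1 x : Fin (n + 1) → ℝ) i = aev a x := by
  rw [Fin.sum_univ_succ]
  simp only [hom, Fin.cons_zero, Fin.cons_succ, mul_one, aev]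
  ring

theorem main_proof (h1 : CirStatement) (h2 : IndStatement) (h3 : LocStatement)
    (h4 : TreStatement) (h5 : NumStatement) : MainStatement := by
  classical
  intro S hpar hsl
  obtain ⟨p, hp⟩ := hpar
  obtain ⟨c, hc⟩ := h5
  refine ⟨(Polynomial.X + p + 2) ^ c, fun n => ?_⟩
  obtain ⟨C, hC, hCS⟩ := hp n
  obtain ⟨F, hF1, hF2, hF3⟩ := h1 n (p.eval n) C hC
  have hdet : Dets F (S n) := fun x y hxy => by
    rw [hCS x, hCS y]
    exact hF3 x y hxy
  obtain ⟨A, hA1, hA2⟩ := h2 n (MM n (p.eval n)) (2 ^ p.eval n) F (S n) hF1 hF2 hdet (hsl n)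
  have hloc := h3 (n + 1) (NN (MM n (p.eval n)) (2 ^ p.eval n) n) (A.image hom)
    (Finset.card_image_le.trans hA1)
  have hcm := Comp.comap (T' := AffT n) (fun x : Fin n → ℝ => (Fin.cons 1 x : Fin (n + 1) → ℝ))
    (fun t ht => by
      obtain ⟨g, rfl⟩ := ht
      refine ⟨(fun i => g i.succ, g 0), ?_⟩
      funext x
      simp only [Function.comp_apply, Fin.sum_univ_succ, Fin.cons_zero, Fin.cons_succ, mul_one,
        aev]
      ring) hloc
  rw [Set.preimage_univ] at hcm
  have hcomp : Comp (AffT n) (fun x => decide (x ∈ S n))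
      (LL (n + 1) (NN (MM n (p.eval n)) (2 ^ p.eval n) n)) Set.univ := by
    refine hcm.of_eq (fun x _ y _ hxy => ?_)
    have h6 : SameA A x y := by
      intro a ha
      have h7 := congrFun hxy ⟨hom a, Finset.mem_image_of_mem hom ha⟩
      simp only [Function.comp_apply] at h7
      rwa [hom_eval, hom_eval] at h7
    exact decide_eq_decide.2 (hA2 x y h6)
  obtain ⟨T, hT1, hT2⟩ := h4 n _ _ hcomp
  refine ⟨T, ?_, fun x => ?_⟩
  · refine hT1.trans ((hc n (p.eval n)).trans_eq ?_)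
    simp
  · rw [hT2 x]
    exact decide_eq_true_iff

end MPB1C
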