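import Mathlib
import Pool.Agent.Lib.MP_b1c768_lc.Defs

/-!
# Row NUM: the bounds are polynomial
-/

set_option autoImplicit false

namespace MPB1C

namespace NumRow

theorem lt_two (s : ℕ) : s ≤ 2 ^ s := Nat.lt_two_pow_self.le

theorem mul_le {a b e f : ℕ} (ha : a ≤ 2 ^ e) (hb : b ≤ 2 ^ f) : a * b ≤ 2 ^ (e + f) := by
  rw [pow_add]
  exact Nat.mul_le_mul ha hb

theorem pow_le {a e k j : ℕ} (ha : a ≤ 2 ^ e) (hk : k ≤ j) : a ^ k ≤ 2 ^ (e * j) := by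
  rw [pow_mul]
  exact (Nat.pow_le_pow_left ha k).trans (Nat.pow_le_pow_right (by positivity) hk)

theorem add_le {a b e : ℕ} (ha : a ≤ 2 ^ e) (hb : b ≤ 2 ^ e) : a + b ≤ 2 ^ (e + 1) := by
  rw [pow_succ]
  omega

theorem up {a e f : ℕ} (ha : a ≤ 2 ^ e) (h : e ≤ f) : a ≤ 2 ^ f :=
  ha.trans (Nat.pow_le_pow_right (by norm_num) h)

/-- Bound for `RR`. -/
theorem RR_le {n m D s e f : ℕ} (hn : n + 1 ≤ s) (hm : m ≤ 2 ^ e) (hD : D ≤ 2 ^ f) :
    RR n m D ≤ 2 ^ (((s + (e + f + 2)) * s + 1) * s) := by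
  unfold RR
  have h1 : 2 * m * D ≤ 2 ^ (e + f + 1) := by
    have h := mul_le hm hD
    calc 2 * m * D = m * D * 2 := by ring
      _ ≤ 2 ^ (e + f) * 2 := Nat.mul_le_mul_right 2 h
      _ = 2 ^ (e + f + 1) := (pow_succ _ _).symm
  have h2 : 2 ≤ 2 ^ (e + f + 1) := by
    calc 2 = 2 ^ 1 := rfl
      _ ≤ 2 ^ (e + f + 1) := Nat.pow_le_pow_right (by norm_num) (by omega)
  have h3 : 2 * m * D + 2 ≤ 2 ^ (e + f + 2) := add_le h1 h2
  have h4 : n + 1 ≤ 2 ^ s := hn.trans (lt_two s)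
  have h5 := pow_le (k := n) (j := s) (mul_le h4 h3) (by omega)
  have h6 : 2 * ((n + 1) * (2 * m * D + 2)) ^ n ≤ 2 ^ ((s + (e + f + 2)) * s + 1) := by
    rw [pow_succ, mul_comm]
    exact Nat.mul_le_mul_right 2 h5
  exact pow_le h6 (by omega)

/-- Bound for `BB`. -/
theorem BB_le {n m D s e f : ℕ} (hn : n + 2 ≤ s) (hm : m ≤ 2 ^ e) (hD : D + 1 ≤ 2 ^ f) :
    BB n m D ≤ 2 ^ ((s + (e + f + 2)) * s + 2) := by
  unfold BB
  have h1 : 2 * m * (D + 1) ≤ 2 ^ (e + f + 1) := by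
    have h := mul_le hm hD
    calc 2 * m * (D + 1) = m * (D + 1) * 2 := by ring
      _ ≤ 2 ^ (e + f) * 2 := Nat.mul_le_mul_right 2 h
      _ = 2 ^ (e + f + 1) := (pow_succ _ _).symm
  have h2 : 1 ≤ 2 ^ (e + f + 1) := Nat.one_le_two_pow
  have h3 : 2 * m * (D + 1) + 1 ≤ 2 ^ (e + f + 2) := add_le h1 h2
  have h4 : n + 2 ≤ 2 ^ s := hn.trans (lt_two s)
  have h5 := pow_le (k := n + 1) (j := s) (mul_le h4 h3) (by omega)
  have h6 : 2 * ((n + 2) * (2 * m * (D + 1) + 1)) ^ (n + 1) ≤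
      2 ^ ((s + (e + f + 2)) * s + 1) := by
    rw [pow_succ (2 : ℕ), mul_comm]
    exact Nat.mul_le_mul_right 2 h5
  have h7 : m * D ≤ 2 ^ ((s + (e + f + 2)) * s + 1) := by
    have h := mul_le hm ((Nat.le_succ D).trans hD)
    refine up h ?_
    nlinarith
  exact add_le h6 h7

/-- Bound for `NN`. -/
theorem NN_le {m D s b : ℕ} (k : ℕ) (hk : k ≤ s)
    (hB : ∀ j, j ≤ k → BB j m D ≤ 2 ^ b) : 1 + NN m D k ≤ 2 ^ ((s + b + 1) * k) := by
  induction k with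
  | zero => simp [NN]
  | succ k ih =>
    have h1 := ih (by omega) fun j hj => hB j (by omega)
    have h2 : 2 ^ (k + 1) ≤ 2 ^ s := Nat.pow_le_pow_right (by norm_num) hk
    have h3 := mul_le (mul_le h2 (hB (k + 1) le_rfl)) h1
    have h4 : NN m D (k + 1) = 2 ^ (k + 1) * BB (k + 1) m D * (1 + NN m D k) := rfl
    have h5 : 1 ≤ 2 ^ (s + b + (s + b + 1) * k) := Nat.one_le_two_pow
    rw [← h4] at h3
    have h6 := add_le h5 h3
    refine h6.trans (le_of_eq ?_)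
    congr 1
    ring

theorem log_le {N e : ℕ} (h : N ≤ 2 ^ e) : Nat.log 2 N ≤ e := by
  calc Nat.log 2 N ≤ Nat.log 2 (2 ^ e) := Nat.log_mono_right h
    _ = e := Nat.log_pow (by norm_num) e

end NumRow

open NumRow

/-- Row NUM. -/
theorem num_proof : NumStatement := by
  refine ⟨42, fun n d => ?_⟩
  obtain ⟨s, hs⟩ : ∃ s, s = n + d + 2 := ⟨_, rfl⟩
  have hs2 : 2 ≤ s := by omega
  rw [← hs]
  -- powers of `s`
  have p1 : ∀ a b : ℕ, a ≤ b → s ^ a ≤ s ^ b := fun a b h => Nat.pow_le_pow_right (by omega) h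
  have one_le : ∀ a : ℕ, 1 ≤ s ^ a := fun a => Nat.one_le_pow _ _ (by omega)
  -- MM
  have hd : 2 ^ d ≤ 2 ^ s := Nat.pow_le_pow_right (by norm_num) (by omega)
  have hR : RR n (2 ^ d) (2 ^ d) ≤ 2 ^ (6 * s ^ 3) := by
    refine up (RR_le (s := s) (by omega) hd hd) ?_
    have := p1 1 3 (by norm_num)
    have := p1 2 3 (by norm_num)
    have e1 : ((s + (s + s + 2)) * s + 1) * s = 3 * s ^ 3 + 2 * s ^ 2 + s ^ 1 := by ring
    rw [e1]
    omega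
  have hM0 : 2 ^ d + RR n (2 ^ d) (2 ^ d) ≤ 2 ^ (6 * s ^ 3 + 1) := by
    refine add_le (up hd ?_) hR
    have := p1 1 3 (by norm_num)
    simp only [pow_one] at this
    omega
  have hM : MM n d ≤ 2 ^ (7 * s ^ 4) := by
    unfold MM
    refine up (pow_le (j := s) hM0 (by omega)) ?_
    have := p1 1 4 (by norm_num)
    have e1 : (6 * s ^ 3 + 1) * s = 6 * s ^ 4 + s ^ 1 := by ring
    rw [e1]
    omega
  obtain ⟨m, hm⟩ : ∃ m, m = MM n d := ⟨_, rfl⟩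
  rw [← hm] at hM ⊢
  have hD1 : 2 ^ d + 1 ≤ 2 ^ s := by
    have h1 : 2 ^ d + 1 ≤ 2 ^ (d + 1) := add_le le_rfl Nat.one_le_two_pow
    exact h1.trans (Nat.pow_le_pow_right (by norm_num) (by omega))
  -- BB
  have hB : ∀ j, j ≤ n → BB j m (2 ^ d) ≤ 2 ^ (13 * s ^ 5) := by
    intro j hj
    refine up (BB_le (s := s) (by omega) hM hD1) ?_
    have := p1 0 5 (by norm_num)
    have := p1 1 5 (by norm_num)
    have := p1 2 5 (by norm_num)
    have e1 : (s + (7 * s ^ 4 + s + 2)) * s + 2 = 7 * s ^ 5 + 2 * s ^ 2 + 2 * s ^ 1 + 2 * s ^ 0 := by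
      ring
    rw [e1]
    omega
  -- NN
  have hN : NN m (2 ^ d) n ≤ 2 ^ (15 * s ^ 6) := by
    have h1 := NN_le (s := s) n (by omega) hB
    have h2 : (s + 13 * s ^ 5 + 1) * n ≤ 15 * s ^ 6 := by
      have := p1 1 6 (by norm_num)
      have := p1 2 6 (by norm_num)
      calc (s + 13 * s ^ 5 + 1) * n ≤ (s + 13 * s ^ 5 + 1) * s := Nat.mul_le_mul_left _ (by omega)
        _ = 13 * s ^ 6 + s ^ 2 + s ^ 1 := by ring
        _ ≤ 15 * s ^ 6 := by omega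
    have h3 := up h1 h2
    omega
  obtain ⟨N, hNe⟩ : ∃ N, N = NN m (2 ^ d) n := ⟨_, rfl⟩
  rw [← hNe] at hN ⊢
  have hlog : Nat.log 2 N ≤ 15 * s ^ 6 := log_le hN
  -- GG
  have hR2 : RR (n + 1) N 1 ≤ 2 ^ (22 * s ^ 8) := by
    have h1 : (1 : ℕ) ≤ 2 ^ 0 := le_rfl
    refine up (RR_le (s := s) (by omega) hN h1) ?_
    have := p1 1 8 (by norm_num)
    have := p1 2 8 (by norm_num)
    have := p1 3 8 (by norm_num)
    have e1 : ((s + (15 * s ^ 6 + 0 + 2)) * s + 1) * s =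
        15 * s ^ 8 + s ^ 3 + 2 * s ^ 2 + s ^ 1 := by ring
    rw [e1]
    omega
  have hlog2 : Nat.log 2 (RR (n + 1) N 1 ^ (n + 1)) ≤ 22 * s ^ 9 := by
    refine log_le (up (pow_le (j := s) hR2 (by omega)) (le_of_eq ?_))
    ring
  have hG : GG (n + 1) N ≤ 24 * s ^ 9 := by
    unfold GG
    have := p1 1 9 (by norm_num)
    have := one_le 9
    simp only [pow_one] at *
    omega
  -- LL
  have hL : LL (n + 1) N ≤ (16 * s ^ 6) * (s * (24 * s ^ 9 + (24 * s ^ 9) ^ 2)) := by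
    unfold LL
    refine Nat.mul_le_mul ?_ (Nat.mul_le_mul (by omega) (Nat.add_le_add hG ?_))
    · have := one_le 6
      omega
    · exact Nat.pow_le_pow_left hG 2
  have h4 : 4 * n + 2 ≤ 4 * s := by omega
  have h5 := Nat.mul_le_mul hL h4
  have h6 : (16 * s ^ 6) * (s * (24 * s ^ 9 + (24 * s ^ 9) ^ 2)) * (4 * s) + 1 ≤
      38401 * s ^ 26 := by
    have h7 : (16 * s ^ 6) * (s * (24 * s ^ 9 + (24 * s ^ 9) ^ 2)) * (4 * s) + 1 =
        1536 * s ^ 17 + 36864 * s ^ 26 + 1 := by ring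
    rw [h7]
    have := p1 17 26 (by norm_num)
    have := one_le 26
    omega
  have h8 : 38401 * s ^ 26 ≤ s ^ 42 := by
    have h9 : 2 ^ 16 ≤ s ^ 16 := Nat.pow_le_pow_left hs2 16
    calc 38401 * s ^ 26 ≤ s ^ 16 * s ^ 26 := Nat.mul_le_mul_right _ (by omega)
      _ = s ^ 42 := by rw [← pow_add]
  omega

end MPB1C
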