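import Pool.Agent.Lib.MP_b1c768_lc.Comp

/-!
# MP_b1c768_lc, board SLB: row RAY (ray shooting)
-/

set_option autoImplicit false

namespace MPB1C

open Finset

/-- The pairing. -/
noncomputable def rdt {d : ℕ} (g x : Fin d → ℝ) : ℝ := ∑ i, g i * x i

theorem rdt_add {d : ℕ} (g x y : Fin d → ℝ) : rdt g (x + y) = rdt g x + rdt g y := by
  simp only [rdt, Pi.add_apply, mul_add, sum_add_distrib]

theorem rdt_smul {d : ℕ} (g : Fin d → ℝ) (t : ℝ) (x : Fin d → ℝ) :
    rdt g (t • x) = t * rdt g x := by
  simp only [rdt, Pi.smul_apply, smul_eq_mul, mul_sum]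
  exact sum_congr rfl (fun i _ => by ring)

theorem rdt_sub {d : ℕ} (g x y : Fin d → ℝ) : rdt g (x - y) = rdt g x - rdt g y := by
  simp only [rdt, Pi.sub_apply, mul_sub, sum_sub_distrib]

/-- The pairing as a linear map in the second argument. -/
noncomputable def rdtL {d : ℕ} (g : Fin d → ℝ) : (Fin d → ℝ) →ₗ[ℝ] ℝ where
  toFun x := rdt g x
  map_add' x y := rdt_add g x y
  map_smul' t x := rdt_smul g t x

/-- The pairing as a linear map in the first argument. -/
noncomputable def rdtR {d : ℕ} (x : Fin d → ℝ) : (Fin d → ℝ) →ₗ[ℝ] ℝ where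
  toFun g := rdt g x
  map_add' g h := by simp only [rdt, Pi.add_apply, add_mul, sum_add_distrib]
  map_smul' t g := by
    simp only [rdt, Pi.smul_apply, smul_eq_mul, mul_sum, RingHom.id_apply]
    exact sum_congr rfl (fun i _ => by ring)

theorem lin_mem {d : ℕ} (φ : (Fin d → ℝ) →ₗ[ℝ] ℝ) : (fun x => φ x) ∈ LinT d := by
  refine ⟨fun i => φ (Pi.single i 1), ?_⟩
  funext x
  have h := LinearMap.pi_apply_eq_sum_univ φ x
  rw [h]
  refine sum_congr rfl (fun i _ => ?_)
  rw [smul_eq_mul, mul_comm]
  congr 2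
  funext j
  simp [Pi.single_apply, eq_comm]

/-- The sign vector of `x`. -/
noncomputable def rsg {d : ℕ} (G : Finset (Fin d → ℝ)) (x : Fin d → ℝ) :
    {g // g ∈ G} → SignType := fun g => SignType.sign (rdt g.1 x)

/-- The representative of a sign vector. -/
noncomputable def rep {d : ℕ} (G : Finset (Fin d → ℝ)) (s : {g // g ∈ G} → SignType) :
    Fin d → ℝ := by
  classical exact if h : ∃ u, rsg G u = s then h.choose else 0

theorem rsg_rep {d : ℕ} (G : Finset (Fin d → ℝ)) (x : Fin d → ℝ) :
    rsg G (rep G (rsg G x)) = rsg G x := by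
  classical
  have h : ∃ u, rsg G u = rsg G x := ⟨x, rfl⟩
  rw [rep, dif_pos h]
  exact h.choose_spec

/-- The vectors of `G` that do not vanish at `u`. -/
noncomputable def rnz {d : ℕ} (G : Finset (Fin d → ℝ)) (u : Fin d → ℝ) : Finset (Fin d → ℝ) := by
  classical exact G.filter (fun g => rdt g u ≠ 0)

theorem mem_rnz {d : ℕ} {G : Finset (Fin d → ℝ)} {u g : Fin d → ℝ} :
    g ∈ rnz G u ↔ g ∈ G ∧ rdt g u ≠ 0 := by
  classical
  rw [rnz, mem_filter]

/-- The smallest ratio. -/
noncomputable def rmn {d : ℕ} (G : Finset (Fin d → ℝ)) (u y : Fin d → ℝ) : ℝ := by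
  classical exact if h : (rnz G u).Nonempty then (rnz G u).inf' h (fun g => rdt g y / rdt g u)
    else 0

/-- Ray shooting with at most `k` rounds. -/
noncomputable def ray {d : ℕ} (G : Finset (Fin d → ℝ)) : ℕ → (Fin d → ℝ) → List (Fin d → ℝ)
  | 0, _ => []
  | k + 1, y => by
    classical
    exact if y = 0 then [] else
      (rep G (rsg G y) :: ray G k (y - rmn G (rep G (rsg G y)) y • rep G (rsg G y)))

theorem ray_zero {d : ℕ} (G : Finset (Fin d → ℝ)) (k : ℕ) : ray G k 0 = [] := by
  cases k with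
  | zero => rfl
  | succ k => rw [ray, if_pos rfl]

theorem ray_succ {d : ℕ} (G : Finset (Fin d → ℝ)) (k : ℕ) (y : Fin d → ℝ) (hy : y ≠ 0) :
    ray G (k + 1) y =
      rep G (rsg G y) :: ray G k (y - rmn G (rep G (rsg G y)) y • rep G (rsg G y)) := by
  rw [ray, if_neg hy]

section step

variable {d : ℕ} {G : Finset (Fin d → ℝ)} (hG : ∀ x : Fin d → ℝ, (∀ g ∈ G, rdt g x = 0) → x = 0)

include hG

theorem rnz_ne {y : Fin d → ℝ} (hy : y ≠ 0) : (rnz G (rep G (rsg G y))).Nonempty := by
  by_contra hcon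
  rw [not_nonempty_iff_eq_empty] at hcon
  apply hy
  apply hG
  intro g hg
  have h1 : g ∉ rnz G (rep G (rsg G y)) := by rw [hcon]; exact notMem_empty g
  rw [mem_rnz] at h1
  push Not at h1
  have h2 := congrFun (rsg_rep G y) ⟨g, hg⟩
  simp only [rsg] at h2
  rw [h1 hg, sign_zero] at h2
  exact sign_eq_zero_iff.1 h2.symm

omit hG in
theorem rmn_spec {u y : Fin d → ℝ} {gs : Fin d → ℝ} (hgs : gs ∈ rnz G u)
    (h : ∀ g ∈ rnz G u, rdt gs y / rdt gs u ≤ rdt g y / rdt g u) :
    rmn G u y = rdt gs y / rdt gs u := by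
  classical
  have hne : (rnz G u).Nonempty := ⟨gs, hgs⟩
  rw [rmn, dif_pos hne]
  refine le_antisymm (inf'_le _ hgs) (le_inf' _ _ h)

omit hG in
theorem rmn_exists {u y : Fin d → ℝ} (hne : (rnz G u).Nonempty) :
    ∃ gs ∈ rnz G u, ∀ g ∈ rnz G u, rdt gs y / rdt gs u ≤ rdt g y / rdt g u :=
  exists_min_image (rnz G u) (fun g => rdt g y / rdt g u) hne

omit hG in
theorem sign_pair (g y : Fin d → ℝ) (hg : g ∈ G) :
    SignType.sign (rdt g (rep G (rsg G y))) = SignType.sign (rdt g y) :=
  congrFun (rsg_rep G y) ⟨g, hg⟩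

omit hG in
theorem ratio_pos (g y : Fin d → ℝ) (hg : g ∈ rnz G (rep G (rsg G y))) :
    0 < rdt g y / rdt g (rep G (rsg G y)) := by
  obtain ⟨hg1, hg2⟩ := mem_rnz.1 hg
  have h := sign_pair g y hg1
  rcases lt_trichotomy (rdt g (rep G (rsg G y))) 0 with h1 | h1 | h1
  · rw [sign_neg h1] at h
    have h2 : rdt g y < 0 := sign_eq_neg_one_iff.1 h.symm
    exact div_pos_of_neg_of_neg h2 h1
  · exact absurd h1 hg2
  · rw [sign_pos h1] at h
    have h2 : 0 < rdt g y := sign_eq_one_iff.1 h.symm
    exact div_pos h2 h1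

/-- The measure: the span of the vectors of `G` that vanish at `y`. -/
noncomputable def rW (G : Finset (Fin d → ℝ)) (y : Fin d → ℝ) : Submodule ℝ (Fin d → ℝ) :=
  Submodule.span ℝ {g | g ∈ G ∧ rdt g y = 0}

omit hG in
theorem rW_le_ker (y : Fin d → ℝ) : rW G y ≤ LinearMap.ker (rdtR y) := by
  rw [rW, Submodule.span_le]
  intro g hg
  exact LinearMap.mem_ker.2 hg.2

/-- One round. -/
theorem round {y : Fin d → ℝ} (hy : y ≠ 0) :
    0 < rmn G (rep G (rsg G y)) y ∧
    (∀ g ∈ G, 0 ≤ rdt g y → 0 ≤ rdt g (rep G (rsg G y)) ∧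
      0 ≤ rdt g (y - rmn G (rep G (rsg G y)) y • rep G (rsg G y))) ∧
    (∀ g ∈ G, rdt g y ≤ 0 → rdt g (rep G (rsg G y)) ≤ 0 ∧
      rdt g (y - rmn G (rep G (rsg G y)) y • rep G (rsg G y)) ≤ 0) ∧
    rW G y < rW G (y - rmn G (rep G (rsg G y)) y • rep G (rsg G y)) := by
  obtain ⟨gs, hgs, hmin⟩ := rmn_exists (y := y) (rnz_ne hG hy)
  have ht := rmn_spec hgs hmin
  have hpos : 0 < rmn G (rep G (rsg G y)) y := by rw [ht]; exact ratio_pos gs y hgs
  have hsub : ∀ g, rdt g (y - rmn G (rep G (rsg G y)) y • rep G (rsg G y)) =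
      rdt g y - rmn G (rep G (rsg G y)) y * rdt g (rep G (rsg G y)) := by
    intro g
    rw [rdt_sub, rdt_smul]
  have hle : ∀ g ∈ rnz G (rep G (rsg G y)),
      rmn G (rep G (rsg G y)) y ≤ rdt g y / rdt g (rep G (rsg G y)) := by
    intro g hg
    rw [ht]
    exact hmin g hg
  refine ⟨hpos, ?_, ?_, ?_⟩
  · intro g hg hgy
    have hs := sign_pair g y hg
    rcases hgy.lt_or_eq with h | h
    · rw [sign_pos h] at hs
      have h1 := sign_eq_one_iff.1 hs
      refine ⟨h1.le, ?_⟩
      have h2 := hle g (mem_rnz.2 ⟨hg, h1.ne'⟩)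
      rw [le_div_iff₀ h1] at h2
      rw [hsub]
      linarith
    · rw [← h, sign_zero] at hs
      have h1 := sign_eq_zero_iff.1 hs
      refine ⟨h1.ge, ?_⟩
      rw [hsub, h1, ← h]
      simp
  · intro g hg hgy
    have hs := sign_pair g y hg
    rcases hgy.lt_or_eq with h | h
    · rw [sign_neg h] at hs
      have h1 := sign_eq_neg_one_iff.1 hs
      refine ⟨h1.le, ?_⟩
      have h2 := hle g (mem_rnz.2 ⟨hg, h1.ne⟩)
      rw [le_div_iff_of_neg h1] at h2
      rw [hsub]
      linarith
    · rw [h, sign_zero] at hs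
      have h1 := sign_eq_zero_iff.1 hs
      refine ⟨h1.le, ?_⟩
      rw [hsub, h1, h]
      simp
  · have hgs' := mem_rnz.1 hgs
    have hz : ∀ g ∈ G, rdt g y = 0 →
        rdt g (y - rmn G (rep G (rsg G y)) y • rep G (rsg G y)) = 0 := by
      intro g hg h
      have hs := sign_pair g y hg
      rw [h, sign_zero] at hs
      rw [hsub, h, sign_eq_zero_iff.1 hs]
      simp
    refine lt_of_le_of_ne ?_ ?_
    · refine Submodule.span_mono ?_
      rintro g ⟨hg, h⟩
      exact ⟨hg, hz g hg h⟩
    · intro heq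
      have h1 : gs ∈ rW G (y - rmn G (rep G (rsg G y)) y • rep G (rsg G y)) := by
        refine Submodule.subset_span ⟨hgs'.1, ?_⟩
        rw [hsub, ht, div_mul_cancel₀ _ hgs'.2, sub_self]
      rw [← heq] at h1
      have h2 : rdt gs y = 0 := LinearMap.mem_ker.1 (rW_le_ker y h1)
      have h3 := ratio_pos gs y hgs
      rw [h2, zero_div] at h3
      exact lt_irrefl _ h3

omit hG in
theorem ray_len (k : ℕ) (y : Fin d → ℝ) : (ray G k y).length ≤ k := by
  induction k generalizing y with
  | zero => exact le_rfl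
  | succ k ih =>
    by_cases hy : y = 0
    · rw [hy, ray_zero]
      exact Nat.zero_le _
    · rw [ray_succ G k y hy, List.length_cons]
      exact Nat.succ_le_succ (ih _)

theorem ray_pos (k : ℕ) (y : Fin d → ℝ)
    (hk : d ≤ Module.finrank ℝ (rW G y) + k) : Pos (ray G k y) y := by
  induction k generalizing y with
  | zero =>
    have h1 : rW G y = ⊤ := by
      apply Submodule.eq_top_of_finrank_eq
      have h2 := Submodule.finrank_le (rW G y)
      rw [Module.finrank_fin_fun] at h2 ⊢
      omega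
    change y = 0
    apply hG
    intro g _
    have h2 : g ∈ rW G y := by rw [h1]; exact Submodule.mem_top
    exact LinearMap.mem_ker.1 (rW_le_ker y h2)
  | succ k ih =>
    by_cases hy : y = 0
    · rw [hy, ray_zero]
      rfl
    · rw [ray_succ G k y hy]
      obtain ⟨hpos, _, _, hW⟩ := round hG hy
      refine ⟨_, hpos, ih _ ?_⟩
      have h2 := Submodule.finrank_lt_finrank_of_lt hW
      omega

theorem ray_sgn (k : ℕ) (y : Fin d → ℝ) (g : Fin d → ℝ) (hg : g ∈ G) :
    (0 ≤ rdt g y → ∀ u ∈ ray G k y, 0 ≤ rdt g u) ∧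
    (rdt g y ≤ 0 → ∀ u ∈ ray G k y, rdt g u ≤ 0) := by
  induction k generalizing y with
  | zero =>
    refine ⟨fun _ u hu => ?_, fun _ u hu => ?_⟩
    · exact absurd hu (by rw [ray]; exact List.not_mem_nil)
    · exact absurd hu (by rw [ray]; exact List.not_mem_nil)
  | succ k ih =>
    by_cases hy : y = 0
    · rw [hy, ray_zero]
      refine ⟨fun _ u hu => ?_, fun _ u hu => ?_⟩
      · exact absurd hu List.not_mem_nil
      · exact absurd hu List.not_mem_nil
    · rw [ray_succ G k y hy]
      obtain ⟨_, h1, h2, _⟩ := round hG hy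
      refine ⟨fun h u hu => ?_, fun h u hu => ?_⟩
      · rcases List.mem_cons.1 hu with rfl | hu
        · exact (h1 g hg h).1
        · exact (ih _).1 (h1 g hg h).2 u hu
      · rcases List.mem_cons.1 hu with rfl | hu
        · exact (h2 g hg h).1
        · exact (ih _).2 (h2 g hg h).2 u hu

theorem ray_comp (k : ℕ) (M : (Fin d → ℝ) →ₗ[ℝ] (Fin d → ℝ)) (U : Set (Fin d → ℝ)) :
    Comp (LinT d) (fun x => ray G k (M x)) (k * (G.card + G.card ^ 2)) U := by
  classical
  induction k generalizing M U with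
  | zero =>
    rw [Nat.zero_mul]
    intro x _ y _
    rfl
  | succ k ih =>
    have hc : (k + 1) * (G.card + G.card ^ 2) =
        G.card + (G.card ^ 2 + k * (G.card + G.card ^ 2)) := by ring
    rw [hc]
    have h1 := Comp.signs (T := LinT d) G (fun g x => rdt g (M x))
      (fun g _ => lin_mem ((rdtL g).comp M)) U
    refine h1.bind (fun x0 hx0 => ?_)
    have hcls : ∀ y ∈ {y | y ∈ U ∧ (fun i : {i // i ∈ G} => SignType.sign (rdt i.1 (M y))) =
        fun i : {i // i ∈ G} => SignType.sign (rdt i.1 (M x0))}, rsg G (M y) = rsg G (M x0) :=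
      fun y hy => hy.2
    by_cases hz : M x0 = 0
    · -- the point is `0`
      have hall : ∀ y ∈ {y | y ∈ U ∧ (fun i : {i // i ∈ G} => SignType.sign (rdt i.1 (M y))) =
          fun i : {i // i ∈ G} => SignType.sign (rdt i.1 (M x0))}, M y = 0 := by
        intro y hy
        apply hG
        intro g hg
        have h2 := congrFun (hcls y hy) ⟨g, hg⟩
        simp only [rsg] at h2
        have h3 : rdt g (M x0) = 0 := by rw [hz]; simp [rdt]
        rw [h3, sign_zero] at h2
        exact sign_eq_zero_iff.1 h2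
      refine Comp.mono (Nat.zero_le _) ?_
      intro y hy y' hy'
      change ray G (k + 1) (M y) = ray G (k + 1) (M y')
      rw [hall y hy, hall y' hy']
    · set u := rep G (rsg G (M x0)) with hu
      set U1 : Set (Fin d → ℝ) := {y | y ∈ U ∧
        (fun i : {i // i ∈ G} => SignType.sign (rdt i.1 (M y))) =
        fun i : {i // i ∈ G} => SignType.sign (rdt i.1 (M x0))} with hU1
      have hne : (rnz G u).Nonempty := rnz_ne hG hz
      have hnz : ∀ y ∈ U1, M y ≠ 0 := by
        intro y hy hy0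
        apply hz
        apply hG
        intro g hg
        have h2 := congrFun (hcls y hy) ⟨g, hg⟩
        simp only [rsg] at h2
        have h3 : rdt g (M y) = 0 := by rw [hy0]; simp [rdt]
        rw [h3, sign_zero] at h2
        exact sign_eq_zero_iff.1 h2.symm
      have hcard : (G ×ˢ G).card = G.card ^ 2 := by rw [card_product, sq]
      have h2 := Comp.signs (T := LinT d) (G ×ˢ G)
        (fun p x => rdt p.1 (M x) * rdt p.2 u - rdt p.2 (M x) * rdt p.1 u)
        (fun p _ => lin_mem ((rdt p.2 u) • (rdtL p.1).comp M - (rdt p.1 u) • (rdtL p.2).comp M) |>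
          fun h => by
            have e : (fun x => rdt p.1 (M x) * rdt p.2 u - rdt p.2 (M x) * rdt p.1 u) =
                fun x => ((rdt p.2 u) • (rdtL p.1).comp M - (rdt p.1 u) • (rdtL p.2).comp M) x := by
              funext x
              simp only [LinearMap.sub_apply, LinearMap.smul_apply, LinearMap.comp_apply,
                smul_eq_mul]
              change _ = rdt p.2 u * rdt p.1 (M x) - rdt p.1 u * rdt p.2 (M x)
              ring
            rw [e]
            exact h) U1
      rw [hcard] at h2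
      refine h2.bind (fun x1 hx1 => ?_)
      obtain ⟨gs, hgs, hmin⟩ := rmn_exists (y := M x1) hne
      have hgs' := mem_rnz.1 hgs
      set U2 : Set (Fin d → ℝ) := {y | y ∈ U1 ∧
        (fun i : {i // i ∈ G ×ˢ G} => SignType.sign
          (rdt i.1.1 (M y) * rdt i.1.2 u - rdt i.1.2 (M y) * rdt i.1.1 u)) =
        fun i : {i // i ∈ G ×ˢ G} => SignType.sign
          (rdt i.1.1 (M x1) * rdt i.1.2 u - rdt i.1.2 (M x1) * rdt i.1.1 u)} with hU2
      -- the minimum is attained at `gs` on the whole class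
      have hrat : ∀ y ∈ U2, rmn G u (M y) = rdt gs (M y) / rdt gs u := by
        intro y hy
        refine rmn_spec hgs (fun g hg => ?_)
        have hg' := mem_rnz.1 hg
        have h3 := hmin g hg
        have h4 := congrFun hy.2 ⟨(gs, g), mem_product.2 ⟨hgs'.1, hg'.1⟩⟩
        simp only at h4
        have key : ∀ z : Fin d → ℝ, rdt gs (M z) / rdt gs u - rdt g (M z) / rdt g u =
            (rdt gs (M z) * rdt g u - rdt g (M z) * rdt gs u) / (rdt gs u * rdt g u) := by
          intro z
          field_simp [hgs'.2, hg'.2]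
        rw [← sub_nonpos, key] at h3 ⊢
        rcases lt_or_gt_of_ne (mul_ne_zero hgs'.2 hg'.2) with hp | hp
        · rw [div_nonpos_iff] at h3 ⊢
          rcases h3 with h3 | h3
          · left
            refine ⟨?_, hp.le⟩
            by_contra hcon
            push Not at hcon
            rw [sign_neg hcon] at h4
            have := sign_eq_neg_one_iff.1 h4.symm
            linarith [h3.1]
          · exact absurd h3.2 (not_le.2 hp)
        · rw [div_nonpos_iff] at h3 ⊢
          rcases h3 with h3 | h3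
          · exact absurd h3.2 (not_le.2 hp)
          · right
            refine ⟨?_, hp.le⟩
            by_contra hcon
            push Not at hcon
            rw [sign_pos hcon] at h4
            have := sign_eq_one_iff.1 h4.symm
            linarith [h3.1]
      -- the next point is a linear function
      set M' : (Fin d → ℝ) →ₗ[ℝ] (Fin d → ℝ) :=
        M - (((rdt gs u)⁻¹ • (rdtL gs).comp M).smulRight u) with hM'
      have hM'a : ∀ y ∈ U2, M y - rmn G (rep G (rsg G (M y))) (M y) • rep G (rsg G (M y)) = M' y := by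
        intro y hy
        rw [hcls y hy.1, ← hu, hrat y hy]
        rw [hM', LinearMap.sub_apply, LinearMap.smulRight_apply, LinearMap.smul_apply,
          LinearMap.comp_apply, smul_eq_mul]
        change _ = M y - ((rdt gs u)⁻¹ * rdt gs (M y)) • u
        rw [div_eq_inv_mul]
      refine (ih M' U2).of_eq (fun y hy y' hy' h5 => ?_)
      change ray G (k + 1) (M y) = ray G (k + 1) (M y')
      rw [ray_succ G k _ (hnz y hy.1), ray_succ G k _ (hnz y' hy'.1), hM'a y hy, hM'a y' hy',
        hcls y hy.1, hcls y' hy'.1]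
      exact congrArg _ h5

end step

theorem ray_proof : RayStatement := by
  intro d G hG
  have hG' : ∀ x : Fin d → ℝ, (∀ g ∈ G, rdt g x = 0) → x = 0 := hG
  refine ⟨fun x => ray G d x, ?_, fun x => ⟨ray_len d x, ray_pos hG' d x (by omega), ?_⟩⟩
  · have h := ray_comp hG' d LinearMap.id Set.univ
    exact h
  · intro g hg
    have h := ray_sgn hG' d x g hg
    rcases le_total 0 (rdt g x) with h1 | h1
    · exact Or.inl (h.1 h1)
    · exact Or.inr (h.2 h1)

end MPB1C
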