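import Pool.Agent.Lib.MP_b1c768_lc.Defs

/-!
# MP_b1c768_lc, board SLB: row RTS (helper16)
-/

set_option autoImplicit false

namespace MPB1C

open MvPolynomial Filter Topology

/-- The affine function as a polynomial. -/
noncomputable def rpol {n : ℕ} (a : Aff n) : MvPolynomial (Fin n) ℝ := ∑ i, C (a.1 i) * X i + C a.2

theorem rpol_eval {n : ℕ} (a : Aff n) (x : Fin n → ℝ) : eval x (rpol a) = aev a x := by
  unfold rpol aev
  simp only [map_add, map_sum, map_mul, eval_C, eval_X]

theorem rpol_inj {n : ℕ} {a b : Aff n} (h : rpol a = rpol b) : a = b := by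
  classical
  have h1 : ∀ x, aev a x = aev b x := fun x => by rw [← rpol_eval, ← rpol_eval, h]
  have h2 : a.2 = b.2 := by
    have := h1 0
    simpa [aev] using this
  refine Prod.ext ?_ h2
  funext i
  have h3 := h1 (Pi.single i 1)
  unfold aev at h3
  rw [h2] at h3
  have h4 := add_right_cancel h3
  simpa [Pi.single_apply] using h4

/-- `Q` restricted to the line through `x` in direction `l`. -/
noncomputable def line {n : ℕ} (Q : MvPolynomial (Fin n) ℝ) (l : Fin n) (x : Fin n → ℝ) :
    Polynomial ℝ :=
  aeval (fun i => if i = l then Polynomial.X else Polynomial.C (x i)) Q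

theorem line_eval {n : ℕ} (Q : MvPolynomial (Fin n) ℝ) (l : Fin n) (x : Fin n → ℝ) (t : ℝ) :
    (line Q l x).eval t = eval (Function.update x l t) Q := by
  unfold line
  induction Q using MvPolynomial.induction_on with
  | C a => simp [MvPolynomial.algebraMap_eq]
  | add p q hp hq => rw [map_add, Polynomial.eval_add, hp, hq, map_add]
  | mul_X p i hp =>
    rw [map_mul, Polynomial.eval_mul, hp, map_mul, aeval_X, eval_X]
    by_cases hi : i = l
    · subst hi
      simp
    · simp [hi]

theorem line_degree {n : ℕ} (Q : MvPolynomial (Fin n) ℝ) (l : Fin n) (x : Fin n → ℝ) :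
    (line Q l x).natDegree ≤ Q.degreeOf l := by
  classical
  unfold line
  rw [aeval_def, eval₂_eq]
  refine Polynomial.natDegree_sum_le_of_forall_le _ _ (fun s hs => ?_)
  refine (Polynomial.natDegree_mul_le).trans ?_
  have h1 : (algebraMap ℝ (Polynomial ℝ) (coeff s Q)).natDegree = 0 :=
    Polynomial.natDegree_C _
  rw [h1, zero_add]
  refine (Polynomial.natDegree_prod_le _ _).trans ?_
  have h2 : ∀ i ∈ s.support, ((if i = l then (Polynomial.X : Polynomial ℝ) else
      Polynomial.C (x i)) ^ s i).natDegree ≤ if i = l then s l else 0 := by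
    intro i _
    by_cases hi : i = l
    · subst hi
      simp
    · rw [if_neg hi, if_neg hi]
      refine (Polynomial.natDegree_pow_le).trans ?_
      rw [Polynomial.natDegree_C, mul_zero]
  refine (Finset.sum_le_sum h2).trans ?_
  rw [Finset.sum_ite_eq']
  split_ifs
  · exact monomial_le_degreeOf l hs
  · exact Nat.zero_le _

/-- Substitution of `x l = a(x)`. -/
noncomputable def rsub {n : ℕ} (l : Fin n) (a : Aff n) (Q : MvPolynomial (Fin n) ℝ) :
    MvPolynomial (Fin n) ℝ := bind₁ (fun i => if i = l then rpol a else X i) Q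

theorem rsub_eval {n : ℕ} (l : Fin n) (a : Aff n) (Q : MvPolynomial (Fin n) ℝ) (x : Fin n → ℝ) :
    eval x (rsub l a Q) = eval (Function.update x l (aev a x)) Q := by
  have h1 : (fun i => eval x (if i = l then rpol a else X i)) =
      Function.update x l (aev a x) := by
    funext i
    by_cases hi : i = l
    · subst hi
      rw [if_pos rfl, Function.update_self, rpol_eval]
    · rw [if_neg hi, Function.update_of_ne hi, eval_X]
  rw [← h1]
  exact eval₂Hom_bind₁ (RingHom.id ℝ) x (fun i => if i = l then rpol a else X i) Q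

theorem aev_update {n : ℕ} (a : Aff n) (l : Fin n) (h : a.1 l = 0) (x : Fin n → ℝ) (t : ℝ) :
    aev a (Function.update x l t) = aev a x := by
  unfold aev
  congr 1
  refine Finset.sum_congr rfl (fun i _ => ?_)
  by_cases hi : i = l
  · subst hi
    rw [h, zero_mul, zero_mul]
  · rw [Function.update_of_ne hi]

theorem rts_proof : RtsStatement := by
  classical
  intro n Q l Λ hQ hl hloc
  -- the polynomial vanishes on the whole hyperplane
  have hglob : ∀ a ∈ Λ, ∀ x, eval (Function.update x l (aev a x)) Q = 0 := by
    intro a ha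
    obtain ⟨q, r, hr, hql, hq⟩ := hloc a ha
    have hcont : Continuous (fun x : Fin n → ℝ => Function.update x l (aev a x)) := by
      refine continuous_id.update l ?_
      unfold aev
      exact (continuous_finsetSum _ (fun j _ =>
        continuous_const.mul (continuous_apply j))).add continuous_const
    have hev : ∀ᶠ x in 𝓝 q, Function.update x l (aev a x) ∈ Metric.ball q r := by
      refine hcont.continuousAt ?_
      change Metric.ball q r ∈ 𝓝 (Function.update q l (aev a q))
      rw [← hql, Function.update_eq_self]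
      exact Metric.ball_mem_nhds q hr
    obtain ⟨ρ, hρ, hρ'⟩ := Metric.eventually_nhds_iff_ball.1 hev
    have hzero : rsub l a Q = 0 := by
      refine MvPolynomial.funext_set (fun i => Metric.ball (q i) ρ) (fun i => ?_) (fun x hx => ?_)
      · rw [Real.ball_eq_Ioo]
        exact Set.Ioo_infinite (by linarith)
      · rw [rsub_eval, map_zero]
        have hx' : x ∈ Metric.ball q ρ := by
          rw [ball_pi q hρ]
          exact hx
        refine hq _ (hρ' x hx') ?_
        rw [Function.update_self, aev_update a l (hl a ha)]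
    intro x
    rw [← rsub_eval, hzero, map_zero]
  -- a generic point
  have hP : Q * ∏ c ∈ (Λ ×ˢ Λ).filter (fun c => c.1 ≠ c.2), (rpol c.1 - rpol c.2) ≠ 0 := by
    refine mul_ne_zero hQ (Finset.prod_ne_zero_iff.2 (fun c hc => ?_))
    exact sub_ne_zero.2 (fun h => (Finset.mem_filter.1 hc).2 (rpol_inj h))
  obtain ⟨x, hx⟩ : ∃ x, eval x (Q * ∏ c ∈ (Λ ×ˢ Λ).filter (fun c => c.1 ≠ c.2),
      (rpol c.1 - rpol c.2)) ≠ 0 := by
    by_contra h
    push_neg at h
    exact hP (MvPolynomial.funext (fun x => by rw [h x, map_zero]))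
  rw [map_mul, map_prod] at hx
  have hx1 : eval x Q ≠ 0 := left_ne_zero_of_mul hx
  have hx2 := Finset.prod_ne_zero_iff.1 (right_ne_zero_of_mul hx)
  have hinj : ∀ a ∈ Λ, ∀ b ∈ Λ, aev a x = aev b x → a = b := by
    intro a ha b hb hab
    by_contra hne
    refine hx2 (a, b) (Finset.mem_filter.2 ⟨Finset.mem_product.2 ⟨ha, hb⟩, hne⟩) ?_
    rw [map_sub, rpol_eval, rpol_eval, hab, sub_self]
  have hline : line Q l x ≠ 0 := by
    intro h
    apply hx1
    have h1 := line_eval Q l x (x l)
    rw [h, Polynomial.eval_zero, Function.update_eq_self] at h1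
    exact h1.symm
  calc Λ.card = (Λ.image (fun a => aev a x)).card :=
        (Finset.card_image_of_injOn (fun a ha b hb h => hinj a ha b hb h)).symm
    _ ≤ (line Q l x).roots.toFinset.card := by
        refine Finset.card_le_card (fun t ht => ?_)
        obtain ⟨a, ha, rfl⟩ := Finset.mem_image.1 ht
        rw [Multiset.mem_toFinset, Polynomial.mem_roots hline, Polynomial.IsRoot, line_eval]
        exact hglob a ha x
    _ ≤ (line Q l x).roots.card := Multiset.toFinset_card_le _
    _ ≤ (line Q l x).natDegree := Polynomial.card_roots' _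
    _ ≤ Q.degreeOf l := line_degree Q l x

end MPB1C
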