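import Pool.Agent.Lib.MP_b1c768_lc.Defs

/-!
# Row SGN: representatives for all sign vectors
-/

set_option autoImplicit false

namespace MPB1C

open MvPolynomial

/-! ### Derivatives -/

/-- The partial derivative of a polynomial function along a coordinate. -/
theorem sgn_hasDerivAt {n : ℕ} (c : Fin n → ℝ) (k : Fin n) (p : MvPolynomial (Fin n) ℝ) (t : ℝ) :
    HasDerivAt (fun s => eval (Function.update c k s) p)
      (eval (Function.update c k t) (pderiv k p)) t := by
  classical
  induction p using MvPolynomial.induction_on with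
  | C a =>
    simp only [eval_C, pderiv_C, map_zero]
    exact hasDerivAt_const t a
  | add p q hp hq =>
    simp only [map_add]
    exact hp.add hq
  | mul_X p i hp =>
    have hX : HasDerivAt (fun s => Function.update c k s i) (if i = k then (1 : ℝ) else 0) t := by
      by_cases h : i = k
      · subst h
        simp only [Function.update_self, if_true]
        exact hasDerivAt_id t
      · simp only [Function.update_of_ne h, if_neg h]
        exact hasDerivAt_const t _
    have h2 := hp.mul hX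
    have h3 : eval (Function.update c k t) (pderiv k (p * X i)) =
        eval (Function.update c k t) (pderiv k p) * Function.update c k t i +
          eval (Function.update c k t) p * (if i = k then (1 : ℝ) else 0) := by
      rw [pderiv_mul, map_add, map_mul, map_mul, eval_X]
      congr 2
      by_cases h : i = k
      · subst h
        rw [pderiv_X_self, map_one, if_pos rfl]
      · rw [pderiv_X_of_ne h, map_zero, if_neg h]
    rw [h3]
    simp only [map_mul, eval_X]
    exact h2

/-- The degree of a partial derivative. -/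
theorem sgn_totalDegree_pderiv {n : ℕ} (k : Fin n) (p : MvPolynomial (Fin n) ℝ) :
    (pderiv k p).totalDegree ≤ p.totalDegree := by
  refine Finset.sup_le fun m hm => ?_
  rw [mem_support_iff, coeff_pderiv] at hm
  have h1 : m + Finsupp.single k 1 ∈ p.support := by
    rw [mem_support_iff]
    intro h
    exact hm (by rw [h, zero_mul])
  refine le_trans ?_ (le_totalDegree h1)
  rw [Finsupp.sum_add_index' (fun _ => rfl) (fun _ _ _ => rfl)]
  exact Nat.le_add_right _ _

/-! ### The functions that describe the sets `W` -/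

/-- `> 0` if `y` is near `a = 0`, or of the sign of `a` and not too small. -/
noncomputable def uu (ε a y : ℝ) : ℝ := if a = 0 then ε ^ 2 - y ^ 2 else if 0 < a then y - ε else -y - ε

theorem uu_cont {X : Type} [TopologicalSpace X] (ε a : ℝ) {f : X → ℝ} (hf : Continuous f) :
    Continuous fun x => uu ε a (f x) := by
  unfold uu
  split_ifs
  · exact continuous_const.sub (hf.pow 2)
  · exact hf.sub continuous_const
  · exact hf.neg.sub continuous_const

theorem uu_zero {ε a y : ℝ} (h : uu ε a y = 0) : y ^ 2 - ε ^ 2 = 0 := by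
  unfold uu at h
  split_ifs at h
  · linarith
  · have : y = ε := by linarith
    rw [this, sub_self]
  · have : y = -ε := by linarith
    rw [this, neg_sq, sub_self]

theorem uu_sign {ε a a' y : ℝ} (hε : 0 < ε) (h : 0 < uu ε a y) (h' : 0 < uu ε a' y) :
    SignType.sign a = SignType.sign a' := by
  unfold uu at h h'
  split_ifs at h with h1 h2 <;> split_ifs at h' with h3 h4
  · rw [h1, h3]
  · nlinarith
  · nlinarith
  · nlinarith
  · rw [sign_pos h2, sign_pos h4]
  · linarith
  · nlinarith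
  · linarith
  · rw [sign_neg (lt_of_le_of_ne (not_lt.1 h2) h1), sign_neg (lt_of_le_of_ne (not_lt.1 h4) h3)]

theorem uu_pos {ε a : ℝ} (hε : 0 < ε) (h : a ≠ 0 → ε < |a|) : 0 < uu ε a a := by
  unfold uu
  split_ifs with h1 h2
  · rw [h1]
    have := pow_pos hε 2
    linarith
  · have := h h1
    rw [abs_of_pos h2] at this
    linarith
  · have := h h1
    rw [abs_of_nonpos (not_lt.1 h2)] at this
    linarith

/-! ### Local maxima -/

theorem sgn_grad {n : ℕ} (G : MvPolynomial (Fin n) ℝ) (s : ℝ) (v z c : Fin n → ℝ)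
    (W : Set (Fin n → ℝ)) (hW : IsOpen W) (hc : c ∈ W)
    (hmax : ∀ x ∈ W, s * eval x G - ∑ j, v j * (x j - z j) ≤
      s * eval c G - ∑ j, v j * (c j - z j)) (k : Fin n) :
    s * eval c (pderiv k G) = v k := by
  classical
  have h1 := sgn_hasDerivAt c k G (c k)
  rw [Function.update_eq_self] at h1
  have h2 : HasDerivAt (fun t => ∑ j, v j * (Function.update c k t j - z j))
      (∑ j, v j * (if j = k then (1 : ℝ) else 0)) (c k) := by
    refine HasDerivAt.fun_sum fun j _ => ?_
    refine HasDerivAt.const_mul _ ?_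
    by_cases h : j = k
    · subst h
      simp only [Function.update_self, if_true]
      exact (hasDerivAt_id _).sub_const _
    · simp only [Function.update_of_ne h, if_neg h]
      exact hasDerivAt_const _ _
  have h3 : ∑ j, v j * (if j = k then (1 : ℝ) else 0) = v k := by
    simp
  rw [h3] at h2
  have h4 := (h1.const_mul s).sub h2
  have hcont : Continuous fun t : ℝ => Function.update c k t :=
    continuous_const.update k continuous_id
  have hmem : Function.update c k (c k) ∈ W := by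
    rw [Function.update_eq_self]
    exact hc
  have h5 : IsLocalMax (fun t => s * eval (Function.update c k t) G -
      ∑ j, v j * (Function.update c k t j - z j)) (c k) := by
    filter_upwards [(hW.preimage hcont).mem_nhds hmem] with t ht
    have := hmax _ ht
    simp only [Function.update_eq_self]
    exact this
  have h6 := h5.hasDerivAt_eq_zero h4
  linarith

/-- `G = (ρ - |x|²) ∏ (p² - ε²)`. -/
noncomputable def Gs {n : ℕ} (F : Finset (MvPolynomial (Fin n) ℝ)) (ρ ε : ℝ) :
    MvPolynomial (Fin n) ℝ :=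
  (C ρ - ∑ j, X j ^ 2) * ∏ p ∈ F, (p ^ 2 - C (ε ^ 2))

theorem eval_Gs {n : ℕ} (F : Finset (MvPolynomial (Fin n) ℝ)) (ρ ε : ℝ) (x : Fin n → ℝ) :
    eval x (Gs F ρ ε) = (ρ - ∑ j, x j ^ 2) * ∏ p ∈ F, (eval x p ^ 2 - ε ^ 2) := by
  unfold Gs
  simp only [map_mul, map_sub, map_prod, map_sum, map_pow, eval_C, eval_X]

theorem totalDegree_Gs {n m D : ℕ} (F : Finset (MvPolynomial (Fin n) ℝ)) (ρ ε : ℝ)
    (hF : F.card ≤ m) (hD : ∀ p ∈ F, p.totalDegree ≤ D) :
    (Gs F ρ ε).totalDegree ≤ 2 * m * D + 2 := by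
  have h1 : (C ρ - ∑ j, X j ^ 2 : MvPolynomial (Fin n) ℝ).totalDegree ≤ 2 := by
    refine (totalDegree_sub _ _).trans (max_le ?_ ?_)
    · rw [totalDegree_C]
      exact Nat.zero_le _
    · exact totalDegree_finsetSum_le fun j _ => (totalDegree_X_pow j 2).le
  have h2 : (∏ p ∈ F, (p ^ 2 - C (ε ^ 2))).totalDegree ≤ 2 * m * D := by
    refine (totalDegree_finsetProd _ _).trans ?_
    have h3 : ∀ p ∈ F, (p ^ 2 - C (ε ^ 2)).totalDegree ≤ 2 * D := by
      intro p hp
      refine (totalDegree_sub _ _).trans (max_le ?_ ?_)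
      · exact (totalDegree_pow _ _).trans (Nat.mul_le_mul_left 2 (hD p hp))
      · rw [totalDegree_C]
        exact Nat.zero_le _
    refine (Finset.sum_le_sum h3).trans ?_
    rw [Finset.sum_const, smul_eq_mul]
    calc F.card * (2 * D) ≤ m * (2 * D) := Nat.mul_le_mul_right _ hF
      _ = 2 * m * D := by ring
  refine (totalDegree_mul _ _).trans ?_
  omega

theorem sgn_point {n : ℕ} (F : Finset (MvPolynomial (Fin n) ℝ)) (z : Fin n → ℝ) (ρ ε : ℝ)
    (hε : 0 < ε) (hρ : ∑ j, z j ^ 2 < ρ) (hz : ∀ p ∈ F, eval z p ≠ 0 → ε < |eval z p|)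
    (v : Fin n → ℝ)
    (hv : ∀ x : Fin n → ℝ, ∑ j, x j ^ 2 ≤ ρ →
      |∑ j, v j * (x j - z j)| < |eval z (Gs F ρ ε)|) :
    ∃ (c : Fin n → ℝ) (s : ℝ), (s = 1 ∨ s = -1) ∧
      (∀ p ∈ F, 0 < uu ε (eval z p) (eval c p)) ∧
      ∀ k, eval c (pderiv k (Gs F ρ ε)) = s * v k := by
  classical
  have hzp : ∀ p ∈ F, 0 < uu ε (eval z p) (eval z p) := fun p hp => uu_pos hε (hz p hp)
  obtain ⟨s, hs, hsG⟩ : ∃ s : ℝ, (s = 1 ∨ s = -1) ∧
      s * eval z (Gs F ρ ε) = |eval z (Gs F ρ ε)| := by
    rcases le_total 0 (eval z (Gs F ρ ε)) with h | h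
    · exact ⟨1, Or.inl rfl, by rw [abs_of_nonneg h, one_mul]⟩
    · exact ⟨-1, Or.inr rfl, by rw [abs_of_nonpos h, neg_one_mul]⟩
  let W : Set (Fin n → ℝ) := {x | 0 < ρ - ∑ j, x j ^ 2 ∧ ∀ p ∈ F, 0 < uu ε (eval z p) (eval x p)}
  let K : Set (Fin n → ℝ) := {x | 0 ≤ ρ - ∑ j, x j ^ 2 ∧ ∀ p ∈ F, 0 ≤ uu ε (eval z p) (eval x p)}
  have hc1 : Continuous fun x : Fin n → ℝ => ρ - ∑ j, x j ^ 2 :=
    continuous_const.sub (continuous_finsetSum _ fun j _ => (continuous_apply j).pow 2)
  have hc2 : ∀ p : MvPolynomial (Fin n) ℝ, Continuous fun x : Fin n → ℝ =>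
      uu ε (eval z p) (eval x p) := fun p => uu_cont _ _ (MvPolynomial.continuous_eval p)
  have hWo : IsOpen W := by
    have h1 : W = {x | 0 < ρ - ∑ j, x j ^ 2} ∩ ⋂ p ∈ F, {x | 0 < uu ε (eval z p) (eval x p)} := by
      ext x
      simp [W]
    rw [h1]
    exact (isOpen_lt continuous_const hc1).inter
      (isOpen_biInter_finset fun p _ => isOpen_lt continuous_const (hc2 p))
  have hKc : IsClosed K := by
    have h1 : K = {x | 0 ≤ ρ - ∑ j, x j ^ 2} ∩ ⋂ p ∈ F, {x | 0 ≤ uu ε (eval z p) (eval x p)} := by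
      ext x
      simp [K]
    rw [h1]
    exact (isClosed_le continuous_const hc1).inter
      (isClosed_biInter fun p _ => isClosed_le continuous_const (hc2 p))
  have hρ0 : 0 < ρ := lt_of_le_of_lt (Finset.sum_nonneg fun j _ => sq_nonneg _) hρ
  have hKb : K ⊆ Set.Icc (fun _ => -(ρ + 1)) (fun _ => ρ + 1) := by
    intro x hx
    have h1 : ∀ j, x j ^ 2 ≤ ρ := fun j =>
      (Finset.single_le_sum (f := fun j => x j ^ 2) (fun i _ => sq_nonneg _)
        (Finset.mem_univ j)).trans (by linarith [hx.1])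
    exact ⟨fun j => by
      have := h1 j
      show -(ρ + 1) ≤ x j
      nlinarith, fun j => by
      have := h1 j
      show x j ≤ ρ + 1
      nlinarith⟩
  have hKcomp : IsCompact K := isCompact_Icc.of_isClosed_subset hKc hKb
  have hzK : z ∈ K := ⟨by linarith, fun p hp => (hzp p hp).le⟩
  have hcont : Continuous fun x : Fin n → ℝ =>
      s * eval x (Gs F ρ ε) - ∑ j, v j * (x j - z j) :=
    (continuous_const.mul (MvPolynomial.continuous_eval _)).sub
      (continuous_finsetSum _ fun j _ =>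
        continuous_const.mul ((continuous_apply j).sub continuous_const))
  obtain ⟨c, hcK, hcmax⟩ := hKcomp.exists_isMaxOn ⟨z, hzK⟩ hcont.continuousOn
  have hmax : ∀ x ∈ K, s * eval x (Gs F ρ ε) - ∑ j, v j * (x j - z j) ≤
      s * eval c (Gs F ρ ε) - ∑ j, v j * (c j - z j) := fun x hx => hcmax hx
  have hne : eval c (Gs F ρ ε) ≠ 0 := by
    intro h0
    have h1 := hmax z hzK
    have h2 := hv c (by linarith [hcK.1])
    rw [h0, mul_zero, hsG] at h1
    simp only [sub_self, mul_zero, Finset.sum_const_zero, sub_zero, zero_sub] at h1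
    have h3 := neg_abs_le (∑ j, v j * (c j - z j))
    linarith
  rw [eval_Gs] at hne
  have hcW : c ∈ W := by
    refine ⟨lt_of_le_of_ne hcK.1 fun h => hne ?_, fun p hp =>
      lt_of_le_of_ne (hcK.2 p hp) fun h => hne ?_⟩
    · rw [← h, zero_mul]
    · rw [Finset.prod_eq_zero hp (uu_zero h.symm), mul_zero]
  refine ⟨c, s, hs, hcW.2, fun k => ?_⟩
  have h1 := sgn_grad (Gs F ρ ε) s v z c W hWo hcW
    (fun x hx => hmax x ⟨hx.1.le, fun p hp => (hx.2 p hp).le⟩) k
  have h2 : s * s = 1 := by
    rcases hs with h | h <;> rw [h] <;> norm_num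
  rw [← h1, ← mul_assoc, h2, one_mul]

/-! ### Generic direction -/

/-- The polynomial `P(T, v)` in one variable. -/
noncomputable def QQ {n : ℕ} (P : MvPolynomial (Option (Fin n)) ℝ) (v : Fin n → ℝ) : Polynomial ℝ :=
  Polynomial.map (eval v) (optionEquivLeft ℝ (Fin n) P)

theorem eval_QQ {n : ℕ} (P : MvPolynomial (Option (Fin n)) ℝ) (v : Fin n → ℝ) (t : ℝ) :
    (QQ P v).eval t = eval (fun o : Option (Fin n) => o.elim t v) P :=
  (optionEquivLeft_elim_eval ℝ (Fin n) v t P).symm

theorem natDegree_QQ {n : ℕ} (P : MvPolynomial (Option (Fin n)) ℝ) (v : Fin n → ℝ) :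
    (QQ P v).natDegree ≤ P.degreeOf none := by
  refine Polynomial.natDegree_map_le.trans ?_
  rw [natDegree_optionEquivLeft]

theorem exists_QQ_ne {n : ℕ} (P : Fin n → MvPolynomial (Option (Fin n)) ℝ) (hP : ∀ k, P k ≠ 0)
    (δ : ℝ) (hδ : 0 < δ) : ∃ v : Fin n → ℝ, (∀ j, 0 < v j ∧ v j < δ) ∧
      ∀ k, QQ (P k) v ≠ 0 ∧ QQ (P k) (fun j => -v j) ≠ 0 := by
  classical
  have h1 : ∀ k, ∃ y : Option (Fin n) → ℝ, eval y (P k) ≠ 0 := by
    intro k
    by_contra h
    push Not at h
    exact hP k (MvPolynomial.funext fun y => by rw [h y, map_zero])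
  choose y hy using h1
  let q1 : Fin n → MvPolynomial (Fin n) ℝ := fun k =>
    bind₁ (fun o : Option (Fin n) => o.elim (C (y k none)) X) (P k)
  let q2 : Fin n → MvPolynomial (Fin n) ℝ := fun k =>
    bind₁ (fun o : Option (Fin n) => o.elim (C (y k none)) (fun j => -X j)) (P k)
  have e1 : ∀ k v, eval v (q1 k) = eval (fun o : Option (Fin n) => o.elim (y k none) v) (P k) := by
    intro k v
    have := eval₂Hom_bind₁ (RingHom.id ℝ) v
      (fun o : Option (Fin n) => o.elim (C (y k none)) X) (P k)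
    change eval₂Hom (RingHom.id ℝ) v (bind₁ _ (P k)) = eval₂Hom (RingHom.id ℝ) _ (P k)
    rw [this]
    congr 2
    funext o
    cases o with
    | none => simp
    | some j => simp
  have e2 : ∀ k v, eval v (q2 k) =
      eval (fun o : Option (Fin n) => o.elim (y k none) (fun j => -v j)) (P k) := by
    intro k v
    have := eval₂Hom_bind₁ (RingHom.id ℝ) v
      (fun o : Option (Fin n) => o.elim (C (y k none)) (fun j => -X j)) (P k)
    change eval₂Hom (RingHom.id ℝ) v (bind₁ _ (P k)) = eval₂Hom (RingHom.id ℝ) _ (P k)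
    rw [this]
    congr 2
    funext o
    cases o with
    | none => simp
    | some j => simp
  have hy' : ∀ k, (fun o : Option (Fin n) => o.elim (y k none) (fun j => y k (some j))) = y k := by
    intro k
    funext o
    cases o <;> rfl
  have n1 : ∀ k, q1 k ≠ 0 := by
    intro k h
    have := e1 k (fun j => y k (some j))
    rw [h, map_zero, hy'] at this
    exact hy k this.symm
  have n2 : ∀ k, q2 k ≠ 0 := by
    intro k h
    have := e2 k (fun j => -y k (some j))
    simp only [neg_neg] at this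
    rw [h, map_zero, hy'] at this
    exact hy k this.symm
  have hne : ∏ k, (q1 k * q2 k) ≠ 0 :=
    Finset.prod_ne_zero_iff.2 fun k _ => mul_ne_zero (n1 k) (n2 k)
  obtain ⟨v, hv, hve⟩ : ∃ v ∈ Set.pi Set.univ (fun _ : Fin n => Set.Ioo (0 : ℝ) δ),
      eval v (∏ k, (q1 k * q2 k)) ≠ 0 := by
    by_contra h
    push Not at h
    exact hne (funext_set (fun _ => Set.Ioo (0 : ℝ) δ) (fun _ => Set.Ioo_infinite hδ)
      fun x hx => by rw [h x hx, map_zero])
  rw [map_prod] at hve
  refine ⟨v, fun j => hv j (Set.mem_univ j), fun k => ?_⟩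
  have h2 := Finset.prod_ne_zero_iff.1 hve k (Finset.mem_univ k)
  rw [map_mul] at h2
  refine ⟨fun h => ?_, fun h => ?_⟩
  · apply left_ne_zero_of_mul h2
    rw [e1, ← eval_QQ, h, Polynomial.eval_zero]
  · apply right_ne_zero_of_mul h2
    rw [e2, ← eval_QQ, h, Polynomial.eval_zero]

/-! ### The row -/

theorem sgn_proof (h : DepStatement) : SgnStatement := by
  classical
  intro n m D F hF hD
  let sv : (Fin n → ℝ) → ({p // p ∈ F} → SignType) := fun x p => SignType.sign (eval x p.1)
  have : Fintype (Set.range sv) := Fintype.ofFinite _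
  have hex : ∀ σ : Set.range sv, ∃ y, sv y = σ.1 := fun σ => σ.2
  choose z hz using hex
  refine ⟨Finset.univ.image z, ?_, fun x => ?_⟩
  swap
  · refine ⟨z ⟨sv x, x, rfl⟩, Finset.mem_image_of_mem _ (Finset.mem_univ _), fun p hp => ?_⟩
    exact (congrFun (hz ⟨sv x, x, rfl⟩) ⟨p, hp⟩).symm
  refine Finset.card_image_le.trans ?_
  -- the parameters
  obtain ⟨ρ, hρ⟩ : ∃ ρ : ℝ, ∀ σ, ∑ j, z σ j ^ 2 < ρ := by
    obtain ⟨M, hM⟩ := (Set.finite_range fun σ => ∑ j, z σ j ^ 2).bddAbove
    exact ⟨M + 1, fun σ => lt_of_le_of_lt (hM ⟨σ, rfl⟩) (lt_add_one M)⟩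
  have hρ0 : ∀ σ, 0 < ρ := fun σ =>
    lt_of_le_of_lt (Finset.sum_nonneg fun j _ => sq_nonneg _) (hρ σ)
  have hev : ∀ᶠ ε in nhdsWithin (0 : ℝ) (Set.Ioi 0), ∀ (σ : Set.range sv) (p : {p // p ∈ F}),
      eval (z σ) p.1 ≠ 0 → ε < |eval (z σ) p.1| := by
    rw [Filter.eventually_all]
    intro σ
    rw [Filter.eventually_all]
    intro p
    by_cases h0 : eval (z σ) p.1 = 0
    · exact Filter.Eventually.of_forall fun ε h1 => absurd h0 h1
    · filter_upwards [Ioo_mem_nhdsGT (abs_pos.2 h0)] with ε hε _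
      exact hε.2
  obtain ⟨ε, hε1, hε⟩ := (hev.and self_mem_nhdsWithin).exists
  have hε : 0 < ε := hε
  have hzε : ∀ σ, ∀ p ∈ F, eval (z σ) p ≠ 0 → ε < |eval (z σ) p| := fun σ p hp =>
    hε1 σ ⟨p, hp⟩
  have hG0 : ∀ σ, eval (z σ) (Gs F ρ ε) ≠ 0 := by
    intro σ
    rw [eval_Gs]
    refine mul_ne_zero (by have := hρ σ; intro h0; linarith)
      (Finset.prod_ne_zero_iff.2 fun p hp h0 => ?_)
    by_cases h1 : eval (z σ) p = 0
    · rw [h1] at h0
      have := pow_pos hε 2
      linarith
    · have h2 := hzε σ p hp h1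
      have h3 : ε ^ 2 < eval (z σ) p ^ 2 := by
        rw [← sq_abs (eval (z σ) p)]
        exact pow_lt_pow_left₀ h2 hε.le two_ne_zero
      linarith
  -- algebraic relations
  have hdep : ∀ k : Fin n, ∃ P : MvPolynomial (Option (Fin n)) ℝ, P ≠ 0 ∧
      P.degreeOf none ≤ ((n + 1) * (2 * m * D + 2)) ^ n ∧
      bind₁ (fun o : Option (Fin n) => o.elim (X k) fun j => pderiv j (Gs F ρ ε)) P = 0 := by
    intro k
    obtain ⟨P, hP, hdeg, hb⟩ := h (Fin n) (Option (Fin n)) (2 * m * D + 2)
      (fun o : Option (Fin n) => o.elim (X k) fun j => pderiv j (Gs F ρ ε))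
      (by rw [Fintype.card_option]) (by omega) (by
        intro o
        cases o with
        | none =>
          simp only [Option.elim_none]
          rw [totalDegree_X]
          omega
        | some j =>
          exact (sgn_totalDegree_pderiv j _).trans (totalDegree_Gs F ρ ε hF hD))
    refine ⟨P, hP, ?_, hb⟩
    have := hdeg none
    rwa [Fintype.card_option, Fintype.card_fin] at this
  choose P hP hPdeg hPb using hdep
  have hδev : ∀ᶠ δ in nhdsWithin (0 : ℝ) (Set.Ioi 0), ∀ σ : Set.range sv,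
      n * (δ * (2 * ρ + 2)) < |eval (z σ) (Gs F ρ ε)| := by
    rw [Filter.eventually_all]
    intro σ
    have hc : Filter.Tendsto (fun δ : ℝ => n * (δ * (2 * ρ + 2))) (nhdsWithin 0 (Set.Ioi 0))
        (nhds (n * (0 * (2 * ρ + 2)))) := by
      refine (Continuous.tendsto ?_ 0).mono_left nhdsWithin_le_nhds
      fun_prop
    rw [zero_mul, mul_zero] at hc
    exact hc.eventually (gt_mem_nhds (abs_pos.2 (hG0 σ)))
  obtain ⟨δ, hδ1, hδ⟩ := (hδev.and self_mem_nhdsWithin).exists
  have hδ : 0 < δ := hδ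
  obtain ⟨v, hv, hQ⟩ := exists_QQ_ne P hP δ hδ
  have hpt : ∀ σ, ∃ (c : Fin n → ℝ) (s : ℝ), (s = 1 ∨ s = -1) ∧
      (∀ p ∈ F, 0 < uu ε (eval (z σ) p) (eval c p)) ∧
      ∀ k, eval c (pderiv k (Gs F ρ ε)) = s * v k := by
    intro σ
    refine sgn_point F (z σ) ρ ε hε (hρ σ) (hzε σ) v fun x hx => ?_
    refine lt_of_le_of_lt ?_ (hδ1 σ)
    refine (Finset.abs_sum_le_sum_abs _ _).trans ?_
    have hρσ := hρ0 σ
    have hb : ∀ (w : Fin n → ℝ), ∑ j, w j ^ 2 ≤ ρ → ∀ j, |w j| ≤ ρ + 1 := by
      intro w hw j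
      have h1 : w j ^ 2 ≤ ρ := (Finset.single_le_sum (f := fun j => w j ^ 2)
        (fun i _ => sq_nonneg _) (Finset.mem_univ j)).trans hw
      rw [abs_le]
      constructor <;> nlinarith
    have h1 : ∀ j ∈ (Finset.univ : Finset (Fin n)), |v j * (x j - z σ j)| ≤ δ * (2 * ρ + 2) := by
      intro j _
      rw [abs_mul]
      refine mul_le_mul ?_ ?_ (abs_nonneg _) hδ.le
      · rw [abs_of_pos (hv j).1]
        exact (hv j).2.le
      · have h2 := hb x hx j
        have h3 := hb (z σ) (hρ σ).le j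
        exact (abs_sub _ _).trans (by linarith)
    refine (Finset.sum_le_sum h1).trans ?_
    rw [Finset.sum_const, Finset.card_univ, Fintype.card_fin, nsmul_eq_mul]
  choose c s hs hcW hcG using hpt
  have hinj : Function.Injective c := by
    intro σ τ hστ
    have h1 : sv (z σ) = sv (z τ) := by
      funext p
      have h2 := hcW σ p.1 p.2
      have h3 := hcW τ p.1 p.2
      rw [hστ] at h2
      exact uu_sign hε h2 h3
    rw [hz, hz] at h1
    exact Subtype.ext h1
  let A : Fin n → Finset ℝ := fun k =>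
    (QQ (P k) v).roots.toFinset ∪ (QQ (P k) fun j => -v j).roots.toFinset
  have hA : ∀ k, (A k).card ≤ 2 * ((n + 1) * (2 * m * D + 2)) ^ n := by
    intro k
    refine (Finset.card_union_le _ _).trans ?_
    have h1 : ∀ w : Fin n → ℝ, (QQ (P k) w).roots.toFinset.card ≤
        ((n + 1) * (2 * m * D + 2)) ^ n := fun w =>
      (Multiset.toFinset_card_le _).trans ((Polynomial.card_roots' _).trans
        ((natDegree_QQ _ _).trans (hPdeg k)))
    have h2 := h1 v
    have h3 := h1 fun j => -v j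
    omega
  have hmem : ∀ σ k, c σ k ∈ A k := by
    intro σ k
    have h1 : eval (fun o : Option (Fin n) => o.elim (c σ k) fun j => s σ * v j) (P k) = 0 := by
      have h2 := congrArg (eval (c σ)) (hPb k)
      rw [map_zero] at h2
      have h3 := eval₂Hom_bind₁ (RingHom.id ℝ) (c σ)
        (fun o : Option (Fin n) => o.elim (X k) fun j => pderiv j (Gs F ρ ε)) (P k)
      change eval (c σ) _ = eval₂Hom (RingHom.id ℝ) _ (P k) at h3
      rw [h2] at h3
      change eval₂Hom (RingHom.id ℝ) _ (P k) = 0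
      rw [h3]
      congr 2
      funext o
      cases o with
      | none => simp
      | some j => exact (hcG σ j).symm
    rcases hs σ with h2 | h2
    · refine Finset.mem_union_left _ ?_
      rw [Multiset.mem_toFinset, Polynomial.mem_roots (hQ k).1, Polynomial.IsRoot, eval_QQ]
      rw [h2] at h1
      simpa only [one_mul] using h1
    · refine Finset.mem_union_right _ ?_
      rw [Multiset.mem_toFinset, Polynomial.mem_roots (hQ k).2, Polynomial.IsRoot, eval_QQ]
      rw [h2] at h1
      simpa only [neg_one_mul] using h1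
  have hcard : (Finset.univ : Finset (Set.range sv)).card ≤ (Fintype.piFinset A).card :=
    Finset.card_le_card_of_injOn c (fun σ _ => by
      rw [Finset.mem_coe, Fintype.mem_piFinset]
      exact hmem σ) hinj.injOn
  refine hcard.trans ?_
  rw [Fintype.card_piFinset]
  refine (Finset.prod_le_prod' fun k _ => hA k).trans ?_
  rw [Finset.prod_const, Finset.card_univ, Fintype.card_fin, RR]

end MPB1C
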