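import Pool.Agent.Lib.MP_b1c768_lc.Defs

/-!
# Row TGT (helper72): a frontier point with a minimal set of hyperplanes through it
-/

set_option autoImplicit false

namespace MPB1C

open Filter Topology

theorem tgt_proof : TgtStatement := by
  intro n A S hS z hz
  classical
  let Z : (Fin n → ℝ) → Finset (Aff n) := fun x => A.filter (fun a => aev a x = 0)
  have hZ : ∀ x a, a ∈ Z x ↔ a ∈ A ∧ aev a x = 0 := fun x a => Finset.mem_filter
  have hex : ∃ k, ∃ q, q ∈ frontier S ∧ Z q ⊆ Z z ∧ (Z q).card = k :=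
    ⟨_, z, hz, subset_rfl, rfl⟩
  obtain ⟨q, hq, hqz, hk⟩ := Nat.find_spec hex
  have hmin : ∀ x, x ∈ frontier S → Z x ⊆ Z z → (Z q).card ≤ (Z x).card := by
    intro x hx hxz
    rw [hk]
    exact Nat.find_min' hex ⟨x, hx, hxz, rfl⟩
  have hcont : ∀ a : Aff n, Continuous (fun x => aev a x) := by
    intro a
    unfold aev
    fun_prop
  have hev : ∀ᶠ x in 𝓝 q, ∀ a ∈ A, aev a q ≠ 0 →
      SignType.sign (aev a x) = SignType.sign (aev a q) := by
    rw [Filter.eventually_all_finset]
    intro a _
    by_cases h : aev a q = 0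
    · exact Filter.Eventually.of_forall (fun x h' => absurd h h')
    · rcases lt_or_gt_of_ne h with h1 | h1
      · filter_upwards [(hcont a).continuousAt.eventually_lt continuousAt_const h1] with x hx _
        rw [sign_neg hx, sign_neg h1]
      · filter_upwards [continuousAt_const.eventually_lt (hcont a).continuousAt h1] with x hx _
        rw [sign_pos hx, sign_pos h1]
  obtain ⟨r, hr, hball⟩ := Metric.eventually_nhds_iff_ball.1 hev
  refine ⟨Z q, q, r, hr, hq, fun a ha => ((hZ z a).1 (hqz ha)).2, fun a ha => ((hZ q a).1 ha).2,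
    ?_, ?_⟩
  · intro x hx hxS a ha
    have hsub : Z x ⊆ Z q := by
      intro b hb
      obtain ⟨hbA, hbx⟩ := (hZ x b).1 hb
      refine (hZ q b).2 ⟨hbA, ?_⟩
      by_contra hne
      have h1 := hball x hx b hbA hne
      rw [hbx, sign_zero] at h1
      exact hne (sign_eq_zero_iff.1 h1.symm)
    have heq : Z x = Z q := Finset.eq_of_subset_of_card_le hsub (hmin x hxS (hsub.trans hqz))
    rw [← heq] at ha
    exact ((hZ x a).1 ha).2
  · intro x hx y hy hxy
    apply hS
    intro a ha
    by_cases h : aev a q = 0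
    · exact hxy a ((hZ q a).2 ⟨ha, h⟩)
    · rw [hball x hx a ha h, hball y hy a ha h]

end MPB1C
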