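import Pool.Agent.Lib.MP_b1c768_lc.Comp

/-!
# MP_b1c768_lc, board SLB: row TRE (helper16)
-/

set_option autoImplicit false

namespace MPB1C

/-- Adds the terms `a_i x_i`, `i` in the list, to the value in front. -/
def prog {n : ℕ} (a : Aff n) : List (Fin n) → MPB1C.Tree n → MPB1C.Tree n
  | [], T => T
  | i :: L, T => .const (a.1 i) (.inp i (.mul 0 1 (.add 0 3 (prog a L T))))

theorem prog_depth {n : ℕ} (a : Aff n) (L : List (Fin n)) (T : MPB1C.Tree n) :
    (prog a L T).depth = T.depth + 4 * L.length := by
  induction L with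
  | nil => simp [prog]
  | cons i L ih =>
    simp only [prog, Tree.depth, ih, List.length_cons]
    ring

theorem prog_run {n : ℕ} (a : Aff n) (x : Fin n → ℝ) (T : MPB1C.Tree n) (L : List (Fin n)) :
    ∀ (s : ℝ) (l : List ℝ), ∃ l' : List ℝ, (prog a L T).run x (s :: l) =
      T.run x ((s + (L.map (fun i => a.1 i * x i)).sum) :: l') := by
  induction L with
  | nil =>
    intro s l
    exact ⟨l, by simp [prog]⟩
  | cons i L ih =>
    intro s l
    obtain ⟨l', hl'⟩ := ih (x i * a.1 i + s) (x i * a.1 i :: x i :: a.1 i :: s :: l)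
    refine ⟨l', ?_⟩
    have h1 : (prog a (i :: L) T).run x (s :: l) =
        (prog a L T).run x ((x i * a.1 i + s) :: x i * a.1 i :: x i :: a.1 i :: s :: l) := by
      simp [prog, Tree.run]
    rw [h1, hl']
    congr 2
    rw [List.map_cons, List.sum_cons]
    ring

theorem tre_aux {n : ℕ} (f : (Fin n → ℝ) → Bool) (k : ℕ) : ∀ U : Set (Fin n → ℝ),
    Comp (AffT n) f k U → ∃ T : MPB1C.Tree n, T.depth ≤ k * (4 * n + 2) + 1 ∧
      ∀ x ∈ U, ∀ l : List ℝ, T.run x l = f x := by
  induction k with
  | zero =>
    intro U h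
    rcases U.eq_empty_or_nonempty with rfl | ⟨y, hy⟩
    · exact ⟨.leaf true, by simp [Tree.depth], fun x hx => absurd hx (Set.notMem_empty x)⟩
    · exact ⟨.leaf (f y), by simp [Tree.depth], fun x hx l => by
        simp only [Tree.run]
        exact h y hy x hx⟩
  | succ k ih =>
    rintro U (h | ⟨t, ⟨a, rfl⟩, h⟩)
    · obtain ⟨T, h1, h2⟩ := ih U h
      refine ⟨T, h1.trans ?_, h2⟩
      have : k * (4 * n + 2) ≤ (k + 1) * (4 * n + 2) := Nat.mul_le_mul_right _ (Nat.le_succ k)
      omega
    · choose T hT1 hT2 using fun s => ih _ (h s)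
      refine ⟨.const a.2 (prog a (List.finRange n)
        (.test 0 (T SignType.neg) (T SignType.zero) (T SignType.pos))), ?_, ?_⟩
      · have e : (k + 1) * (4 * n + 2) + 1 = k * (4 * n + 2) + 1 + (4 * n + 2) := by ring
        have h1 := hT1 SignType.neg
        have h2 := hT1 SignType.zero
        have h3 := hT1 SignType.pos
        simp only [Tree.depth, prog_depth, List.length_finRange]
        rw [e]
        omega
      · intro x hx l
        obtain ⟨l', hl'⟩ := prog_run a x (.test 0 (T SignType.neg) (T SignType.zero)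
          (T SignType.pos)) (List.finRange n) a.2 l
        have h0 : (MPB1C.Tree.const a.2 (prog a (List.finRange n)
            (.test 0 (T SignType.neg) (T SignType.zero) (T SignType.pos)))).run x l =
            (prog a (List.finRange n)
            (.test 0 (T SignType.neg) (T SignType.zero) (T SignType.pos))).run x (a.2 :: l) := rfl
        have hval : a.2 + ((List.finRange n).map (fun i => a.1 i * x i)).sum = aev a x := by
          rw [← Fin.sum_univ_def, add_comm]
          rfl
        rw [h0, hl', hval]
        simp only [Tree.run, List.getD_cons_zero]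
        cases hs : SignType.sign (aev a x) with
        | neg => exact hT2 SignType.neg x ⟨hx, hs⟩ _
        | zero => exact hT2 SignType.zero x ⟨hx, hs⟩ _
        | pos => exact hT2 SignType.pos x ⟨hx, hs⟩ _

theorem tre_proof : TreStatement := by
  intro n k f h
  obtain ⟨T, h1, h2⟩ := tre_aux f k Set.univ h
  exact ⟨T, h1, fun x => h2 x (Set.mem_univ x) []⟩

end MPB1C
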